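import Pool.Agent.Lib.MP_a9a15f_gt.Defs

/-!
# The angle functions
-/

set_option autoImplicit false

open Set Topology Filter
open scoped Real

namespace Pool.Agent.Lib.MP_a9a15f_gt

lemma zeta_eq (n : ℤ) (hn : 0 ≤ n) {t : ℝ} (h1 : (n : ℝ) ≤ t) (h2 : t ≤ n + 1) :
    zeta t = (n : ℝ) ^ 2 + min ((4 * (n : ℝ) + 6) * (t - n)) (2 * (n : ℝ) + 5 - 4 * (t - n)) := by
  have hn' : (0 : ℝ) ≤ n := by exact_mod_cast hn
  rcases h2.lt_or_eq with h | h
  · have hfl : ⌊t⌋ = n := Int.floor_eq_iff.2 ⟨h1, h⟩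
    have hfr : Int.fract t = t - n := by rw [Int.fract, hfl]
    rw [zeta, hfl, hfr]
  · have hfl : ⌊t⌋ = n + 1 := Int.floor_eq_iff.2 ⟨by push_cast; linarith, by push_cast; linarith⟩
    have hfr : Int.fract t = 0 := by rw [Int.fract, hfl, h]; push_cast; ring
    rw [zeta, hfl, hfr, h]
    push_cast
    rw [min_eq_left (by linarith), min_eq_right (by linarith)]
    ring

lemma exists_floor {t : ℝ} (ht : 0 ≤ t) : ∃ n : ℤ, 0 ≤ n ∧ (n : ℝ) ≤ t ∧ t < n + 1 :=
  ⟨⌊t⌋, Int.floor_nonneg.2 ht, Int.floor_le t, Int.lt_floor_add_one t⟩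

lemma zeta_ge (n : ℤ) (hn : 0 ≤ n) {t : ℝ} (h1 : (n : ℝ) ≤ t) (h2 : t ≤ n + 1) :
    (n : ℝ) ^ 2 ≤ zeta t := by
  have hn' : (0 : ℝ) ≤ n := by exact_mod_cast hn
  rw [zeta_eq n hn h1 h2]
  have : 0 ≤ min ((4 * (n : ℝ) + 6) * (t - n)) (2 * (n : ℝ) + 5 - 4 * (t - n)) := by
    refine le_min ?_ ?_
    · apply mul_nonneg <;> linarith
    · linarith
  linarith

lemma zeta_le (n : ℤ) (hn : 0 ≤ n) {t : ℝ} (h1 : (n : ℝ) ≤ t) (h2 : t ≤ n + 1) :
    zeta t ≤ ((n : ℝ) + 1) ^ 2 + 2 := by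
  have hn' : (0 : ℝ) ≤ n := by exact_mod_cast hn
  rw [zeta_eq n hn h1 h2]
  rcases le_total (t - n) (1 / 2) with h | h
  · have := min_le_left ((4 * (n : ℝ) + 6) * (t - n)) (2 * (n : ℝ) + 5 - 4 * (t - n))
    nlinarith
  · have := min_le_right ((4 * (n : ℝ) + 6) * (t - n)) (2 * (n : ℝ) + 5 - 4 * (t - n))
    nlinarith

/-- on the falling part -/
lemma zeta_ge' (n : ℤ) (hn : 0 ≤ n) {t : ℝ} (h1 : (n : ℝ) + 1 / 2 ≤ t) (h2 : t ≤ n + 1) :
    ((n : ℝ) + 1) ^ 2 ≤ zeta t := by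
  have hn' : (0 : ℝ) ≤ n := by exact_mod_cast hn
  rw [zeta_eq n hn (by linarith) h2]
  have : 2 * (n : ℝ) + 1 ≤ min ((4 * (n : ℝ) + 6) * (t - n)) (2 * (n : ℝ) + 5 - 4 * (t - n)) := by
    refine le_min ?_ ?_
    · nlinarith
    · linarith
  nlinarith

/-- on the rising part -/
lemma zeta_mono (n : ℤ) (hn : 0 ≤ n) {s t : ℝ} (h1 : (n : ℝ) ≤ s) (hst : s ≤ t)
    (h2 : t ≤ n + 1 / 2) : zeta s ≤ zeta t := by
  have hn' : (0 : ℝ) ≤ n := by exact_mod_cast hn
  rw [zeta_eq n hn h1 (by linarith), zeta_eq n hn (by linarith) (by linarith)]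
  have e1 : min ((4 * (n : ℝ) + 6) * (s - n)) (2 * (n : ℝ) + 5 - 4 * (s - n)) =
      (4 * (n : ℝ) + 6) * (s - n) := min_eq_left (by nlinarith)
  have e2 : min ((4 * (n : ℝ) + 6) * (t - n)) (2 * (n : ℝ) + 5 - 4 * (t - n)) =
      (4 * (n : ℝ) + 6) * (t - n) := min_eq_left (by nlinarith)
  rw [e1, e2]
  nlinarith

lemma zeta_int (n : ℤ) (hn : 0 ≤ n) : zeta n = (n : ℝ) ^ 2 := by
  have hn' : (0 : ℝ) ≤ n := by exact_mod_cast hn
  rw [zeta_eq n hn le_rfl (by linarith)]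
  rw [sub_self, min_eq_left (by linarith)]
  ring

lemma zeta_half (n : ℤ) (hn : 0 ≤ n) : zeta (n + 1 / 2) = ((n : ℝ) + 1) ^ 2 + 2 := by
  have hn' : (0 : ℝ) ≤ n := by exact_mod_cast hn
  rw [zeta_eq n hn (by linarith) (by linarith), min_eq_left (by linarith)]
  ring

/-- `zeta s ≥ n²` for `s ≥ n` -/
lemma zeta_ge_sq (n : ℤ) (hn : 0 ≤ n) {s : ℝ} (h : (n : ℝ) ≤ s) : (n : ℝ) ^ 2 ≤ zeta s := by
  have hn' : (0 : ℝ) ≤ n := by exact_mod_cast hn
  obtain ⟨m, hm, h1, h2⟩ := exists_floor (hn'.trans h)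
  have h3 := zeta_ge m hm h1 h2.le
  have h4 : n ≤ m := by
    have : (n : ℝ) < m + 1 := lt_of_le_of_lt h h2
    have : n < m + 1 := by exact_mod_cast this
    omega
  have h5 : (n : ℝ) ≤ m := by exact_mod_cast h4
  nlinarith

/-- `zeta s ≤ n² + 2` for `0 ≤ s ≤ n` -/
lemma zeta_le_sq (n : ℤ) {s : ℝ} (h0 : 0 ≤ s) (h : s ≤ n) : zeta s ≤ (n : ℝ) ^ 2 + 2 := by
  obtain ⟨m, hm, h1, h2⟩ := exists_floor h0
  have hm' : (0 : ℝ) ≤ m := by exact_mod_cast hm
  rcases lt_or_ge m n with h4 | h4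
  · have h3 := zeta_le m hm h1 h2.le
    have h5 : (m : ℝ) + 1 ≤ n := by exact_mod_cast h4
    nlinarith
  · have h5 : (n : ℝ) ≤ m := by exact_mod_cast h4
    have h6 : s = m := le_antisymm (h.trans h5) h1
    have h7 : (n : ℝ) = m := le_antisymm h5 (by linarith)
    rw [h6, zeta_int m hm, h7]
    linarith

/-- `zeta` never drops by more than `2` -/
lemma zeta_drop {s t : ℝ} (hs : 0 ≤ s) (hst : s ≤ t) : zeta s ≤ zeta t + 2 := by
  obtain ⟨m, hm, h1, h2⟩ := exists_floor (hs.trans hst)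
  rcases lt_or_ge s m with h | h
  · have h3 := zeta_le_sq m hs h.le
    have h4 := zeta_ge m hm h1 h2.le
    linarith
  · rcases le_total t (m + 1 / 2) with h3 | h3
    · linarith [zeta_mono m hm h hst h3]
    · linarith [zeta_ge' m hm h3 h2.le, zeta_le m hm h (hst.trans h2.le)]

/-- Piece C -/
theorem continuousOn_zeta : ContinuousOn zeta (Ici 0) := by
  have hcov : Ici (0 : ℝ) = ⋃ n : ℕ, Icc (n : ℝ) (n + 1) := by
    ext t
    simp only [mem_Ici, mem_iUnion, mem_Icc]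
    constructor
    · intro ht
      exact ⟨⌊t⌋₊, Nat.floor_le ht, (Nat.lt_floor_add_one t).le⟩
    · rintro ⟨n, h1, _⟩
      exact (Nat.cast_nonneg n).trans h1
  rw [hcov]
  refine LocallyFinite.continuousOn_iUnion ?_ (fun n => isClosed_Icc) ?_
  · intro x
    refine ⟨Ioo (x - 1) (x + 1), Ioo_mem_nhds (by linarith) (by linarith), ?_⟩
    refine (Set.finite_Iic ⌈x + 1⌉₊).subset ?_
    rintro n ⟨y, ⟨h1, _⟩, _, h4⟩
    rw [mem_Iic]
    have : (n : ℝ) ≤ ⌈x + 1⌉₊ := (h1.trans h4.le).trans (Nat.le_ceil _)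
    exact_mod_cast this
  · intro n
    have hn : (0 : ℤ) ≤ n := Int.natCast_nonneg n
    have hc : Continuous fun t : ℝ => ((n : ℤ) : ℝ) ^ 2 + min ((4 * ((n : ℤ) : ℝ) + 6) * (t - (n : ℤ)))
        (2 * ((n : ℤ) : ℝ) + 5 - 4 * (t - (n : ℤ))) := by fun_prop
    refine hc.continuousOn.congr ?_
    rintro t ⟨h1, h2⟩
    exact zeta_eq n hn (by exact_mod_cast h1) (by exact_mod_cast h2)

theorem continuous_al1 : Continuous al1 := by
  unfold al1
  refine Continuous.add ?_ ?_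
  · refine Continuous.div continuous_const (by fun_prop) ?_
    intro t
    have : min t 0 ≤ 0 := min_le_right _ _
    linarith
  · exact continuousOn_zeta.comp_continuous (by fun_prop) (fun t => mem_Ici.2 (le_max_right t 0))

theorem continuous_al2 : Continuous al2 := by
  unfold al2
  exact continuous_al1.add (by fun_prop)

theorem continuous_alh : Continuous alh := by
  unfold alh eta
  fun_prop

lemma al1_eq {t : ℝ} (ht : 0 ≤ t) : al1 t = 1 + zeta t := by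
  unfold al1
  rw [min_eq_right ht, max_eq_left ht]
  norm_num

lemma al2_eq {t : ℝ} (ht : 1 ≤ t) : al2 t = 2 + zeta t := by
  unfold al2
  rw [al1_eq (by linarith), min_eq_right ht, max_eq_left (by norm_num)]
  ring

lemma zeta_ge_lin {t : ℝ} (ht : 0 ≤ t) : t - 1 ≤ zeta t := by
  obtain ⟨m, hm, h1, h2⟩ := exists_floor ht
  have h3 := zeta_ge m hm h1 h2.le
  have hm' : (0 : ℝ) ≤ m := by exact_mod_cast hm
  rcases hm.eq_or_lt with h | h
  · rw [← h] at h2 h3
    simp at h2 h3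
    linarith
  · have h5 : (1 : ℝ) ≤ m := by exact_mod_cast h
    nlinarith

theorem tendsto_al1 : Tendsto al1 atTop atTop := by
  refine tendsto_atTop_mono' _ ?_ tendsto_id
  filter_upwards [eventually_ge_atTop 0] with t ht
  rw [al1_eq ht]
  have := zeta_ge_lin ht
  simp only [id]
  linarith

theorem tendsto_al2 : Tendsto al2 atTop atTop := by
  refine tendsto_atTop_mono' _ ?_ tendsto_id
  filter_upwards [eventually_ge_atTop 1] with t ht
  rw [al2_eq ht]
  have := zeta_ge_lin (by linarith : (0 : ℝ) ≤ t)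
  simp only [id]
  linarith

theorem tendsto_alh : Tendsto alh atTop atTop := by
  refine tendsto_atTop_mono' (f₁ := fun t => t - 1) _ ?_ (tendsto_atTop_add_const_right _ (-1) tendsto_id)
  filter_upwards with t
  unfold alh eta
  have h1 := le_max_left (t - 1) 0
  have h2 := Real.cos_le_one (2 * π * max (t - 1) 0)
  linarith

/-- crossing times -/
lemma exists_crossing {τ : ℝ → ℝ} (hτ : Continuous τ) (hinf : Tendsto τ atTop atTop) {T a b : ℝ}
    (hT : τ T < a) (hab : a < b) : ∃ t1 t2, T < t1 ∧ t1 < t2 ∧ τ t1 = a ∧ τ t2 = b := by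
  obtain ⟨S, hS⟩ := ((hinf.eventually_ge_atTop b).and (eventually_ge_atTop T)).exists
  obtain ⟨t2, ⟨h1, h2⟩, h3⟩ : b ∈ τ '' Icc T S :=
    intermediate_value_Icc hS.2 hτ.continuousOn ⟨(hT.trans hab).le, hS.1⟩
  obtain ⟨t1, ⟨h4, h5⟩, h6⟩ : a ∈ τ '' Icc T t2 :=
    intermediate_value_Icc h1 hτ.continuousOn ⟨hT.le, by rw [h3]; exact hab.le⟩
  refine ⟨t1, t2, lt_of_le_of_ne h4 ?_, lt_of_le_of_ne h5 ?_, h6, h3⟩
  · rintro rfl
    exact hT.ne h6
  · rintro rfl
    exact hab.ne (h6.symm.trans h3)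

theorem noAhead_of_eq {α : ℝ → ℝ} {k : ℝ} (hα : ∀ t, 1 ≤ t → α t = k + zeta t) : NoAhead α := by
  intro τ hτ hlt T c hcon
  have hinf : Tendsto τ atTop atTop := tendsto_atTop_mono (fun t => (hlt t).le) tendsto_id
  set T' := max T 1 with hT'
  have hcon' : ∀ t, T' ≤ t → 2 * (c : ℝ) < zeta (τ t) - zeta t ∧
      zeta (τ t) - zeta t < 2 * (c : ℝ) + 2 := by
    intro t ht
    have h1 : 1 ≤ t := (le_max_right T 1).trans ht
    have h2 := hcon t ((le_max_left T 1).trans ht)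
    rw [hα t h1, hα (τ t) (h1.trans (hlt t).le)] at h2
    constructor <;> linarith [h2.1, h2.2]
  obtain ⟨n, hn⟩ : ∃ n : ℤ, max (max T' (τ T')) (c + 2) < n := by
    obtain ⟨n, hn⟩ := exists_int_gt (max (max T' (τ T')) (c + 2) : ℝ)
    exact ⟨n, hn⟩
  have hn1 : T' < n := lt_of_le_of_lt ((le_max_left _ _).trans (le_max_left _ _)) hn
  have hn2 : τ T' < n := lt_of_le_of_lt ((le_max_right _ _).trans (le_max_left _ _)) hn
  have hn3 : (c : ℝ) + 2 < n := lt_of_le_of_lt (le_max_right _ _) hn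
  have hT1 : 1 ≤ T' := le_max_right T 1
  have hn0' : (0 : ℝ) < n := by linarith
  have hn0 : 0 ≤ n := by
    have : (0 : ℤ) < n := by exact_mod_cast hn0'
    exact this.le
  rcases lt_or_ge c 0 with hc | hc
  · have h1 := (hcon' n hn1.le).2
    have h2 := zeta_ge_sq n hn0 (hlt n).le
    rw [zeta_int n hn0] at h1
    have hc' : (c : ℝ) + 1 ≤ 0 := by
      have : c + 1 ≤ 0 := by omega
      exact_mod_cast this
    linarith
  · have hc' : (0 : ℝ) ≤ c := by exact_mod_cast hc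
    obtain ⟨t1, t2, h1, h2, h3, h4⟩ := exists_crossing hτ hinf (T := T') (a := n + 1 / 2)
      (b := n + 1) (by linarith) (by linarith)
    have h5 : t1 < n + 1 / 2 := by rw [← h3]; exact hlt t1
    have h6 : t2 < n + 1 := by rw [← h4]; exact hlt t2
    have h7 := (hcon' t1 h1.le).2
    rw [h3, zeta_half n hn0] at h7
    have h8 := (hcon' t2 (h1.trans h2).le).1
    have h9 : zeta (n + 1) = ((n : ℝ) + 1) ^ 2 := by
      have := zeta_int (n + 1) (by omega)
      push_cast at this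
      exact this
    rw [h4, h9] at h8
    have h10 : (n : ℝ) ≤ t1 := by
      by_contra hlt1
      push Not at hlt1
      have := zeta_le_sq n (by linarith : (0 : ℝ) ≤ t1) hlt1.le
      nlinarith
    rcases le_total t2 (n + 1 / 2) with h11 | h11
    · have := zeta_mono n hn0 h10 h2.le h11
      linarith
    · have := zeta_ge' n hn0 h11 h6.le
      linarith

theorem noAhead_al1 : NoAhead al1 := noAhead_of_eq (k := 1) fun _ ht => al1_eq (by linarith)

theorem noAhead_al2 : NoAhead al2 := noAhead_of_eq (k := 2) fun _ ht => al2_eq ht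

theorem noFold_al1_alh : NoFold al1 alh := by
  intro τ hτ hinf T c hcon
  set T' := max T 0 with hT'
  obtain ⟨n, hn⟩ := exists_nat_gt (τ T')
  obtain ⟨t1, t2, h1, h2, h3, h4⟩ := exists_crossing hτ hinf (T := T') (a := n + 3 / 2)
    (b := n + 2) (by linarith) (by linarith)
  have h5 := (hcon t1 ((le_max_left _ _).trans h1.le)).2
  have h6 := (hcon t2 ((le_max_left _ _).trans (h1.trans h2).le)).1
  have h0 : 0 ≤ t1 := (le_max_right T 0).trans h1.le
  rw [h3, al1_eq h0] at h5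
  rw [h4, al1_eq (h0.trans h2.le)] at h6
  have h7 := zeta_drop h0 h2.le
  have hn0 : (0 : ℝ) ≤ n := Nat.cast_nonneg n
  have e1 : alh (n + 3 / 2) = n + 1 / 2 + 6 := by
    unfold alh eta
    rw [max_eq_left (by linarith)]
    have : Real.cos (2 * π * ((n : ℝ) + 3 / 2 - 1)) = -1 := by
      have e : 2 * π * ((n : ℝ) + 3 / 2 - 1) = π + n * (2 * π) := by ring
      rw [e, Real.cos_add_nat_mul_two_pi, Real.cos_pi]
    rw [this]
    ring
  have e2 : alh (n + 2) = n + 1 := by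
    unfold alh eta
    rw [max_eq_left (by linarith)]
    have : Real.cos (2 * π * ((n : ℝ) + 2 - 1)) = 1 := by
      have e : 2 * π * ((n : ℝ) + 2 - 1) = 0 + (n + 1 : ℕ) * (2 * π) := by push_cast; ring
      rw [e, Real.cos_add_nat_mul_two_pi, Real.cos_zero]
    rw [this]
    ring
  rw [e1] at h5
  rw [e2] at h6
  linarith

end Pool.Agent.Lib.MP_a9a15f_gt
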