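import Pool.Agent.Lib.MP_a9a15f_gt.Polar

/-! # Cluster sets of the curves -/

set_option autoImplicit false

open Set Topology Filter
open scoped Real

namespace Pool.Agent.Lib.MP_a9a15f_gt

noncomputable section

section general

variable {E : Type*} [MetricSpace E]

lemma mem_of_clusterPt_infDist {F : Set E} (hF : IsClosed F) (hne : F.Nonempty) {l : Filter ℝ}
    {P : ℝ → E} (h : Tendsto (fun t => Metric.infDist (P t) F) l (𝓝 0)) {x : E}
    (hx : MapClusterPt x l P) : x ∈ F := by
  rw [hF.mem_iff_infDist_zero hne]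
  by_contra hne0
  have hpos : 0 < Metric.infDist x F := lt_of_le_of_ne Metric.infDist_nonneg (Ne.symm hne0)
  have h1 : ∀ᶠ y in 𝓝 x, Metric.infDist x F / 2 < Metric.infDist y F :=
    (Metric.continuous_infDist_pt F).continuousAt.eventually (lt_mem_nhds (by linarith))
  have h2 := hx.frequently h1
  have h3 : ∀ᶠ t in l, Metric.infDist (P t) F < Metric.infDist x F / 2 :=
    h.eventually (gt_mem_nhds (by linarith))
  obtain ⟨t, ht1, ht2⟩ := (h2.and_eventually h3).exists
  linarith

lemma tendsto_infDist_of_dist {F : Set E} {l : Filter ℝ} {P : ℝ → E} {b : ℝ → ℝ}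
    (hb : Tendsto b l (𝓝 0)) (h : ∀ᶠ t in l, ∃ m ∈ F, dist (P t) m ≤ b t) :
    Tendsto (fun t => Metric.infDist (P t) F) l (𝓝 0) := by
  refine tendsto_of_tendsto_of_tendsto_of_le_of_le' tendsto_const_nhds hb ?_ ?_
  · exact Eventually.of_forall fun t => Metric.infDist_nonneg
  · filter_upwards [h] with t ht
    obtain ⟨m, hm, hd⟩ := ht
    exact (Metric.infDist_le_dist_of_mem hm).trans hd

lemma isClosed_union_tail {F : Set E} (hF : IsClosed F) (hne : F.Nonempty) {P : ℝ → E}
    (hP : Continuous P) (h : Tendsto (fun t => Metric.infDist (P t) F) atTop (𝓝 0)) (a : ℝ) :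
    IsClosed (F ∪ P '' Ici a) := by
  rw [← isOpen_compl_iff, Metric.isOpen_iff]
  intro x hx
  rw [mem_compl_iff, mem_union, not_or] at hx
  obtain ⟨hxF, hxP⟩ := hx
  have hpos : 0 < Metric.infDist x F := by
    refine lt_of_le_of_ne Metric.infDist_nonneg (fun h0 => hxF ?_)
    rw [hF.mem_iff_infDist_zero hne]
    exact h0.symm
  obtain ⟨N, hN⟩ := eventually_atTop.1 (h.eventually (gt_mem_nhds (half_pos hpos)))
  have hcomp : IsCompact (P '' Icc a N) := isCompact_Icc.image hP
  have hx' : x ∉ P '' Icc a N := fun h' => hxP (image_mono Icc_subset_Ici_self h')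
  obtain ⟨ε, hε, hball⟩ := Metric.isOpen_iff.1 hcomp.isClosed.isOpen_compl x hx'
  refine ⟨min ε (Metric.infDist x F / 2), lt_min hε (half_pos hpos), fun y hy => ?_⟩
  rw [Metric.mem_ball] at hy
  have h1 : dist y x < ε := lt_of_lt_of_le hy (min_le_left _ _)
  have h2 : dist y x < Metric.infDist x F / 2 := lt_of_lt_of_le hy (min_le_right _ _)
  have h3 : Metric.infDist x F ≤ Metric.infDist y F + dist x y := Metric.infDist_le_infDist_add_dist
  rw [dist_comm] at h3
  rintro (hyF | ⟨t, ht, rfl⟩)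
  · have : Metric.infDist y F = 0 := Metric.infDist_zero_of_mem hyF
    linarith
  · rcases le_or_gt t N with h4 | h4
    · exact hball (Metric.mem_ball.2 h1) ⟨t, ⟨ht, h4⟩, rfl⟩
    · have := hN t h4.le
      linarith

lemma isClosed_union_line {F G : Set E} (hF : IsClosed F) (hne : F.Nonempty) (hG : IsClosed G)
    (hneG : G.Nonempty) {P : ℝ → E}
    (hP : Continuous P) (h : Tendsto (fun t => Metric.infDist (P t) F) atTop (𝓝 0))
    (h' : Tendsto (fun t => Metric.infDist (P t) G) atBot (𝓝 0)) :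
    IsClosed ((F ∪ G) ∪ range P) := by
  have h1 := isClosed_union_tail hF hne hP h 0
  have h2 := isClosed_union_tail (P := fun t => P (-t)) hG hneG (hP.comp continuous_neg)
    (h'.comp tendsto_neg_atTop_atBot) 0
  have h3 : (F ∪ G) ∪ range P = (F ∪ P '' Ici 0) ∪ (G ∪ (fun t => P (-t)) '' Ici 0) := by
    ext x
    simp only [mem_union, mem_range, mem_image, mem_Ici]
    constructor
    · rintro ((hx | hx) | ⟨t, rfl⟩)
      · exact Or.inl (Or.inl hx)
      · exact Or.inr (Or.inl hx)
      · rcases le_total 0 t with ht | ht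
        · exact Or.inl (Or.inr ⟨t, ht, rfl⟩)
        · exact Or.inr (Or.inr ⟨-t, by linarith, by rw [neg_neg]⟩)
    · rintro ((hx | ⟨t, -, rfl⟩) | (hx | ⟨t, -, rfl⟩))
      · exact Or.inl (Or.inl hx)
      · exact Or.inr ⟨t, rfl⟩
      · exact Or.inl (Or.inr hx)
      · exact Or.inr ⟨-t, rfl⟩
  rw [h3]
  exact h1.union h2

end general

/-! ### the points of `M` -/

lemma cexp_add_int (x : ℝ) (n : ℤ) : Complex.exp (π * (n + x : ℝ) * Complex.I) =
    if Even n then Complex.exp (π * x * Complex.I) else - Complex.exp (π * x * Complex.I) := by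
  split_ifs with h
  · obtain ⟨k, rfl⟩ := h
    rw [cexp_eq_iff]
    exact ⟨k, by push_cast; ring⟩
  · rw [Int.not_even_iff_odd] at h
    obtain ⟨k, rfl⟩ := h
    rw [← cexp_add_one, cexp_eq_iff]
    exact ⟨k, by push_cast; ring⟩

lemma mem_MM_of (n : ℤ) {t : ℝ} (ht : 0 ≤ t) :
    (rc t : ℂ) * Complex.exp (π * (n + ac t : ℝ) * Complex.I) ∈ MM := by
  rw [mem_MM_iff]
  refine ⟨t, ht, ?_⟩
  rw [cexp_add_int, Cc_eq]
  split_ifs
  · exact Or.inl rfl
  · exact Or.inr (by ring)

lemma norm_cexp_sub_le (x y : ℝ) : ‖Complex.exp (π * x * Complex.I) -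
    Complex.exp (π * y * Complex.I)‖ ≤ π * |x - y| := by
  have h1 : Complex.exp (π * x * Complex.I) = Complex.exp (π * y * Complex.I) *
      Complex.exp (Complex.I * ((π * (x - y) : ℝ) : ℂ)) := by
    rw [← Complex.exp_add]
    congr 1
    push_cast
    ring
  rw [h1, ← mul_sub_one, norm_mul, norm_cexp, one_mul]
  refine (Real.norm_exp_I_mul_ofReal_sub_one_le).trans ?_
  rw [Real.norm_eq_abs, abs_mul, abs_of_pos Real.pi_pos]

/-- `Phi x s` is close to `M` for large `s`. -/
lemma near_MM (x : ℝ) {s : ℝ} (hs : 0 < s) :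
    ∃ m ∈ MM, dist (Phi x s) m ≤ U s + 6 * π / (1 + s) := by
  have hU := (U_pos hs).le
  have hpi := Real.pi_pos
  set y := Int.fract x with hy
  set n := ⌊x⌋ with hn
  have hxy : x = n + y := (Int.floor_add_fract x).symm
  have hy0 : 0 ≤ y := Int.fract_nonneg x
  have hy1 : y < 1 := Int.fract_lt_one x
  have hbd : 0 ≤ 6 * π / (1 + s) := by positivity
  -- a point with the same direction
  have same : ∀ r : ℝ, rad x s = U s + r →
      dist (Phi x s) ((r : ℂ) * Complex.exp (π * x * Complex.I)) = U s := by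
    intro r hr
    unfold Phi
    rw [hr, dist_eq_norm, ← sub_mul, norm_mul, norm_cexp, mul_one]
    push_cast
    rw [add_sub_cancel_right, Complex.norm_real, Real.norm_eq_abs, abs_of_nonneg hU]
  rcases hy0.eq_or_lt with h0 | h0
  · refine ⟨((3:ℝ) : ℂ) * Complex.exp (π * x * Complex.I), ?_, ?_⟩
    · have h1 := mem_MM_of (n - 1) (t := 1 / 2) (by norm_num)
      have e1 : rc (1 / 2) = 3 := by
        unfold rc
        have : 2 * π * (1 / 2) = π := by ring
        rw [this, Real.cos_pi]
        norm_num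
      have e2 : (((n - 1 : ℤ) : ℝ) + ac (1 / 2)) = x := by
        rw [ac_eq_one (by norm_num) le_rfl, hxy, ← h0]
        push_cast
        ring
      rw [e1, e2] at h1
      exact h1
    · rw [same 3]
      · linarith
      · unfold rad
        rw [← hy, ← h0, hh_zero]
  · rcases le_or_gt (3 - y * (1 + s)) (2 + Real.cos (2 * π / y)) with h2 | h2
    · refine ⟨((2 + Real.cos (2 * π / y) : ℝ) : ℂ) * Complex.exp (π * x * Complex.I), ?_, ?_⟩
      · have h1 : 1 < 1 / y := by rw [lt_div_iff₀ h0]; linarith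
        have h3 := mem_MM_of n (t := 1 / y - 1 / 2) (by linarith)
        have e1 : rc (1 / y - 1 / 2) = 2 + Real.cos (2 * π / y) := by
          unfold rc
          have : 2 * π * (1 / y - 1 / 2) = 2 * π / y - π := by ring
          rw [this, Real.cos_sub_pi]
          ring
        have e2 : (n : ℝ) + ac (1 / y - 1 / 2) = x := by
          rw [ac_eq (by linarith), sub_add_cancel, one_div_one_div, ← hxy]
        rw [e1, e2] at h3
        exact h3
      · rw [same (2 + Real.cos (2 * π / y))]
        · linarith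
        · unfold rad hh
          rw [← hy, max_eq_left h2]
    · have hc := Real.neg_one_le_cos (2 * π / y)
      set r := 3 - y * (1 + s) with hr
      have hr1 : 1 ≤ r := by linarith
      have hr3 : r ≤ 3 := by
        have : 0 ≤ y * (1 + s) := by positivity
        linarith
      obtain ⟨t, ht, hrt⟩ := exists_rc hr1 hr3
      refine ⟨(r : ℂ) * Complex.exp (π * (n : ℝ) * Complex.I), ?_, ?_⟩
      · have h3 := mem_MM_of (n - 1) ht.1
        have e2 : (((n - 1 : ℤ) : ℝ) + ac t) = (n : ℝ) := by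
          rw [ac_eq_one ht.1 ht.2]
          push_cast
          ring
        rw [e2, hrt] at h3
        exact h3
      · have h4 : rad x s = U s + r := by
          unfold rad hh
          rw [← hy, max_eq_right h2.le]
        have h5 : dist ((r : ℂ) * Complex.exp (π * x * Complex.I))
            ((r : ℂ) * Complex.exp (π * (n : ℝ) * Complex.I)) ≤ 6 * π / (1 + s) := by
          rw [dist_eq_norm, ← mul_sub, norm_mul, Complex.norm_real, Real.norm_eq_abs,
            abs_of_nonneg (by linarith)]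
          have h6 := norm_cexp_sub_le x n
          have h7 : |x - n| = y := by
            rw [hxy, add_sub_cancel_left, abs_of_pos h0]
          rw [h7] at h6
          have h8 : y ≤ 2 / (1 + s) := by
            rw [le_div_iff₀ (by linarith)]
            linarith
          calc r * ‖Complex.exp (π * x * Complex.I) - Complex.exp (π * (n : ℝ) * Complex.I)‖
              ≤ 3 * (π * y) := by gcongr
            _ ≤ 3 * (π * (2 / (1 + s))) := by gcongr
            _ = 6 * π / (1 + s) := by ring
        calc dist (Phi x s) ((r : ℂ) * Complex.exp (π * (n : ℝ) * Complex.I))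
            ≤ dist (Phi x s) ((r : ℂ) * Complex.exp (π * x * Complex.I)) +
              dist ((r : ℂ) * Complex.exp (π * x * Complex.I))
                ((r : ℂ) * Complex.exp (π * (n : ℝ) * Complex.I)) := dist_triangle _ _ _
          _ ≤ U s + 6 * π / (1 + s) := by
            rw [same r h4]
            linarith

/-! ### cluster sets of the rays of `M` -/

lemma PP_c1_of_nonneg {t : ℝ} (ht : 0 ≤ t) : PP .c1 t = Cc t := by
  simp only [PP, max_eq_left ht]

lemma PP_c2_of_nonneg {t : ℝ} (ht : 0 ≤ t) : PP .c2 t = - Cc t := by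
  simp only [PP, max_eq_left ht]

lemma PP_c2_eq_neg (t : ℝ) : PP .c2 t = - PP .c1 t := rfl

lemma continuous_PP_c1 : Continuous (PP .c1) := continuous_Cc_max

lemma continuous_PP_c2 : Continuous (PP .c2) := continuous_Cc_max.neg

/-- the bar of the second ray, as a segment of the real line -/
lemma mem_bar_c2_iff (z : ℂ) : z ∈ PP .c2 '' Icc 0 (1 / 2) ↔ ∃ r : ℝ, 1 ≤ r ∧ r ≤ 3 ∧ z = r := by
  constructor
  · rintro ⟨t, ht, rfl⟩
    refine ⟨rc t, one_le_rc t, rc_le t, ?_⟩
    rw [PP_c2_of_nonneg ht.1, neg_Cc_eq, ac_eq_one ht.1 ht.2]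
    have : Complex.exp (π * ((1:ℝ) + 1 : ℝ) * Complex.I) = Complex.exp (π * (0:ℝ) * Complex.I) :=
      (cexp_eq_iff _ _).2 ⟨1, by norm_num⟩
    rw [this]
    simp
  · rintro ⟨r, h1, h3, rfl⟩
    obtain ⟨t, ht, rfl⟩ := exists_rc h1 h3
    refine ⟨t, ht, ?_⟩
    rw [PP_c2_of_nonneg ht.1, neg_Cc_eq, ac_eq_one ht.1 ht.2]
    have : Complex.exp (π * ((1:ℝ) + 1 : ℝ) * Complex.I) = Complex.exp (π * (0:ℝ) * Complex.I) :=
      (cexp_eq_iff _ _).2 ⟨1, by norm_num⟩
    rw [this]
    simp

lemma tendsto_ac : Tendsto ac atTop (𝓝 0) := by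
  have h1 : Tendsto (fun t : ℝ => 1 / (t + 1 / 2)) atTop (𝓝 0) := by
    have : Tendsto (fun t : ℝ => t + 1 / 2) atTop atTop := tendsto_atTop_add_const_right _ _ tendsto_id
    simpa [Function.comp_def] using tendsto_inv_atTop_zero.comp this
  refine h1.congr' ?_
  filter_upwards [eventually_ge_atTop (1 / 2 : ℝ)] with t ht
  exact (ac_eq ht).symm

lemma rc_add_nat (t : ℝ) (n : ℕ) : rc (t + n) = rc t := by
  unfold rc
  have : 2 * π * (t + n) = 2 * π * t + n * (2 * π) := by ring
  rw [this, Real.cos_add_nat_mul_two_pi]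

lemma clT_c1 (x : ℂ) : MapClusterPt x atTop (PP .c1) ↔ x ∈ PP .c2 '' Icc 0 (1 / 2) := by
  have hcomp : IsCompact (PP .c2 '' Icc 0 (1 / 2)) := isCompact_Icc.image continuous_PP_c2
  constructor
  · intro h
    refine mem_of_clusterPt_infDist hcomp.isClosed ⟨_, 0, ⟨le_rfl, by norm_num⟩, rfl⟩ ?_ h
    refine tendsto_infDist_of_dist (b := fun t => 3 * (π * ac t)) ?_ ?_
    · have := (tendsto_ac.const_mul π).const_mul 3
      simpa using this
    · filter_upwards [eventually_ge_atTop (0:ℝ)] with t ht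
      refine ⟨(rc t : ℂ), (mem_bar_c2_iff _).2 ⟨rc t, one_le_rc t, rc_le t, rfl⟩, ?_⟩
      rw [PP_c1_of_nonneg ht, Cc_eq, dist_eq_norm]
      have e : (rc t : ℂ) * Complex.exp (π * ac t * Complex.I) - (rc t : ℂ) =
          (rc t : ℂ) * (Complex.exp (π * ac t * Complex.I) -
            Complex.exp (π * (0:ℝ) * Complex.I)) := by
        simp
        ring
      rw [e, norm_mul, Complex.norm_real, Real.norm_eq_abs, abs_of_nonneg (by linarith [one_le_rc t])]
      have h6 := norm_cexp_sub_le (ac t) 0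
      rw [sub_zero, abs_of_pos (ac_pos ht)] at h6
      have := rc_le t
      have := one_le_rc t
      gcongr
  · rw [mem_bar_c2_iff]
    rintro ⟨r, h1, h3, rfl⟩
    obtain ⟨t, ht, rfl⟩ := exists_rc h1 h3
    have hφ : Tendsto (fun n : ℕ => t + n) atTop atTop :=
      tendsto_atTop_add_const_left _ _ tendsto_natCast_atTop_atTop
    refine MapClusterPt.of_comp hφ (Tendsto.mapClusterPt ?_)
    have h4 : ∀ n : ℕ, (PP .c1 ∘ fun n : ℕ => t + n) n =
        (rc t : ℂ) * Complex.exp (π * ac (t + n) * Complex.I) := by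
      intro n
      have : 0 ≤ t + n := add_nonneg ht.1 (Nat.cast_nonneg n)
      simp only [Function.comp_apply]
      rw [PP_c1_of_nonneg this, Cc_eq, rc_add_nat]
    have h5 : Tendsto (fun n : ℕ => (rc t : ℂ) * Complex.exp (π * ac (t + n) * Complex.I)) atTop
        (𝓝 ((rc t : ℂ) * Complex.exp (π * (0:ℝ) * Complex.I))) :=
      ((continuous_cexp.tendsto 0).comp (tendsto_ac.comp hφ)).const_mul _
    refine (h5.congr fun n => (h4 n).symm).trans_eq ?_ 
    simp

lemma mapClusterPt_neg {E : Type*} [AddGroup E] [TopologicalSpace E] [ContinuousNeg E]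
    {l : Filter ℝ} {P : ℝ → E} {x : E} :
    MapClusterPt x l (fun t => - P t) ↔ MapClusterPt (-x) l P := by
  constructor
  · intro h
    have := h.continuousAt_comp (f := fun y : E => -y) continuous_neg.continuousAt
    have e : (fun y : E => -y) ∘ (fun t => - P t) = P := by
      funext t
      simp
    rwa [e] at this
  · intro h
    have := h.continuousAt_comp (f := fun y : E => -y) continuous_neg.continuousAt
    rw [neg_neg] at this
    exact this

lemma clT_c2 (x : ℂ) : MapClusterPt x atTop (PP .c2) ↔ x ∈ PP .c1 '' Icc 0 (1 / 2) := by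
  have h1 : PP .c2 = fun t => - PP .c1 t := rfl
  rw [h1, mapClusterPt_neg, clT_c1]
  constructor
  · rintro ⟨t, ht, h⟩
    exact ⟨t, ht, by rw [PP_c2_eq_neg, neg_inj] at h; exact h⟩
  · rintro ⟨t, ht, rfl⟩
    exact ⟨t, ht, rfl⟩

end

end Pool.Agent.Lib.MP_a9a15f_gt
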