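import Pool.Agent.Lib.MP_a9a15f_gt.Spiral
import Pool.Agent.Lib.MP_a9a15f_gt.Angles

/-! # The concrete continuum is a model -/

set_option autoImplicit false

open Set Topology Filter
open scoped Real

namespace Pool.Agent.Lib.MP_a9a15f_gt

noncomputable section

/-! ### the coordinates -/

lemma zeta_nonneg {t : ℝ} (ht : 0 ≤ t) : 0 ≤ zeta t := by
  have := zeta_ge_sq 0 le_rfl (s := t) (by simpa using ht)
  simpa using this

private lemma al1_pos (t : ℝ) : 0 < al1 t := by
  unfold al1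
  have h1 : 0 < 1 - min t 0 := by linarith [min_le_right t 0]
  have h2 := zeta_nonneg (le_max_right t 0)
  positivity

private lemma al1_of_nonpos {t : ℝ} (ht : t ≤ 0) : al1 t = 1 / (1 - t) := by
  unfold al1
  rw [min_eq_left ht, max_eq_right ht]
  have : zeta 0 = 0 := by
    have := zeta_int 0 le_rfl
    simpa using this
  rw [this, add_zero]

private lemma al2_of_nonpos {t : ℝ} (ht : t ≤ 0) : al2 t = 1 / (1 - t) := by
  unfold al2
  rw [al1_of_nonpos ht, max_eq_right ((min_le_left t 1).trans ht), add_zero]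

lemma al1_le_al2 (t : ℝ) : al1 t ≤ al2 t := by
  unfold al2
  linarith [le_max_right (min t 1) 0]

private lemma al2_pos (t : ℝ) : 0 < al2 t := (al1_pos t).trans_le (al1_le_al2 t)

lemma eta_nonneg {t : ℝ} (ht : 0 ≤ t) : 0 ≤ eta t := by
  unfold eta
  have := Real.cos_le_one (2 * π * t)
  linarith

lemma alh_nonneg (t : ℝ) : 0 ≤ alh t := eta_nonneg (le_max_right _ _)

lemma alh_of_le {t : ℝ} (ht : t ≤ 1) : alh t = 0 := by
  unfold alh
  rw [max_eq_right (by linarith)]
  unfold eta
  simp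

lemma ph_lt (t : ℝ) : ph t < 3 / 2 := by
  unfold ph
  have : 0 ≤ max t 0 := le_max_right _ _
  have : 0 < 1 / (1 + max t 0) := by positivity
  linarith

private lemma ph_ge (t : ℝ) : 1 / 2 ≤ ph t := by
  unfold ph
  have h0 : 0 ≤ max t 0 := le_max_right _ _
  have : 1 / (1 + max t 0) ≤ 1 := by
    rw [div_le_one (by linarith)]
    linarith
  linarith

lemma ph_of_nonneg {t : ℝ} (ht : 0 ≤ t) : ph t = 3 / 2 - 1 / (1 + t) := by
  unfold ph
  rw [max_eq_left ht]

lemma ph_strictMono {s t : ℝ} (hs : 0 ≤ s) (hst : s < t) : ph s < ph t := by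
  rw [ph_of_nonneg hs, ph_of_nonneg (by linarith)]
  have := one_div_lt_one_div_of_lt (by linarith : (0:ℝ) < 1 + s) (by linarith : 1 + s < 1 + t)
  linarith

lemma ph_inj {s t : ℝ} (hs : 0 ≤ s) (ht : 0 ≤ t) (h : ph s = ph t) : s = t := by
  rcases lt_trichotomy s t with h1 | h1 | h1
  · exact absurd h (ph_strictMono hs h1).ne
  · exact h1
  · exact absurd h (ph_strictMono ht h1).ne'

lemma ph_one : ph 1 = 1 := by
  rw [ph_of_nonneg zero_le_one]
  norm_num

lemma ph_zero : ph 0 = 1 / 2 := by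
  rw [ph_of_nonneg le_rfl]
  norm_num

lemma continuous_ph : Continuous ph := by
  unfold ph
  refine continuous_const.sub (continuous_const.div (by fun_prop) fun t => ?_)
  have : 0 ≤ max t 0 := le_max_right _ _
  positivity

lemma continuous_pl (c : ℝ) : Continuous (pl c) := by
  unfold pl
  refine (Continuous.add (by fun_prop) ?_)
  refine (continuous_const.sub (continuous_const.div (by fun_prop) fun t => ?_)).div_const _
  have : 0 ≤ max t 0 := le_max_right _ _
  positivity

lemma pl_of_nonpos (c : ℝ) {t : ℝ} (ht : t ≤ 0) : pl c t = c + Real.cos t / 20 := by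
  unfold pl
  rw [min_eq_left ht, max_eq_right ht]
  norm_num

lemma pl_of_nonneg (c : ℝ) {t : ℝ} (ht : 0 ≤ t) :
    pl c t = c + 1 / 20 + (1 - 1 / (1 + t)) / 20 := by
  unfold pl
  rw [min_eq_right ht, max_eq_left ht, Real.cos_zero]

private lemma pl_ge (c t : ℝ) : c - 1 / 20 ≤ pl c t := by
  rcases le_total t 0 with h | h
  · rw [pl_of_nonpos c h]
    linarith [Real.neg_one_le_cos t]
  · rw [pl_of_nonneg c h]
    have : 1 / (1 + t) ≤ 1 := by
      rw [div_le_one (by linarith)]
      linarith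
    linarith

lemma pl_lt (c t : ℝ) : pl c t < c + 1 / 10 := by
  rcases le_total t 0 with h | h
  · rw [pl_of_nonpos c h]
    linarith [Real.cos_le_one t]
  · rw [pl_of_nonneg c h]
    have : 0 < 1 / (1 + t) := by positivity
    linarith

/-- a line is determined by its coordinates -/
lemma line_inj (c : ℝ) {s t : ℝ} (h1 : s ≤ 0 → t ≤ 0 → 1 / (1 - s) = 1 / (1 - t))
    (h2 : pl c s = pl c t) : s = t := by
  rcases le_or_gt s 0 with hs | hs
  · rcases le_or_gt t 0 with ht | ht
    · have := one_div_eq_one_div_iff_aux _ _ (h1 hs ht)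
      linarith
    · exfalso
      rw [pl_of_nonpos c hs, pl_of_nonneg c ht.le] at h2
      have h3 := Real.cos_le_one s
      have h4 : 1 / (1 + t) < 1 := by
        rw [div_lt_one (by linarith)]
        linarith
      linarith
  · rcases le_or_gt t 0 with ht | ht
    · exfalso
      rw [pl_of_nonpos c ht, pl_of_nonneg c hs.le] at h2
      have h3 := Real.cos_le_one t
      have h4 : 1 / (1 + s) < 1 := by
        rw [div_lt_one (by linarith)]
        linarith
      linarith
    · rw [pl_of_nonneg c hs.le, pl_of_nonneg c ht.le] at h2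
      have h3 : 1 / (1 + s) = 1 / (1 + t) := by linarith
      have := one_div_eq_one_div_iff_aux _ _ h3
      linarith

/-- coordinates are recovered from the point -/
lemma coord_unique {α p β q : ℝ} (hα : 0 ≤ α) (hβ : 0 ≤ β) (hp : 1 / 2 ≤ p) (hp' : p < 3 / 2)
    (hq : 1 / 2 ≤ q) (hq' : q < 3 / 2) (h : Phi α (α + p) = Phi β (β + q)) : α = β ∧ p = q := by
  obtain ⟨h1, n, hn⟩ := Phi_inj (by linarith) (by linarith) h
  have h2 : q - p = 2 * n := by linarith
  have h3 : (-1 : ℝ) < 2 * n := by linarith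
  have h4 : (2 * n : ℝ) < 1 := by linarith
  have h5 : (-1 : ℤ) < 2 * n := by exact_mod_cast h3
  have h6 : 2 * n < (1 : ℤ) := by exact_mod_cast h4
  have h7 : n = 0 := by omega
  rw [h7] at hn h2
  push_cast at hn h2
  constructor <;> linarith

lemma h_pos (t : ℝ) : 0 < alh t + ph t := by linarith [alh_nonneg t, ph_ge t]
lemma l1_pos (t : ℝ) : 0 < al1 t + pl (17 / 20) t := by
  linarith [al1_pos t, pl_ge (17 / 20) t]
lemma l2_pos (t : ℝ) : 0 < al2 t + pl (3 / 5) t := by
  linarith [al2_pos t, pl_ge (3 / 5) t]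

lemma continuous_PP (i : Comp) : Continuous (PP i) := by
  cases i
  · exact continuous_PP_c1
  · exact continuous_PP_c2
  · exact continuous_Phi_comp continuous_alh (continuous_alh.add continuous_ph) h_pos
  · exact continuous_Phi_comp continuous_al1 (continuous_al1.add (continuous_pl _)) l1_pos
  · exact continuous_Phi_comp continuous_al2 (continuous_al2.add (continuous_pl _)) l2_pos

lemma PP_h_notMem (t : ℝ) : PP .h t ∉ MM := Phi_notMem_MM (h_pos t)
lemma PP_l1_notMem (t : ℝ) : PP .l1 t ∉ MM := Phi_notMem_MM (l1_pos t)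
lemma PP_l2_notMem (t : ℝ) : PP .l2 t ∉ MM := Phi_notMem_MM (l2_pos t)

lemma PP_c1_mem {t : ℝ} (ht : 0 ≤ t) : PP .c1 t ∈ MM := Or.inl ⟨t, ht, rfl⟩
lemma PP_c2_mem {t : ℝ} (ht : 0 ≤ t) : PP .c2 t ∈ MM := Or.inr ⟨t, ht, rfl⟩

lemma h_ne_l1 (s t : ℝ) : PP .h s ≠ PP .l1 t := by
  intro h
  obtain ⟨h1, h2⟩ := coord_unique (alh_nonneg s) (al1_pos t).le (ph_ge s) (ph_lt s)
    (by linarith [pl_ge (17 / 20) t]) (by linarith [pl_lt (17 / 20) t]) h
  have h3 : s < 1 := by
    by_contra hcon
    push Not at hcon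
    have h4 : 1 ≤ ph s := by
      rcases hcon.eq_or_lt with h5 | h5
      · rw [← h5, ph_one]
      · have := ph_strictMono zero_le_one h5
        rw [ph_one] at this
        exact this.le
    linarith [pl_lt (17 / 20) t]
  rw [alh_of_le h3.le] at h1
  exact (al1_pos t).ne h1

lemma h_ne_l2 (s t : ℝ) : PP .h s ≠ PP .l2 t := by
  intro h
  obtain ⟨h1, h2⟩ := coord_unique (alh_nonneg s) (al2_pos t).le (ph_ge s) (ph_lt s)
    (by linarith [pl_ge (3 / 5) t]) (by linarith [pl_lt (3 / 5) t]) h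
  have h3 : s < 1 := by
    by_contra hcon
    push Not at hcon
    have h4 : 1 ≤ ph s := by
      rcases hcon.eq_or_lt with h5 | h5
      · rw [← h5, ph_one]
      · have := ph_strictMono zero_le_one h5
        rw [ph_one] at this
        exact this.le
    linarith [pl_lt (3 / 5) t]
  rw [alh_of_le h3.le] at h1
  exact (al2_pos t).ne h1

lemma l1_ne_l2 (s t : ℝ) : PP .l1 s ≠ PP .l2 t := by
  intro h
  obtain ⟨h1, h2⟩ := coord_unique (al1_pos s).le (al2_pos t).le
    (by linarith [pl_ge (17 / 20) s]) (by linarith [pl_lt (17 / 20) s])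
    (by linarith [pl_ge (3 / 5) t]) (by linarith [pl_lt (3 / 5) t]) h
  linarith [pl_ge (17 / 20) s, pl_lt (3 / 5) t]

lemma PP_inj (i j : Comp) (s t : ℝ) (hs : s ∈ Jset i) (ht : t ∈ Jset j) (h : PP i s = PP j t) :
    i = j ∧ s = t := by
  cases i <;> cases j <;> simp only [Jset, mem_Ici, mem_univ] at hs ht
  · refine ⟨rfl, Cc_inj hs ht ?_⟩
    rwa [PP_c1_of_nonneg hs, PP_c1_of_nonneg ht] at h
  · rw [PP_c1_of_nonneg hs, PP_c2_of_nonneg ht] at h
    exact absurd h (Cc_ne_neg hs ht)
  · exact absurd (h ▸ PP_c1_mem hs) (PP_h_notMem t)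
  · exact absurd (h ▸ PP_c1_mem hs) (PP_l1_notMem t)
  · exact absurd (h ▸ PP_c1_mem hs) (PP_l2_notMem t)
  · rw [PP_c2_of_nonneg hs, PP_c1_of_nonneg ht] at h
    exact absurd h.symm (Cc_ne_neg ht hs)
  · refine ⟨rfl, Cc_inj hs ht ?_⟩
    rw [PP_c2_of_nonneg hs, PP_c2_of_nonneg ht] at h
    exact neg_injective h
  · exact absurd (h ▸ PP_c2_mem hs) (PP_h_notMem t)
  · exact absurd (h ▸ PP_c2_mem hs) (PP_l1_notMem t)
  · exact absurd (h ▸ PP_c2_mem hs) (PP_l2_notMem t)
  · exact absurd (h.symm ▸ PP_c1_mem ht) (PP_h_notMem s)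
  · exact absurd (h.symm ▸ PP_c2_mem ht) (PP_h_notMem s)
  · refine ⟨rfl, ?_⟩
    obtain ⟨-, h2⟩ := coord_unique (alh_nonneg s) (alh_nonneg t) (ph_ge s) (ph_lt s)
      (ph_ge t) (ph_lt t) h
    exact ph_inj hs ht h2
  · exact absurd h (h_ne_l1 s t)
  · exact absurd h (h_ne_l2 s t)
  · exact absurd (h.symm ▸ PP_c1_mem ht) (PP_l1_notMem s)
  · exact absurd (h.symm ▸ PP_c2_mem ht) (PP_l1_notMem s)
  · exact absurd h.symm (h_ne_l1 t s)
  · refine ⟨rfl, ?_⟩
    obtain ⟨h1, h2⟩ := coord_unique (al1_pos s).le (al1_pos t).le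
      (by linarith [pl_ge (17 / 20) s]) (by linarith [pl_lt (17 / 20) s])
      (by linarith [pl_ge (17 / 20) t]) (by linarith [pl_lt (17 / 20) t]) h
    refine line_inj _ (fun h3 h4 => ?_) h2
    rwa [al1_of_nonpos h3, al1_of_nonpos h4] at h1
  · exact absurd h (l1_ne_l2 s t)
  · exact absurd (h.symm ▸ PP_c1_mem ht) (PP_l2_notMem s)
  · exact absurd (h.symm ▸ PP_c2_mem ht) (PP_l2_notMem s)
  · exact absurd h.symm (h_ne_l2 t s)
  · exact absurd h.symm (l1_ne_l2 t s)
  · refine ⟨rfl, ?_⟩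
    obtain ⟨h1, h2⟩ := coord_unique (al2_pos s).le (al2_pos t).le
      (by linarith [pl_ge (3 / 5) s]) (by linarith [pl_lt (3 / 5) s])
      (by linarith [pl_ge (3 / 5) t]) (by linarith [pl_lt (3 / 5) t]) h
    refine line_inj _ (fun h3 h4 => ?_) h2
    rwa [al2_of_nonpos h3, al2_of_nonpos h4] at h1

/-! ### cluster sets -/

lemma clT_h' (x : ℂ) : MapClusterPt x atTop (PP .h) ↔ x ∈ MM := by
  refine clT_spiral continuous_alh tendsto_alh (s := fun t => alh t + ph t) ?_
    (Eventually.of_forall fun t => rfl) x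
  exact tendsto_atTop_mono (fun t => by linarith [ph_ge t]) tendsto_alh

lemma clT_l1' (x : ℂ) : MapClusterPt x atTop (PP .l1) ↔ x ∈ MM := by
  refine clT_spiral continuous_al1 tendsto_al1 (s := fun t => al1 t + pl (17 / 20) t) ?_
    (Eventually.of_forall fun t => rfl) x
  exact tendsto_atTop_mono (fun t => by linarith [pl_ge (17 / 20) t]) tendsto_al1

lemma clT_l2' (x : ℂ) : MapClusterPt x atTop (PP .l2) ↔ x ∈ MM := by
  refine clT_spiral continuous_al2 tendsto_al2 (s := fun t => al2 t + pl (3 / 5) t) ?_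
    (Eventually.of_forall fun t => rfl) x
  exact tendsto_atTop_mono (fun t => by linarith [pl_ge (3 / 5) t]) tendsto_al2

/-- the initial arc of `H` -/
lemma PP_h_arc {t : ℝ} (h0 : 0 ≤ t) (h1 : t ≤ 1) : PP .h t = ((6 - ph t : ℝ) : ℂ) := by
  have hp : ph t ≤ 1 := by
    rcases h1.eq_or_lt with h | h
    · rw [h, ph_one]
    · have := ph_strictMono h0 h
      rw [ph_one] at this
      exact this.le
  have e : PP .h t = Phi (alh t) (alh t + ph t) := rfl
  rw [e, alh_of_le h1, zero_add]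
  unfold Phi
  rw [rad_zero, U_eq (ph_ge t) (by linarith)]
  simp
  ring

/-- bars as segments -/
lemma mem_bar_h_iff {a b : ℝ} (ha : 0 ≤ a) (hab : a ≤ b) (hb : b ≤ 1) (z : ℂ) :
    z ∈ PP .h '' Icc a b ↔ ∃ p : ℝ, ph a ≤ p ∧ p ≤ ph b ∧ z = ((6 - p : ℝ) : ℂ) := by
  constructor
  · rintro ⟨t, ht, rfl⟩
    refine ⟨ph t, ?_, ?_, PP_h_arc (ha.trans ht.1) (ht.2.trans hb)⟩
    · rcases ht.1.eq_or_lt with h | h
      · rw [h]
      · exact (ph_strictMono ha h).le
    · rcases ht.2.eq_or_lt with h | h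
      · rw [h]
      · exact (ph_strictMono (ha.trans ht.1) h).le
  · rintro ⟨p, h1, h2, rfl⟩
    obtain ⟨t, ht, rfl⟩ := intermediate_value_Icc hab continuous_ph.continuousOn ⟨h1, h2⟩
    exact ⟨t, ht, PP_h_arc (ha.trans ht.1) (ht.2.trans hb)⟩

/-- cluster set of the outer end of a line -/
lemma clB_line {c : ℝ} (hc : 3 / 5 ≤ c) (hc' : c ≤ 17 / 20) {α : ℝ → ℝ} {P : ℝ → ℂ}
    (hα : ∀ t ≤ 0, α t = 1 / (1 - t)) (hP : ∀ t, P t = Phi (α t) (α t + pl c t)) (x : ℂ) :
    MapClusterPt x atBot P ↔ ∃ p : ℝ, c - 1 / 20 ≤ p ∧ p ≤ c + 1 / 20 ∧ x = ((6 - p : ℝ) : ℂ) := by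
  have hα0 : Tendsto α atBot (𝓝 0) := by
    have h1 : Tendsto (fun t : ℝ => 1 / (1 - t)) atBot (𝓝 0) := by
      have : Tendsto (fun t : ℝ => 1 - t) atBot atTop := by
        have := tendsto_atTop_add_const_left atBot (1:ℝ) tendsto_neg_atBot_atTop
        exact this
      simpa [Function.comp_def] using tendsto_inv_atTop_zero.comp this
    refine h1.congr' ?_
    filter_upwards [eventually_le_atBot (0:ℝ)] with t ht
    exact (hα t ht).symm
  have hpos : ∀ t ≤ 0, 0 < α t := fun t ht => by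
    rw [hα t ht]
    have : 0 < 1 - t := by linarith
    positivity
  have hle : ∀ t ≤ 0, α t ≤ 1 := fun t ht => by
    rw [hα t ht, div_le_one (by linarith)]
    linarith
  -- the distance to the point of the bar
  have hdist : ∀ t ≤ 0, dist (P t) ((6 - pl c t : ℝ) : ℂ) ≤ 4 * α t + 6 * (π * α t) := by
    intro t ht
    have h1 := hpos t ht
    have h2 := hle t ht
    have h3 := pl_ge c t
    have h4 : pl c t ≤ c + 1 / 20 := by
      rw [pl_of_nonpos c ht]
      linarith [Real.cos_le_one t]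
    have hs : 0 < α t + pl c t := by linarith
    rw [hP t]
    have hr : |rad (α t) (α t + pl c t) - (6 - pl c t)| ≤ 4 * α t := by
      unfold rad
      have hU : U (α t + pl c t) = 3 - (α t + pl c t) := U_eq (by linarith) (by linarith)
      have h5 : hh (Int.fract (α t)) (α t + pl c t) ≤ 3 := hh_le (Int.fract_nonneg _) hs.le
      have h6 : 3 - 3 * α t ≤ hh (Int.fract (α t)) (α t + pl c t) := by
        rcases h2.eq_or_lt with h | h
        · rw [h, Int.fract_one, hh_zero]
          norm_num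
        · have h7 : Int.fract (α t) = α t := Int.fract_eq_self.2 ⟨h1.le, h⟩
          rw [h7]
          refine le_trans ?_ (le_hh _ _)
          have : α t * (1 + (α t + pl c t)) ≤ α t * 3 := by
            gcongr
            linarith
          linarith
      rw [hU, abs_le]
      constructor <;> linarith
    have hr0 : rad (α t) (α t + pl c t) ≤ 6 := by
      have h5 := (rad_le (x := α t) hs)
      have h6 := U_le (s := α t + pl c t) (by linarith)
      linarith
    have e1 : Phi (α t) (α t + pl c t) - ((6 - pl c t : ℝ) : ℂ) =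
        (rad (α t) (α t + pl c t) : ℂ) * (Complex.exp (π * α t * Complex.I) -
          Complex.exp (π * (0:ℝ) * Complex.I)) +
        ((rad (α t) (α t + pl c t) - (6 - pl c t) : ℝ) : ℂ) := by
      unfold Phi
      simp
      ring
    rw [dist_eq_norm, e1]
    refine (norm_add_le _ _).trans ?_
    rw [norm_mul, Complex.norm_real, Complex.norm_real, Real.norm_eq_abs, Real.norm_eq_abs,
      abs_of_pos (by linarith [rad_pos (x := α t) hs] : (0:ℝ) < rad (α t) (α t + pl c t))]
    have h6 := norm_cexp_sub_le (α t) 0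
    rw [sub_zero, abs_of_pos h1] at h6
    have h7 : rad (α t) (α t + pl c t) * ‖Complex.exp (π * α t * Complex.I) -
        Complex.exp (π * (0:ℝ) * Complex.I)‖ ≤ 6 * (π * α t) := by
      gcongr
    linarith
  have hb0 : Tendsto (fun t => 4 * α t + 6 * (π * α t)) atBot (𝓝 0) := by
    have := (hα0.const_mul 4).add ((hα0.const_mul π).const_mul 6)
    simpa using this
  set F : Set ℂ := {x | ∃ p : ℝ, c - 1 / 20 ≤ p ∧ p ≤ c + 1 / 20 ∧ x = ((6 - p : ℝ) : ℂ)} with hF
  have hFeq : F = (fun p : ℝ => ((6 - p : ℝ) : ℂ)) '' Icc (c - 1 / 20) (c + 1 / 20) := by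
    ext z
    constructor
    · rintro ⟨p, h1, h2, rfl⟩
      exact ⟨p, ⟨h1, h2⟩, rfl⟩
    · rintro ⟨p, ⟨h1, h2⟩, rfl⟩
      exact ⟨p, h1, h2, rfl⟩
  have hFc : IsCompact F := by
    rw [hFeq]
    exact isCompact_Icc.image (by fun_prop)
  constructor
  · intro h
    have hmem : x ∈ F := by
      refine mem_of_clusterPt_infDist hFc.isClosed ⟨((6 - c : ℝ) : ℂ), c, by linarith, by linarith,
        rfl⟩ ?_ h
      refine tendsto_infDist_of_dist hb0 ?_
      filter_upwards [eventually_le_atBot (0:ℝ)] with t ht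
      refine ⟨((6 - pl c t : ℝ) : ℂ), ⟨pl c t, pl_ge c t, ?_, rfl⟩, hdist t ht⟩
      rw [pl_of_nonpos c ht]
      linarith [Real.cos_le_one t]
    exact hmem
  · rintro ⟨p, h1, h2, rfl⟩
    -- choose the phase
    set θ := Real.arccos (20 * (p - c)) with hθ
    have hcos : Real.cos θ = 20 * (p - c) := Real.cos_arccos (by linarith) (by linarith)
    have hθ0 : 0 ≤ θ := Real.arccos_nonneg _
    have hφ : Tendsto (fun n : ℕ => -(θ + n * (2 * π))) atTop atBot := by
      refine tendsto_neg_atTop_atBot.comp (tendsto_atTop_add_const_left _ _ ?_)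
      exact Tendsto.atTop_mul_const (by positivity) tendsto_natCast_atTop_atTop
    refine MapClusterPt.of_comp hφ (Tendsto.mapClusterPt ?_)
    rw [tendsto_iff_dist_tendsto_zero]
    refine squeeze_zero (fun _ => dist_nonneg) (fun n => ?_) (hb0.comp hφ)
    have hn : -(θ + n * (2 * π)) ≤ 0 := by
      have : 0 ≤ (n : ℝ) * (2 * π) := by positivity
      linarith
    have h3 := hdist _ hn
    have h4 : pl c (-(θ + n * (2 * π))) = p := by
      rw [pl_of_nonpos c hn, Real.cos_neg, Real.cos_add_nat_mul_two_pi, hcos]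
      ring
    rw [h4] at h3
    exact h3

lemma ph_37 : ph (3 / 7) = 4 / 5 := by
  rw [ph_of_nonneg (by norm_num)]
  norm_num

lemma ph_23 : ph (2 / 3) = 9 / 10 := by
  rw [ph_of_nonneg (by norm_num)]
  norm_num

lemma ph_119 : ph (1 / 19) = 11 / 20 := by
  rw [ph_of_nonneg (by norm_num)]
  norm_num

lemma ph_317 : ph (3 / 17) = 13 / 20 := by
  rw [ph_of_nonneg (by norm_num)]
  norm_num

lemma clB_l1' (x : ℂ) : MapClusterPt x atBot (PP .l1) ↔ x ∈ PP .h '' Icc (3 / 7) (2 / 3) := by
  rw [mem_bar_h_iff (by norm_num) (by norm_num) (by norm_num), ph_37, ph_23,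
    clB_line (P := PP .l1) (c := 17 / 20) (by norm_num) le_rfl (fun t ht => al1_of_nonpos ht)
      (fun t => rfl)]
  norm_num

lemma clB_l2' (x : ℂ) : MapClusterPt x atBot (PP .l2) ↔ x ∈ PP .h '' Icc (1 / 19) (3 / 17) := by
  rw [mem_bar_h_iff (by norm_num) (by norm_num) (by norm_num), ph_119, ph_317,
    clB_line (P := PP .l2) (c := 3 / 5) le_rfl (by norm_num) (fun t ht => al2_of_nonpos ht)
      (fun t => rfl)]
  norm_num

/-! ### compactness -/

lemma norm_spiral_le {x s : ℝ} (hs : 1 / 2 ≤ s) : ‖Phi x s‖ ≤ 6 := by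
  rw [norm_Phi (by linarith)]
  linarith [rad_le (x := x) (by linarith : 0 < s), U_le hs]

lemma norm_PP_le (i : Comp) (t : ℝ) (ht : t ∈ Jset i) : ‖PP i t‖ ≤ 6 := by
  cases i
  · exact (norm_le_of_mem_MM (PP_c1_mem ht)).trans (by norm_num)
  · exact (norm_le_of_mem_MM (PP_c2_mem ht)).trans (by norm_num)
  · exact norm_spiral_le (by linarith [alh_nonneg t, ph_ge t])
  · exact norm_spiral_le (by linarith [al1_pos t, pl_ge (17 / 20) t])
  · exact norm_spiral_le (by linarith [al2_pos t, pl_ge (3 / 5) t])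

lemma tendsto_infDist_h : Tendsto (fun t => Metric.infDist (PP .h t) MM) atTop (𝓝 0) :=
  tendsto_infDist_cluster (isCompact_closedBall (0:ℂ) 6)
    ((eventually_ge_atTop (0:ℝ)).mono fun t ht => by
      rw [mem_closedBall_zero_iff]; exact norm_PP_le .h t ht) fun x hx => (clT_h' x).1 hx

lemma tendsto_infDist_l1 : Tendsto (fun t => Metric.infDist (PP .l1 t) MM) atTop (𝓝 0) :=
  tendsto_infDist_cluster (isCompact_closedBall (0:ℂ) 6)
    (Eventually.of_forall fun t => by
      rw [mem_closedBall_zero_iff]; exact norm_PP_le .l1 t trivial) fun x hx => (clT_l1' x).1 hx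

lemma tendsto_infDist_l2 : Tendsto (fun t => Metric.infDist (PP .l2 t) MM) atTop (𝓝 0) :=
  tendsto_infDist_cluster (isCompact_closedBall (0:ℂ) 6)
    (Eventually.of_forall fun t => by
      rw [mem_closedBall_zero_iff]; exact norm_PP_le .l2 t trivial) fun x hx => (clT_l2' x).1 hx

lemma tendsto_infDist_l1B :
    Tendsto (fun t => Metric.infDist (PP .l1 t) (PP .h '' Icc (3 / 7) (2 / 3))) atBot (𝓝 0) :=
  tendsto_infDist_cluster (isCompact_closedBall (0:ℂ) 6)
    (Eventually.of_forall fun t => by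
      rw [mem_closedBall_zero_iff]; exact norm_PP_le .l1 t trivial) fun x hx => (clB_l1' x).1 hx

lemma tendsto_infDist_l2B :
    Tendsto (fun t => Metric.infDist (PP .l2 t) (PP .h '' Icc (1 / 19) (3 / 17))) atBot (𝓝 0) :=
  tendsto_infDist_cluster (isCompact_closedBall (0:ℂ) 6)
    (Eventually.of_forall fun t => by
      rw [mem_closedBall_zero_iff]; exact norm_PP_le .l2 t trivial) fun x hx => (clB_l2' x).1 hx

lemma mem_KK_iff (z : ℂ) : z ∈ KK ↔ z ∈ MM ∨ z ∈ PP .h '' Ici 0 ∨ z ∈ range (PP .l1) ∨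
    z ∈ range (PP .l2) := by
  unfold KK MM
  rw [mem_iUnion]
  constructor
  · rintro ⟨i, hi⟩
    cases i
    · exact Or.inl (Or.inl hi)
    · exact Or.inl (Or.inr hi)
    · exact Or.inr (Or.inl hi)
    · refine Or.inr (Or.inr (Or.inl ?_))
      rw [← image_univ]
      exact hi
    · refine Or.inr (Or.inr (Or.inr ?_))
      rw [← image_univ]
      exact hi
  · rintro ((h | h) | h | h | h)
    · exact ⟨.c1, h⟩
    · exact ⟨.c2, h⟩
    · exact ⟨.h, h⟩
    · rw [← image_univ] at h
      exact ⟨.l1, h⟩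
    · rw [← image_univ] at h
      exact ⟨.l2, h⟩

lemma isClosed_KK : IsClosed KK := by
  have h1 := isClosed_union_tail isClosed_MM nonempty_MM (continuous_PP .h) tendsto_infDist_h 0
  have hb1 : IsClosed (PP .h '' Icc (3 / 7) (2 / 3)) :=
    (isCompact_Icc.image (continuous_PP .h)).isClosed
  have hb2 : IsClosed (PP .h '' Icc (1 / 19) (3 / 17)) :=
    (isCompact_Icc.image (continuous_PP .h)).isClosed
  have h2 := isClosed_union_line isClosed_MM nonempty_MM hb1 ⟨_, 3 / 7, ⟨le_rfl, by norm_num⟩, rfl⟩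
    (continuous_PP .l1) tendsto_infDist_l1 tendsto_infDist_l1B
  have h3 := isClosed_union_line isClosed_MM nonempty_MM hb2 ⟨_, 1 / 19, ⟨le_rfl, by norm_num⟩, rfl⟩
    (continuous_PP .l2) tendsto_infDist_l2 tendsto_infDist_l2B
  have h4 : KK = (MM ∪ PP .h '' Ici 0) ∪ (((MM ∪ PP .h '' Icc (3 / 7) (2 / 3)) ∪ range (PP .l1)) ∪
      ((MM ∪ PP .h '' Icc (1 / 19) (3 / 17)) ∪ range (PP .l2))) := by
    ext z
    rw [mem_KK_iff]
    have e1 : z ∈ PP .h '' Icc (3 / 7) (2 / 3) → z ∈ PP .h '' Ici 0 := fun h =>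
      image_mono (fun t ht => mem_Ici.2 (le_trans (by norm_num) ht.1)) h
    have e2 : z ∈ PP .h '' Icc (1 / 19) (3 / 17) → z ∈ PP .h '' Ici 0 := fun h =>
      image_mono (fun t ht => mem_Ici.2 (le_trans (by norm_num) ht.1)) h
    simp only [mem_union]
    tauto
  rw [h4]
  exact h1.union (h2.union h3)

lemma isCompact_KK : IsCompact KK := by
  refine Metric.isCompact_of_isClosed_isBounded isClosed_KK ?_
  refine (Metric.isBounded_closedBall (x := (0:ℂ)) (r := 6)).subset fun z hz => ?_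
  rw [mem_closedBall_zero_iff]
  obtain ⟨i, t, ht, rfl⟩ := mem_iUnion.1 hz
  exact norm_PP_le i t ht

/-! ### connectedness -/

lemma cluster_subset_closure {P : ℝ → ℂ} {S : Set ℝ} (hS : ∀ᶠ t in atTop, t ∈ S) {x : ℂ}
    (h : MapClusterPt x atTop P) : x ∈ closure (P '' S) :=
  isClosed_closure.mem_of_mapClusterPt h (hS.mono fun t ht => subset_closure ⟨t, ht, rfl⟩)

lemma isConnected_KK : IsConnected KK := by
  have hconn : ∀ (P : ℝ → ℂ) (S : Set ℝ), Continuous P → IsPreconnected S →
      (∀ᶠ t in atTop, t ∈ S) → (∀ x, MapClusterPt x atTop P ↔ x ∈ MM) →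
      IsPreconnected (P '' S ∪ MM) := by
    intro P S hP hS hev hcl
    refine (hS.image P hP.continuousOn).subset_closure subset_union_left ?_
    rintro z (hz | hz)
    · exact subset_closure hz
    · exact cluster_subset_closure hev ((hcl z).2 hz)
  have h1 := hconn (PP .h) (Ici 0) (continuous_PP .h) isPreconnected_Ici (eventually_ge_atTop 0) clT_h'
  have h2 := hconn (PP .l1) univ (continuous_PP .l1) isPreconnected_univ
    (Eventually.of_forall fun _ => trivial) clT_l1'
  have h3 := hconn (PP .l2) univ (continuous_PP .l2) isPreconnected_univ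
    (Eventually.of_forall fun _ => trivial) clT_l2'
  obtain ⟨m, hm⟩ := nonempty_MM
  have h4 : KK = (PP .h '' Ici 0 ∪ MM) ∪ ((PP .l1 '' univ ∪ MM) ∪ (PP .l2 '' univ ∪ MM)) := by
    ext z
    rw [mem_KK_iff]
    simp only [mem_union, image_univ]
    tauto
  refine ⟨⟨m, ?_⟩, ?_⟩
  · rw [h4]
    exact Or.inl (Or.inr hm)
  · rw [h4]
    exact IsPreconnected.union m (Or.inr hm) (Or.inl (Or.inr hm)) h1
      (IsPreconnected.union m (Or.inr hm) (Or.inr hm) h2 h3)

/-! ### the angle function -/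

/-- direction of a complex number -/
def Th (z : ℂ) : ℂ := z / (‖z‖ : ℂ)

lemma Th_polar {r x : ℝ} (hr : 0 < r) : Th ((r : ℂ) * Complex.exp (π * x * Complex.I)) =
    Complex.exp (π * x * Complex.I) := by
  unfold Th
  rw [norm_mul, norm_cexp, mul_one, Complex.norm_real, Real.norm_eq_abs, abs_of_pos hr]
  have : (r : ℂ) ≠ 0 := by exact_mod_cast hr.ne'
  field_simp

lemma one_le_norm_PP (i : Comp) (t : ℝ) : 1 ≤ ‖PP i t‖ := by
  cases i
  · have : PP .c1 t = Cc (max t 0) := rfl
    rw [this, norm_Cc]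
    exact one_le_rc _
  · have : PP .c2 t = - Cc (max t 0) := rfl
    rw [this, norm_neg, norm_Cc]
    exact one_le_rc _
  · exact (rad_pos (h_pos t)).le.trans_eq (norm_Phi (h_pos t)).symm
  · exact (rad_pos (l1_pos t)).le.trans_eq (norm_Phi (l1_pos t)).symm
  · exact (rad_pos (l2_pos t)).le.trans_eq (norm_Phi (l2_pos t)).symm

lemma Th_continuousOn : ContinuousOn Th KK := by
  unfold Th
  refine continuousOn_id.div ?_ ?_
  · exact (Complex.continuous_ofReal.comp continuous_norm).continuousOn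
  · intro z hz
    obtain ⟨i, t, ht, rfl⟩ := mem_iUnion.1 hz
    have := one_le_norm_PP i t
    have h : ‖PP i t‖ ≠ 0 := by linarith
    exact_mod_cast h

theorem model_KK : ∃ Θ : ℂ → ℂ, Model PP angK Θ (1 / 2) (3 / 7) (2 / 3) (1 / 19) (3 / 17) := by
  refine ⟨Th, ?_⟩
  exact {
    cont := continuous_PP
    inj := PP_inj
    compact := isCompact_KK
    he := by norm_num
    hb2 := by norm_num
    hb22 := by norm_num
    hb21 := by norm_num
    hb11 := by norm_num
    clT_c1 := clT_c1
    clT_c2 := clT_c2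
    clT_h := clT_h'
    clT_l1 := clT_l1'
    clT_l2 := clT_l2'
    clB_l1 := clB_l1'
    clB_l2 := clB_l2'
    Θcont := Th_continuousOn
    Θh := by
      rintro i (rfl | rfl | rfl) t ht
      · exact Th_polar (by linarith [rad_pos (x := alh t) (h_pos t)])
      · exact Th_polar (by linarith [rad_pos (x := al1 t) (l1_pos t)])
      · exact Th_polar (by linarith [rad_pos (x := al2 t) (l2_pos t)])
    Θc := by
      intro s hs t ht h
      rw [PP_c1_of_nonneg hs, PP_c2_of_nonneg ht, neg_Cc_eq, Cc_eq,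
        Th_polar (by linarith [one_le_rc s]), Th_polar (by linarith [one_le_rc t]),
        cexp_eq_iff] at h
      obtain ⟨n, hn⟩ := h
      have a1 := ac_pos hs
      have a2 := ac_pos ht
      have a3 := ac_le_one s
      have a4 := ac_le_one t
      have h5 : (-2 : ℝ) < 2 * n := by linarith
      have h6 : (2 * n : ℝ) < 0 := by linarith
      have h7 : (-2 : ℤ) < 2 * n := by exact_mod_cast h5
      have h8 : 2 * n < (0 : ℤ) := by exact_mod_cast h6
      omega
    angcont := by
      intro i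
      cases i
      · exact continuous_ac_max
      · exact continuous_ac_max.add continuous_const
      · exact continuous_alh
      · exact continuous_al1
      · exact continuous_al2
    ahead1 := noAhead_al1
    ahead2 := noAhead_al2
    fold := noFold_al1_alh }

end

end Pool.Agent.Lib.MP_a9a15f_gt
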