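import Mathlib

/-!
# A planar disk and a planar continuum with the fixed-point property (definitions)

`M` is a double Warsaw circle, `H` a half-line spiralling onto `M`, `L₁, L₂` two lines spiralling
onto `M`, whose outer ends accumulate on two bars contained in the initial arc `A` of `H`.
-/

set_option autoImplicit false

open Set Topology Filter
open scoped Real

namespace Pool.Agent.Lib.MP_a9a15f_gt

noncomputable section

/-- the five path components -/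
inductive Comp
  | c1 | c2 | h | l1 | l2
  deriving DecidableEq

instance : Fintype Comp := ⟨{.c1, .c2, .h, .l1, .l2}, fun x => by cases x <;> simp⟩

/-- parameter domains -/
def Jset : Comp → Set ℝ
  | .c1 => Ici 0
  | .c2 => Ici 0
  | .h => Ici 0
  | .l1 => univ
  | .l2 => univ

/-- A line with angle function `α` cannot be pushed ahead. -/
def NoAhead (α : ℝ → ℝ) : Prop :=
  ∀ τ : ℝ → ℝ, Continuous τ → (∀ t, t < τ t) → ∀ (T : ℝ) (c : ℤ),
    ¬ ∀ t, T ≤ t → 2 * (c : ℝ) < α (τ t) - α t ∧ α (τ t) - α t < 2 * (c : ℝ) + 2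

/-- A line with angle function `α` cannot be mapped to a line with angle function `β`. -/
def NoFold (α β : ℝ → ℝ) : Prop :=
  ∀ τ : ℝ → ℝ, Continuous τ → Tendsto τ atTop atTop → ∀ (T : ℝ) (c : ℤ),
    ¬ ∀ t, T ≤ t → 2 * (c : ℝ) < β (τ t) - α t ∧ β (τ t) - α t < 2 * (c : ℝ) + 2

/-- The abstract features of the continuum `K = ⋃ i, P i '' Jset i`. -/
structure Model {E : Type*} [MetricSpace E] (P : Comp → ℝ → E) (ang : Comp → ℝ → ℝ) (Θ : E → ℂ)
    (e b1 b1' b2 b2' : ℝ) : Prop where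
  cont : ∀ i, Continuous (P i)
  inj : ∀ i j s t, s ∈ Jset i → t ∈ Jset j → P i s = P j t → i = j ∧ s = t
  compact : IsCompact (⋃ i, P i '' Jset i)
  he : 0 < e
  hb2 : 0 ≤ b2
  hb22 : b2 < b2'
  hb21 : b2' < b1
  hb11 : b1 < b1'
  /-- the end of the first ray of `M` accumulates on the bar of the second -/
  clT_c1 : ∀ x, MapClusterPt x atTop (P .c1) ↔ x ∈ P .c2 '' Icc 0 e
  clT_c2 : ∀ x, MapClusterPt x atTop (P .c2) ↔ x ∈ P .c1 '' Icc 0 e
  clT_h : ∀ x, MapClusterPt x atTop (P .h) ↔ x ∈ P .c1 '' Ici 0 ∪ P .c2 '' Ici 0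
  clT_l1 : ∀ x, MapClusterPt x atTop (P .l1) ↔ x ∈ P .c1 '' Ici 0 ∪ P .c2 '' Ici 0
  clT_l2 : ∀ x, MapClusterPt x atTop (P .l2) ↔ x ∈ P .c1 '' Ici 0 ∪ P .c2 '' Ici 0
  clB_l1 : ∀ x, MapClusterPt x atBot (P .l1) ↔ x ∈ P .h '' Icc b1 b1'
  clB_l2 : ∀ x, MapClusterPt x atBot (P .l2) ↔ x ∈ P .h '' Icc b2 b2'
  Θcont : ContinuousOn Θ (⋃ i, P i '' Jset i)
  Θh : ∀ i, (i = .h ∨ i = .l1 ∨ i = .l2) → ∀ t ∈ Jset i,
    Θ (P i t) = Complex.exp (π * ang i t * Complex.I)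
  Θc : ∀ s, 0 ≤ s → ∀ t, 0 ≤ t → Θ (P .c1 s) ≠ Θ (P .c2 t)
  angcont : ∀ i, Continuous (ang i)
  ahead1 : NoAhead (ang .l1)
  ahead2 : NoAhead (ang .l2)
  fold : NoFold (ang .l1) (ang .h)

/-! ### The concrete continuum -/

/-- rises on `[n, n + 1/2]` from `n²` to `(n+1)² + 2`, drops on `[n + 1/2, n + 1]` to `(n+1)²` -/
def zeta (t : ℝ) : ℝ :=
  (⌊t⌋ : ℝ) ^ 2 + min ((4 * (⌊t⌋ : ℝ) + 6) * Int.fract t) (2 * (⌊t⌋ : ℝ) + 5 - 4 * Int.fract t)

/-- angle of `L₁` (unit: half a turn) -/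
def al1 (t : ℝ) : ℝ := 1 / (1 - min t 0) + zeta (max t 0)

/-- angle of `L₂` -/
def al2 (t : ℝ) : ℝ := al1 t + max (min t 1) 0

/-- angle of the spiral part of `H` -/
def eta (t : ℝ) : ℝ := t + 3 * (1 - Real.cos (2 * π * t))

/-- angle of `H` -/
def alh (t : ℝ) : ℝ := eta (max (t - 1) 0)

/-- transversal coordinate of `H` -/
def ph (t : ℝ) : ℝ := 3 / 2 - 1 / (1 + max t 0)

/-- transversal coordinate of `L₁` (`c = 17/20`) and `L₂` (`c = 3/5`) -/
def pl (c t : ℝ) : ℝ := c + Real.cos (min t 0) / 20 + (1 - 1 / (1 + max t 0)) / 20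

/-- radial offset at depth `s` -/
def U (s : ℝ) : ℝ := max (3 - s) (1 / s)

/-- radial profile at depth `s` -/
def hh (y s : ℝ) : ℝ := max (2 + Real.cos (2 * π / y)) (3 - y * (1 + s))

/-- radius of the point with angle `x` and depth `s` -/
def rad (x s : ℝ) : ℝ := U s + hh (Int.fract x) s

/-- the point with angle `x` (unit: half a turn) and depth `s > 0` -/
def Phi (x s : ℝ) : ℂ := (rad x s : ℂ) * Complex.exp (π * x * Complex.I)

/-- angle of the first ray of `M` -/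
def ac (t : ℝ) : ℝ := min 1 (1 / (t + 1 / 2))

/-- the first ray of `M`; the second ray is its negative -/
def Cc (t : ℝ) : ℂ := ((2 - Real.cos (2 * π * t) : ℝ) : ℂ) * Complex.exp (π * ac t * Complex.I)

/-- angles -/
def angK : Comp → ℝ → ℝ
  | .c1 => fun t => ac (max t 0)
  | .c2 => fun t => ac (max t 0) + 1
  | .h => alh
  | .l1 => al1
  | .l2 => al2

/-- the parametrised path components of `K` -/
def PP : Comp → ℝ → ℂ
  | .c1 => fun t => Cc (max t 0)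
  | .c2 => fun t => - Cc (max t 0)
  | .h => fun t => Phi (alh t) (alh t + ph t)
  | .l1 => fun t => Phi (al1 t) (al1 t + pl (17 / 20) t)
  | .l2 => fun t => Phi (al2 t) (al2 t + pl (3 / 5) t)

/-- the continuum -/
def KK : Set ℂ := ⋃ i, PP i '' Jset i

/-- the disk -/
def DD : Set ℂ := {z | 5 ≤ z.re ∧ z.re ≤ 11 / 2 ∧ -(1 / 2) ≤ z.im ∧ z.im ≤ 0}

/-- the arc -/
def AA : Set ℂ := {z | 5 ≤ z.re ∧ z.re ≤ 11 / 2 ∧ z.im = 0}

end

end Pool.Agent.Lib.MP_a9a15f_gt
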