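import Pool.Agent.Lib.MP_a9a15f_gt.Polar
import Pool.Agent.Lib.MP_a9a15f_gt.Angles

/-!
# The disk, the arc and the transport to the Euclidean plane
-/

set_option autoImplicit false

open Set Topology Filter
open scoped Real

namespace Pool.Agent.Lib.MP_a9a15f_gt

noncomputable section

lemma al1_pos (t : ℝ) : 0 < al1 t := by
  unfold al1
  have h1 : min t 0 ≤ 0 := min_le_right _ _
  have h2 : 0 < 1 / (1 - min t 0) := by
    apply one_div_pos.2; linarith
  have h3 : (0 : ℝ) ≤ zeta (max t 0) := by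
    have := zeta_ge_sq 0 le_rfl (s := max t 0) (by simp)
    simpa using this
  linarith

lemma al2_pos (t : ℝ) : 0 < al2 t := by
  unfold al2
  have := al1_pos t
  have h2 : 0 ≤ max (min t 1) 0 := le_max_right _ _
  linarith

lemma pl_ge (c t : ℝ) : c - 1 / 20 ≤ pl c t := by
  unfold pl
  have h1 := Real.neg_one_le_cos (min t 0)
  have h2 : 0 ≤ max t 0 := le_max_right _ _
  have h3 : 1 / (1 + max t 0) ≤ 1 := by
    rw [div_le_one (by linarith)]; linarith
  linarith

/-- a point of the disk given in coordinates has depth at most `1` -/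
lemma depth_le_of_mem_DD {x s : ℝ} (hs : 1 / 2 < s) (h : Phi x s ∈ DD) : s ≤ 1 := by
  have h1 : 5 ≤ ‖Phi x s‖ := h.1.trans (Complex.re_le_norm _)
  rw [norm_Phi (by linarith)] at h1
  have h2 := rad_le (x := x) (by linarith : 0 < s)
  by_contra hcon
  push Not at hcon
  have h3 := U_strictAnti one_pos hcon
  rw [U_eq (by norm_num : (1 : ℝ) / 2 ≤ 1) (by norm_num)] at h3
  linarith

lemma Phi_im (x s : ℝ) : (Phi x s).im = rad x s * Real.sin (π * x) := by
  unfold Phi
  have : (π * x * Complex.I : ℂ) = ((π * x : ℝ) : ℂ) * Complex.I := by push_cast; ring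
  rw [this, Complex.mul_im, Complex.ofReal_re, Complex.ofReal_im, Complex.exp_ofReal_mul_I_im]
  ring

lemma not_mem_DD_of_angle {x s : ℝ} (hx : 0 < x) (hx1 : x < 1) (hs : 0 < s) : Phi x s ∉ DD := by
  intro h
  have h1 := h.2.2.2
  rw [Phi_im] at h1
  have h2 := rad_pos (x := x) hs
  have h3 : 0 < Real.sin (π * x) := by
    apply Real.sin_pos_of_pos_of_lt_pi
    · have := Real.pi_pos; positivity
    · have := Real.pi_pos; nlinarith
  have : 0 < rad x s * Real.sin (π * x) := by positivity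
  linarith

lemma not_mem_DD_of_ahead {x p : ℝ} (hx : 0 < x) (hp : 1 / 2 ≤ p) : Phi x (x + p) ∉ DD := by
  intro h
  have h1 := depth_le_of_mem_DD (by linarith) h
  exact not_mem_DD_of_angle hx (by linarith) (by linarith) h

lemma Phi_zero (s : ℝ) : Phi 0 s = ((U s + 3 : ℝ) : ℂ) := by
  unfold Phi
  rw [rad_zero]
  simp

lemma alh_eq_zero {t : ℝ} (ht : t ≤ 1) : alh t = 0 := by
  unfold alh eta
  rw [max_eq_right (by linarith)]
  simp

lemma alh_pos {t : ℝ} (ht : 1 < t) : 0 < alh t := by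
  unfold alh eta
  rw [max_eq_left (by linarith)]
  have := Real.cos_le_one (2 * π * (t - 1))
  linarith

lemma ph_ge {t : ℝ} : 1 / 2 ≤ ph t := by
  unfold ph
  have h2 : 0 ≤ max t 0 := le_max_right _ _
  have h3 : 1 / (1 + max t 0) ≤ 1 := by
    rw [div_le_one (by linarith)]; linarith
  linarith

lemma ph_le_one {t : ℝ} (h1 : t ≤ 1) : ph t ≤ 1 := by
  unfold ph
  have h2 : 0 ≤ max t 0 := le_max_right _ _
  have h3 : max t 0 ≤ 1 := max_le h1 zero_le_one
  have h4 : 1 / 2 ≤ 1 / (1 + max t 0) := by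
    apply one_div_le_one_div_of_le <;> linarith
  linarith

/-- Piece F -/
theorem DD_inter_KK : DD ∩ KK = AA := by
  ext z
  constructor
  · rintro ⟨hD, hK⟩
    obtain ⟨i, t, ht, rfl⟩ := mem_iUnion.1 hK
    have hnorm : 5 ≤ ‖PP i t‖ := hD.1.trans (Complex.re_le_norm _)
    cases i with
    | c1 =>
      exfalso
      simp only [PP, norm_Cc] at hnorm
      linarith [rc_le (max t 0)]
    | c2 =>
      exfalso
      simp only [PP, norm_neg, norm_Cc] at hnorm
      linarith [rc_le (max t 0)]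
    | h =>
      simp only [PP] at hD ⊢
      rcases le_or_gt t 1 with h1 | h1
      · rw [alh_eq_zero h1, zero_add, Phi_zero] at hD ⊢
        refine ⟨hD.1, hD.2.1, by simp⟩
      · exact absurd hD (not_mem_DD_of_ahead (alh_pos h1) ph_ge)
    | l1 =>
      simp only [PP] at hD
      exact absurd hD (not_mem_DD_of_ahead (al1_pos t) (by have := pl_ge (17 / 20) t; linarith))
    | l2 =>
      simp only [PP] at hD
      exact absurd hD (not_mem_DD_of_ahead (al2_pos t) (by have := pl_ge (3 / 5) t; linarith))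
  · rintro ⟨h1, h2, h3⟩
    refine ⟨⟨h1, h2, by rw [h3]; norm_num, h3.le⟩, ?_⟩
    refine mem_iUnion.2 ⟨.h, ?_⟩
    -- the parameter with `ph t = 6 - re z`
    have hcont : ContinuousOn ph (Icc 0 1) := by
      unfold ph
      refine continuousOn_const.sub (continuousOn_const.div (by fun_prop) ?_)
      intro t _
      have : 0 ≤ max t 0 := le_max_right _ _
      linarith
    have e0 : ph 0 = 1 / 2 := by unfold ph; norm_num
    have e1 : ph 1 = 1 := by unfold ph; norm_num
    have hI := intermediate_value_Icc zero_le_one hcont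
    rw [e0, e1] at hI
    obtain ⟨t, ht, hpt⟩ := hI (show (6 - z.re) ∈ Icc (1 / 2 : ℝ) 1 from
      ⟨by linarith, by linarith⟩)
    refine ⟨t, ht.1, ?_⟩
    simp only [PP]
    rw [alh_eq_zero ht.2, zero_add, Phi_zero, hpt, U_eq (by linarith) (by linarith)]
    apply Complex.ext
    · simp
      ring
    · simp [h3]

/-! ### transport -/

/-- the isometry to the Euclidean plane -/
def ee : ℂ ≃ₜ EuclideanSpace ℝ (Fin 2) :=
  (Complex.orthonormalBasisOneI.repr).toHomeomorph

lemma DD_convex : Convex ℝ DD := by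
  have h1 : Convex ℝ {z : ℂ | 5 ≤ z.re} := convex_halfSpace_re_ge 5
  have h2 : Convex ℝ {z : ℂ | z.re ≤ 11 / 2} := convex_halfSpace_re_le (11 / 2)
  have h3 : Convex ℝ {z : ℂ | -(1 / 2) ≤ z.im} := convex_halfSpace_im_ge (-(1 / 2))
  have h4 : Convex ℝ {z : ℂ | z.im ≤ 0} := convex_halfSpace_im_le 0
  exact h1.inter (h2.inter (h3.inter h4))

lemma DD_closed : IsClosed DD := by
  have h1 : IsClosed {z : ℂ | 5 ≤ z.re} := isClosed_le continuous_const Complex.continuous_re
  have h2 : IsClosed {z : ℂ | z.re ≤ 11 / 2} := isClosed_le Complex.continuous_re continuous_const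
  have h3 : IsClosed {z : ℂ | -(1 / 2) ≤ z.im} := isClosed_le continuous_const Complex.continuous_im
  have h4 : IsClosed {z : ℂ | z.im ≤ 0} := isClosed_le Complex.continuous_im continuous_const
  exact h1.inter (h2.inter (h3.inter h4))

lemma DD_interior : (interior DD).Nonempty := by
  refine ⟨⟨21 / 4, -(1 / 4)⟩, ?_⟩
  rw [mem_interior]
  refine ⟨{z : ℂ | 5 < z.re} ∩ ({z : ℂ | z.re < 11 / 2} ∩ ({z : ℂ | -(1 / 2) < z.im} ∩
    {z : ℂ | z.im < 0})), ?_, ?_, ?_⟩
  · rintro z ⟨h1, h2, h3, h4⟩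
    exact ⟨le_of_lt h1, le_of_lt h2, le_of_lt h3, le_of_lt h4⟩
  · exact (isOpen_lt continuous_const Complex.continuous_re).inter
      ((isOpen_lt Complex.continuous_re continuous_const).inter
      ((isOpen_lt continuous_const Complex.continuous_im).inter
      (isOpen_lt Complex.continuous_im continuous_const)))
  · refine ⟨?_, ?_, ?_, ?_⟩ <;> simp only [mem_ofPred_eq] <;> norm_num

lemma DD_bounded : Bornology.IsBounded DD := by
  refine (Metric.isBounded_closedBall (x := (0 : ℂ)) (r := 6)).subset ?_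
  rintro z ⟨h1, h2, h3, h4⟩
  rw [mem_closedBall_zero_iff]
  refine (Complex.norm_le_abs_re_add_abs_im z).trans ?_
  rw [abs_of_nonneg (by linarith), abs_of_nonpos h4]
  linarith

lemma DD_homeo : Nonempty (↥(ee '' DD) ≃ₜ
    ↥(Metric.closedBall (0 : EuclideanSpace ℝ (Fin 2)) 1)) := by
  have hc : Convex ℝ (ee '' DD) := by
    have := DD_convex.linear_image
      (Complex.orthonormalBasisOneI.repr.toLinearEquiv : ℂ →ₗ[ℝ] EuclideanSpace ℝ (Fin 2))
    exact this
  have hi : (interior (ee '' DD)).Nonempty := by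
    rw [← ee.image_interior]
    exact DD_interior.image _
  have hb : Bornology.IsBounded (ee '' DD) :=
    (Complex.orthonormalBasisOneI.repr.lipschitz.isBounded_image DD_bounded)
  obtain ⟨h, -, h2, -⟩ := exists_homeomorph_image_interior_closure_frontier_eq_unitBall hc hi hb
  have hcl : closure (ee '' DD) = ee '' DD :=
    ((ee.isClosed_image).2 DD_closed).closure_eq
  rw [hcl] at h2
  exact ⟨(h.image _).trans (Homeomorph.setCongr h2)⟩

lemma AA_homeo : Nonempty (↥(ee '' AA) ≃ₜ ↥(Icc (0 : ℝ) 1)) := by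
  have hemb : IsEmbedding (fun t : ℝ => ((5 + t / 2 : ℝ) : ℂ)) := by
    have h1 : IsEmbedding (fun t : ℝ => (t : ℂ)) := Complex.isometry_ofReal.isEmbedding
    have h2 : IsEmbedding (fun t : ℝ => 5 + t / 2) := by
      have : Function.LeftInverse (fun s : ℝ => 2 * (s - 5)) (fun t : ℝ => 5 + t / 2) := by
        intro t; simp only; ring
      exact this.isEmbedding (by fun_prop) (by fun_prop)
    exact h1.comp h2
  have himg : (fun t : ℝ => ((5 + t / 2 : ℝ) : ℂ)) '' Icc 0 1 = AA := by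
    ext z
    constructor
    · rintro ⟨t, ⟨h0, h1⟩, rfl⟩
      refine ⟨?_, ?_, ?_⟩ <;> simp only [Complex.ofReal_re, Complex.ofReal_im] <;> linarith
    · rintro ⟨h1, h2, h3⟩
      refine ⟨2 * (z.re - 5), ⟨by linarith, by linarith⟩, ?_⟩
      apply Complex.ext
      · simp only [Complex.ofReal_re]; ring
      · simp only [Complex.ofReal_im]; exact h3.symm
  exact ⟨(((hemb.homeomorphImage (Icc 0 1)).trans (Homeomorph.setCongr himg)).trans
    (ee.image AA)).symm⟩

/-- fixed points of maps of a transported set -/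
lemma fpp_transport {S : Set ℂ}
    (h : ∀ g : ℂ → ℂ, ContinuousOn g S → MapsTo g S S → ∃ x ∈ S, g x = x)
    (f : C(↥(ee '' S), ↥(ee '' S))) : ∃ x, f x = x := by
  classical
  let φ : S ≃ₜ ↥(ee '' S) := ee.image S
  let k : S → S := fun x => φ.symm (f (φ x))
  have hk : Continuous k := φ.symm.continuous.comp (f.continuous.comp φ.continuous)
  let g : ℂ → ℂ := fun x => if hx : x ∈ S then (k ⟨x, hx⟩ : ℂ) else x
  have hgc : ContinuousOn g S := by
    rw [continuousOn_iff_continuous_domRestrict]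
    have : S.domRestrict g = fun x : S => (k x : ℂ) := by
      ext x
      simp only [Set.domRestrict_apply, g, x.2, dif_pos]
    rw [this]
    exact continuous_subtype_val.comp hk
  have hgm : MapsTo g S S := by
    intro x hx
    simp only [g, hx, dif_pos]
    exact (k ⟨x, hx⟩).2
  obtain ⟨x, hx, hgx⟩ := h g hgc hgm
  simp only [g, hx, dif_pos] at hgx
  refine ⟨φ ⟨x, hx⟩, ?_⟩
  have h1 : k ⟨x, hx⟩ = ⟨x, hx⟩ := Subtype.ext hgx
  have h2 : φ (k ⟨x, hx⟩) = f (φ ⟨x, hx⟩) := φ.apply_symm_apply _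
  rw [← h2, h1]

lemma not_fpp_transport {S : Set ℂ}
    (h : ∃ g : ℂ → ℂ, ContinuousOn g S ∧ MapsTo g S S ∧ ∀ x ∈ S, g x ≠ x) :
    ¬ ∀ f : C(↥(ee '' S), ↥(ee '' S)), ∃ x, f x = x := by
  intro hall
  obtain ⟨g, hgc, hgm, hne⟩ := h
  let φ : S ≃ₜ ↥(ee '' S) := ee.image S
  let k : S → S := hgm.restrict g S S
  have hk : Continuous k := hgc.mapsToRestrict hgm
  obtain ⟨x, hx⟩ := hall ⟨fun x => φ (k (φ.symm x)),
    φ.continuous.comp (hk.comp φ.symm.continuous)⟩
  have h1 : k (φ.symm x) = φ.symm x := by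
    have h2 : φ (k (φ.symm x)) = x := hx
    rw [← φ.symm_apply_apply (k (φ.symm x)), h2]
  exact hne _ (φ.symm x).2 (congrArg Subtype.val h1)

/-- The frozen statement from the pieces A-E. -/
theorem frozen_of (hcomp : IsCompact KK) (hconn : IsConnected KK)
    (hfpp : ∀ g : ℂ → ℂ, ContinuousOn g KK → MapsTo g KK KK → ∃ x ∈ KK, g x = x)
    (hmap : ∃ f : ℂ → ℂ, ContinuousOn f (DD ∪ KK) ∧ MapsTo f (DD ∪ KK) (DD ∪ KK) ∧
      ∀ z ∈ DD ∪ KK, f z ≠ z) :
    ∃ D K : Set (EuclideanSpace ℝ (Fin 2)),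
      Nonempty (↥D ≃ₜ ↥(Metric.closedBall (0 : EuclideanSpace ℝ (Fin 2)) 1)) ∧
      IsCompact K ∧ IsConnected K ∧
      (∀ f : C(↥K, ↥K), ∃ x, f x = x) ∧
      Nonempty (↥(D ∩ K) ≃ₜ ↥(Set.Icc (0 : ℝ) 1)) ∧
      ¬ (∀ f : C(↥(D ∪ K), ↥(D ∪ K)), ∃ x, f x = x) := by
  refine ⟨ee '' DD, ee '' KK, DD_homeo, hcomp.image ee.continuous,
    hconn.image _ ee.continuous.continuousOn, fpp_transport hfpp, ?_, ?_⟩
  · rw [← image_inter ee.injective, DD_inter_KK]
    exact AA_homeo
  · rw [← image_union]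
    exact not_fpp_transport hmap

end

end Pool.Agent.Lib.MP_a9a15f_gt
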