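import Pool.Agent.Lib.MP_a9a15f_gt.Defs

/-!
# Lifting of paths to the parameter lines
-/

set_option autoImplicit false

open Set Topology Filter
open scoped Real

namespace Pool.Agent.Lib.MP_a9a15f_gt

namespace Lift

/-- Behaviour at the left end of an interval of continuity. -/
theorem end_right {E : Type*} [TopologicalSpace E] [T2Space E] (p : ℝ → E) (J : Set ℝ)
    (hJ : J = Ici 0 ∨ J = univ) (cont : Continuous p)
    (inj : ∀ s ∈ J, ∀ t ∈ J, p s = p t → s = t)
    (top : ∀ x, ¬ Tendsto p atTop (𝓝 x)) (bot : J = univ → ∀ x, ¬ Tendsto p atBot (𝓝 x))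
    (q : ℝ → E) (T : ℝ → ℝ) {c d : ℝ} (hcd : c < d) (x₀ : E) (hq : Tendsto q (𝓝[>] c) (𝓝 x₀))
    (hT : ∀ s ∈ Ioo c d, T s ∈ J ∧ p (T s) = q s) (hTc : ContinuousOn T (Ioo c d)) :
    ∃ y ∈ J, p y = x₀ ∧ Tendsto T (𝓝[>] c) (𝓝 y) := by
  have hclosed : IsClosed J := by
    rcases hJ with h | h
    · rw [h]; exact isClosed_Ici
    · rw [h]; exact isClosed_univ
  -- a value taken frequently
  have hval : ∀ x : ℝ, (∃ᶠ s in 𝓝[>] c, T s = x) → x ∈ J ∧ p x = x₀ := by
    intro x hx
    have hin : ∀ᶠ s in 𝓝[>] c, s ∈ Ioo c d := Ioo_mem_nhdsGT hcd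
    constructor
    · obtain ⟨s, hs1, hs2⟩ := (hx.and_eventually hin).exists
      rw [← hs1]
      exact (hT s hs2).1
    · by_contra hne
      have h1 : ∀ᶠ s in 𝓝[>] c, q s ≠ p x := hq.eventually_ne (Ne.symm hne)
      obtain ⟨s, hs1, hs2, hs3⟩ := (hx.and_eventually (hin.and h1)).exists
      apply hs3
      rw [← (hT s hs2).2, hs1]
  -- the intermediate value property
  have hivt : ∀ x : ℝ, (∃ᶠ s in 𝓝[>] c, T s < x) → (∃ᶠ s in 𝓝[>] c, x < T s) →
      ∃ᶠ s in 𝓝[>] c, T s = x := by
    intro x h1 h2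
    rw [frequently_iff]
    intro U hU
    obtain ⟨e, he, heU⟩ := (mem_nhdsGT_iff_exists_Ioo_subset).mp hU
    have hm : c < min d e := lt_min hcd he
    have hin : ∀ᶠ s in 𝓝[>] c, s ∈ Ioo c (min d e) := Ioo_mem_nhdsGT hm
    obtain ⟨s1, hs1, hs1'⟩ := (h1.and_eventually hin).exists
    obtain ⟨s2, hs2, hs2'⟩ := (h2.and_eventually hin).exists
    have hsub : Ioo c (min d e) ⊆ Ioo c d := Ioo_subset_Ioo_right (min_le_left _ _)
    obtain ⟨s, hs, hsx⟩ := (isPreconnected_Ioo (a := c) (b := min d e)).intermediate_value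
      hs1' hs2' (hTc.mono hsub) ⟨hs1.le, hs2.le⟩
    exact ⟨s, heU (Ioo_subset_Ioo_right (min_le_right _ _) hs), hsx⟩
  -- convergence in the extended line
  have hlim : ∃ L : EReal, Tendsto (fun s => (T s : EReal)) (𝓝[>] c) (𝓝 L) := by
    apply tendsto_of_no_upcrossings (s := (univ : Set EReal)) dense_univ
    rintro a - b - hab ⟨h1, h2⟩
    obtain ⟨x, hx1, hx2⟩ := EReal.lt_iff_exists_real_btwn.mp hab
    obtain ⟨x', hx1', hx2'⟩ := EReal.lt_iff_exists_real_btwn.mp hx2
    have f1 : ∀ z : ℝ, a < z → (z : EReal) < b → (∃ᶠ s in 𝓝[>] c, T s = z) := by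
      intro z hz1 hz2
      apply hivt
      · apply h1.mono
        intro s hs
        exact_mod_cast hs.trans hz1
      · apply h2.mono
        intro s hs
        exact_mod_cast hz2.trans hs
    obtain ⟨j1, e1⟩ := hval x (f1 x hx1 hx2)
    obtain ⟨j2, e2⟩ := hval x' (f1 x' (hx1.trans hx1') hx2')
    have := inj x j1 x' j2 (e1.trans e2.symm)
    rw [this] at hx1'
    exact lt_irrefl _ hx1'
  obtain ⟨L, hL⟩ := hlim
  have hin : ∀ᶠ s in 𝓝[>] c, s ∈ Ioo c d := Ioo_mem_nhdsGT hcd
  induction L with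
  | bot =>
    have hbot : Tendsto T (𝓝[>] c) atBot := by
      rw [tendsto_atBot]
      intro b
      have h1 : ∀ᶠ s in 𝓝[>] c, (T s : EReal) < b := hL.eventually (gt_mem_nhds (EReal.bot_lt_coe b))
      filter_upwards [h1] with s hs
      exact (EReal.coe_lt_coe_iff.mp hs).le
    rcases hJ with h | h
    · exfalso
      obtain ⟨s, hs1, hs2⟩ := ((hbot.eventually (eventually_lt_atBot 0)).and hin).exists
      have := (hT s hs2).1
      rw [h, mem_Ici] at this
      linarith
    · exfalso
      apply bot h x₀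
      intro W hW
      rw [mem_map]
      obtain ⟨e, he, heW⟩ := (mem_nhdsGT_iff_exists_Ioo_subset).mp (hq hW)
      have hm : c < min d e := lt_min hcd he
      have hin' : ∀ᶠ s in 𝓝[>] c, s ∈ Ioo c (min d e) := Ioo_mem_nhdsGT hm
      obtain ⟨s1, hs1⟩ := hin'.exists
      filter_upwards [eventually_le_atBot (T s1)] with t ht
      obtain ⟨s2, hs2, hs2'⟩ := ((hbot.eventually (eventually_le_atBot t)).and hin').exists
      have hsub : Ioo c (min d e) ⊆ Ioo c d := Ioo_subset_Ioo_right (min_le_left _ _)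
      obtain ⟨s, hs, hst⟩ := (isPreconnected_Ioo (a := c) (b := min d e)).intermediate_value
        hs2' hs1 (hTc.mono hsub) ⟨hs2, ht⟩
      have h3 : q s ∈ W := heW (Ioo_subset_Ioo_right (min_le_right _ _) hs)
      rw [← (hT s (hsub hs)).2, hst] at h3
      exact h3
  | top =>
    have htop : Tendsto T (𝓝[>] c) atTop := by
      rw [tendsto_atTop]
      intro b
      have h1 : ∀ᶠ s in 𝓝[>] c, (b : EReal) < T s := hL.eventually (lt_mem_nhds (EReal.coe_lt_top b))
      filter_upwards [h1] with s hs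
      exact (EReal.coe_lt_coe_iff.mp hs).le
    exfalso
    apply top x₀
    intro W hW
    rw [mem_map]
    obtain ⟨e, he, heW⟩ := (mem_nhdsGT_iff_exists_Ioo_subset).mp (hq hW)
    have hm : c < min d e := lt_min hcd he
    have hin' : ∀ᶠ s in 𝓝[>] c, s ∈ Ioo c (min d e) := Ioo_mem_nhdsGT hm
    obtain ⟨s1, hs1⟩ := hin'.exists
    filter_upwards [eventually_ge_atTop (T s1)] with t ht
    obtain ⟨s2, hs2, hs2'⟩ := ((htop.eventually (eventually_ge_atTop t)).and hin').exists
    have hsub : Ioo c (min d e) ⊆ Ioo c d := Ioo_subset_Ioo_right (min_le_left _ _)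
    obtain ⟨s, hs, hst⟩ := (isPreconnected_Ioo (a := c) (b := min d e)).intermediate_value
      hs1 hs2' (hTc.mono hsub) ⟨ht, hs2⟩
    have h3 : q s ∈ W := heW (Ioo_subset_Ioo_right (min_le_right _ _) hs)
    rw [← (hT s (hsub hs)).2, hst] at h3
    exact h3
  | coe y =>
    have hy : Tendsto T (𝓝[>] c) (𝓝 y) := by
      exact EReal.tendsto_coe.mp hL
    refine ⟨y, ?_, ?_, hy⟩
    · apply hclosed.mem_of_tendsto hy
      filter_upwards [hin] with s hs
      exact (hT s hs).1
    · have h1 : Tendsto (fun s => p (T s)) (𝓝[>] c) (𝓝 (p y)) := (cont.tendsto y).comp hy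
      have h2 : Tendsto (fun s => p (T s)) (𝓝[>] c) (𝓝 x₀) := by
        apply hq.congr'
        filter_upwards [hin] with s hs
        exact (hT s hs).2.symm
      exact tendsto_nhds_unique h1 h2

section Data

variable {E : Type*} [TopologicalSpace E] [T2Space E] {ι : Type*}
    {P : ι → ℝ → E} {J : ι → Set ℝ} (hJ : ∀ i, J i = Ici 0 ∨ J i = univ)
    (cont : ∀ i, Continuous (P i))
    (inj : ∀ i j s t, s ∈ J i → t ∈ J j → P i s = P j t → i = j ∧ s = t)
    (top : ∀ i x, ¬ Tendsto (P i) atTop (𝓝 x))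
    (bot : ∀ i, J i = univ → ∀ x, ¬ Tendsto (P i) atBot (𝓝 x))

include hJ cont inj top bot

/-- The last point of a closed set before a given point. -/
theorem last_point {q : ℝ → E} (hq : Continuous q) {idx : ℝ → ι} {T : ℝ → ℝ}
    (hT : ∀ s, T s ∈ J (idx s)) (hP : ∀ s, P (idx s) (T s) = q s)
    {F : Set ℝ} (hF : IsClosed F)
    (hO : ∀ s, s ∉ F → (∀ᶠ s' in 𝓝 s, idx s' = idx s) ∧ ContinuousAt T s)
    {f s : ℝ} (hf : f ∈ F) (hfs : f < s) (hs : s ∉ F) :
    ∃ c ∈ F, f ≤ c ∧ c < s ∧ idx c = idx s ∧ ContinuousOn T (Icc c s) := by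
  have hcomp : IsCompact (F ∩ Icc f s) := isCompact_Icc.inter_left hF
  have hne : (F ∩ Icc f s).Nonempty := ⟨f, hf, left_mem_Icc.mpr hfs.le⟩
  obtain ⟨hc1, hc2⟩ := hcomp.sSup_mem hne
  set c := sSup (F ∩ Icc f s) with hc
  have hcs : c < s := lt_of_le_of_ne hc2.2 (fun h => hs (h ▸ hc1))
  have hnot : ∀ x ∈ Ioc c s, x ∉ F := by
    intro x hx hxF
    have : x ≤ c := le_csSup hcomp.bddAbove ⟨hxF, hc2.1.trans hx.1.le, hx.2⟩
    exact absurd hx.1 (not_lt.mpr this)
  have hidx : ∀ x ∈ Ioc c s, idx x = idx s := by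
    intro x hx
    let _ : TopologicalSpace ι := ⊥
    have : DiscreteTopology ι := ⟨rfl⟩
    refine (isPreconnected_Ioc (a := c) (b := s)).constant (f := idx) ?_ hx
      (right_mem_Ioc.mpr hcs)
    intro y hy
    apply ContinuousAt.continuousWithinAt
    have h1 := (hO y (hnot y hy)).1
    exact (continuousAt_const (y := idx y)).congr (h1.mono fun z hz => hz.symm)
  obtain ⟨y, hy1, hy2, hy3⟩ := end_right (P (idx s)) (J (idx s)) (hJ _) (cont _)
    (fun a ha b hb hab => (inj _ _ a b ha hb hab).2) (top _) (bot _) q T hcs (q c)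
    (hq.continuousAt.mono_left nhdsWithin_le_nhds)
    (fun x hx => by
      have h1 := hidx x ⟨hx.1, hx.2.le⟩
      refine ⟨?_, ?_⟩
      · have := hT x
        rwa [h1] at this
      · have := hP x
        rwa [h1] at this)
    (fun x hx => ((hO x (hnot x ⟨hx.1, hx.2.le⟩)).2).continuousWithinAt)
  obtain ⟨h1, h2⟩ := inj _ _ _ _ (hT c) hy1 ((hP c).trans hy2.symm)
  refine ⟨c, hc1, hc2.1, hcs, h1, ?_⟩
  intro x hx
  rcases eq_or_lt_of_le hx.1 with h | h
  · subst h
    rw [← h2] at hy3
    have h3 : ContinuousWithinAt T (Ioi c) c := hy3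
    have h4 : ContinuousWithinAt T (Ici c) c := continuousWithinAt_Ioi_iff_Ici.mp h3
    exact h4.mono Icc_subset_Ici_self
  · exact ((hO x (hnot x ⟨h, hx.2⟩)).2).continuousWithinAt

/-- The first point of a closed set after a given point. -/
theorem first_point {q : ℝ → E} (hq : Continuous q) {idx : ℝ → ι} {T : ℝ → ℝ}
    (hT : ∀ s, T s ∈ J (idx s)) (hP : ∀ s, P (idx s) (T s) = q s)
    {F : Set ℝ} (hF : IsClosed F)
    (hO : ∀ s, s ∉ F → (∀ᶠ s' in 𝓝 s, idx s' = idx s) ∧ ContinuousAt T s)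
    {f s : ℝ} (hf : f ∈ F) (hfs : s < f) (hs : s ∉ F) :
    ∃ c ∈ F, s < c ∧ c ≤ f ∧ idx c = idx s ∧ ContinuousOn T (Icc s c) := by
  have hneg : ∀ s : ℝ, Tendsto (fun x : ℝ => -x) (𝓝 s) (𝓝 (-s)) := fun s => continuous_neg.tendsto s
  obtain ⟨c, hc1, hc2, hc3, hc4, hc5⟩ := last_point hJ cont inj top bot (q := fun x => q (-x))
    (hq.comp continuous_neg) (idx := fun x => idx (-x)) (T := fun x => T (-x))
    (fun s => hT (-s)) (fun s => hP (-s)) (F := (fun x : ℝ => -x) ⁻¹' F)
    (hF.preimage continuous_neg) (fun x hx => by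
      obtain ⟨h1, h2⟩ := hO (-x) hx
      refine ⟨(hneg x).eventually h1, ?_⟩
      exact ContinuousAt.comp (f := fun x : ℝ => -x) h2 continuous_neg.continuousAt)
    (f := -f) (s := -s) (by simpa using hf) (by linarith) (by simpa using hs)
  refine ⟨-c, hc1, by linarith, by linarith, by simpa using hc4, ?_⟩
  have h1 : ContinuousOn (fun x => (fun x => T (-x)) (-x)) (Icc s (-c)) := by
    apply hc5.comp continuous_neg.continuousOn
    intro x hx
    exact ⟨by linarith [hx.2], by linarith [hx.1]⟩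
  simpa using h1

end Data

end Lift

open Lift in
/-- Every path lifts to one of the lines. -/
theorem path_lift {E : Type*} [TopologicalSpace E] [T2Space E] {ι : Type*} [Finite ι]
    (P : ι → ℝ → E) (J : ι → Set ℝ) (hJ : ∀ i, J i = Ici 0 ∨ J i = univ)
    (cont : ∀ i, Continuous (P i))
    (inj : ∀ i j s t, s ∈ J i → t ∈ J j → P i s = P j t → i = j ∧ s = t)
    (top : ∀ i x, ¬ Tendsto (P i) atTop (𝓝 x))
    (bot : ∀ i, J i = univ → ∀ x, ¬ Tendsto (P i) atBot (𝓝 x))
    (q : ℝ → E) (hq : Continuous q) (hqK : ∀ s, ∃ i, ∃ t ∈ J i, P i t = q s) :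
    ∃ i, ∃ τ : ℝ → ℝ, Continuous τ ∧ (∀ s, τ s ∈ J i) ∧ ∀ s, q s = P i (τ s) := by
  have hclosed : ∀ i, IsClosed (J i) := by
    intro i
    rcases hJ i with h | h
    · rw [h]; exact isClosed_Ici
    · rw [h]; exact isClosed_univ
  choose idx T hT hP using hqK
  set O : Set ℝ := {s | ∀ᶠ s' in 𝓝 s, idx s' = idx s ∧ ContinuousAt T s'} with hO
  have hOopen : IsOpen O := by
    rw [isOpen_iff_mem_nhds]
    intro s hs
    have h1 : ∀ᶠ s' in 𝓝 s, idx s' = idx s ∧ ContinuousAt T s' := hs
    filter_upwards [h1.eventually_nhds] with s1 hs1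
    have h2 := hs1.self_of_nhds
    change ∀ᶠ s' in 𝓝 s1, idx s' = idx s1 ∧ ContinuousAt T s'
    filter_upwards [hs1] with s' hs'
    exact ⟨hs'.1.trans h2.1.symm, hs'.2⟩
  have hO1 : ∀ s, s ∉ Oᶜ → (∀ᶠ s' in 𝓝 s, idx s' = idx s) ∧ ContinuousAt T s := by
    intro s hs
    rw [notMem_compl_iff] at hs
    have h1 : ∀ᶠ s' in 𝓝 s, idx s' = idx s ∧ ContinuousAt T s' := hs
    exact ⟨h1.mono fun z hz => hz.1, h1.self_of_nhds.2⟩
  by_cases hF : Oᶜ = ∅
  · -- everything is continuous
    have hall : ∀ s, (∀ᶠ s' in 𝓝 s, idx s' = idx s) ∧ ContinuousAt T s := by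
      intro s
      apply hO1
      rw [hF]
      exact notMem_empty s
    have hidx : ∀ s, idx s = idx 0 := by
      intro s
      let _ : TopologicalSpace ι := ⊥
      have : DiscreteTopology ι := ⟨rfl⟩
      refine (isPreconnected_univ (α := ℝ)).constant (f := idx) ?_ (mem_univ s) (mem_univ 0)
      intro y _
      apply ContinuousAt.continuousWithinAt
      exact (continuousAt_const (y := idx y)).congr ((hall y).1.mono fun z hz => hz.symm)
    refine ⟨idx 0, T, continuous_iff_continuousAt.mpr fun s => (hall s).2, ?_, ?_⟩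
    · intro s
      have := hT s
      rwa [hidx s] at this
    · intro s
      have := hP s
      rw [hidx s] at this
      exact this.symm
  · exfalso
    have hFne : (Oᶜ).Nonempty := nonempty_iff_ne_empty.mpr hF
    have hFc : IsClosed (Oᶜ) := hOopen.isClosed_compl
    have : CompleteSpace (Oᶜ : Set ℝ) := hFc.completeSpace_coe
    have : Nonempty (Oᶜ : Set ℝ) := hFne.to_subtype
    have hPc : ∀ (i : ι) (n : ℕ), IsClosed (P i '' (J i ∩ Icc (-(n : ℝ)) n)) := by
      intro i n
      exact ((isCompact_Icc.inter_left (hclosed i)).image (cont i)).isClosed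
    obtain ⟨⟨i, n⟩, x₀, hx₀⟩ := nonempty_interior_of_iUnion_of_closed (X := (Oᶜ : Set ℝ))
      (f := fun k : ι × ℕ => {x : (Oᶜ : Set ℝ) | q x ∈ P k.1 '' (J k.1 ∩ Icc (-(k.2 : ℝ)) k.2)})
      (fun k => (hPc k.1 k.2).preimage (hq.comp continuous_subtype_val)) (by
        rw [eq_univ_iff_forall]
        intro x
        rw [mem_iUnion]
        obtain ⟨n, hn⟩ := exists_nat_ge |T x|
        refine ⟨(idx x, n), T x, ⟨hT x, ?_, ?_⟩, hP x⟩
        · linarith [neg_abs_le (T x)]
        · exact (le_abs_self _).trans hn)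
    rw [mem_interior_iff_mem_nhds, mem_nhds_subtype] at hx₀
    obtain ⟨u, hu, hu2⟩ := hx₀
    obtain ⟨a, b, hab, habu⟩ := mem_nhds_iff_exists_Ioo_subset.mp hu
    have hx₀F : (x₀ : ℝ) ∈ Oᶜ := x₀.2
    have hV : ∀ s ∈ Ioo a b, s ∈ Oᶜ → idx s = i ∧ T s ∈ Icc (-(n : ℝ)) n := by
      intro s hs hsF
      have h1 : (⟨s, hsF⟩ : (Oᶜ : Set ℝ)) ∈ (Subtype.val ⁻¹' u : Set (Oᶜ : Set ℝ)) := habu hs
      obtain ⟨t, ht, hts⟩ := hu2 h1
      obtain ⟨h2, h3⟩ := inj _ _ _ _ (hT s) ht.1 ((hP s).trans hts.symm)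
      exact ⟨h2, h3 ▸ ht.2⟩
    have hidx : ∀ s ∈ Ioo a b, idx s = i := by
      intro s hs
      by_cases hsF : s ∈ Oᶜ
      · exact (hV s hs hsF).1
      · rcases lt_trichotomy (x₀ : ℝ) s with h | h | h
        · obtain ⟨c, hc1, hc2, hc3, hc4, -⟩ := last_point hJ cont inj top bot hq hT hP hFc hO1
            hx₀F h hsF
          rw [← hc4]
          exact (hV c ⟨hab.1.trans_le hc2, hc3.trans hs.2⟩ hc1).1
        · exact absurd (h ▸ hx₀F) hsF
        · obtain ⟨c, hc1, hc2, hc3, hc4, -⟩ := first_point hJ cont inj top bot hq hT hP hFc hO1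
            hx₀F h hsF
          rw [← hc4]
          exact (hV c ⟨hs.1.trans hc2, hc3.trans_lt hab.2⟩ hc1).1
    have hcontF : ∀ s ∈ Ioo a b, s ∈ Oᶜ → ContinuousAt T s := by
      intro s hs hsF
      -- continuity along the closed set
      have hT1 : Tendsto T (𝓝[Oᶜ] s) (𝓝 (T s)) := by
        have hcomp : IsCompact (J i ∩ Icc (-(n : ℝ)) n) := isCompact_Icc.inter_left (hclosed i)
        have hev0 : ∀ᶠ x in 𝓝[Oᶜ] s, x ∈ Ioo a b :=
          mem_nhdsWithin_of_mem_nhds (Ioo_mem_nhds hs.1 hs.2)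
        have hev : ∀ᶠ x in 𝓝[Oᶜ] s, x ∈ Ioo a b ∧ x ∈ Oᶜ := hev0.and self_mem_nhdsWithin
        apply hcomp.tendsto_nhds_of_unique_mapClusterPt
        · filter_upwards [hev] with x hx
          obtain ⟨h1, h2⟩ := hV x hx.1 hx.2
          refine ⟨?_, h2⟩
          rw [← h1]
          exact hT x
        · intro t ht htc
          have h1 : MapClusterPt (P i t) (𝓝[Oᶜ] s) (fun x => P i (T x)) :=
            htc.continuousAt_comp (cont i).continuousAt
          have h2 : Tendsto (fun x => P i (T x)) (𝓝[Oᶜ] s) (𝓝 (q s)) := by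
            have h3 : Tendsto q (𝓝[Oᶜ] s) (𝓝 (q s)) :=
              hq.continuousAt.mono_left nhdsWithin_le_nhds
            apply h3.congr'
            filter_upwards [hev] with x hx
            have := hP x
            rw [(hV x hx.1 hx.2).1] at this
            exact this.symm
          have h3 : P i t = q s := by
            by_contra hne
            obtain ⟨U, V, hU, hV', hUt, hVs, hdisj⟩ := t2_separation hne
            have h4 := h1.frequently (hU.mem_nhds hUt)
            have h5 := h2.eventually (hV'.mem_nhds hVs)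
            obtain ⟨x, hx1, hx2⟩ := (h4.and_eventually h5).exists
            exact (Set.disjoint_left.mp hdisj) hx1 hx2
          have h4 := hP s
          rw [(hV s hs hsF).1] at h4
          exact (inj i i t (T s) ht.1 (by
            have := hT s
            rwa [(hV s hs hsF).1] at this) (h3.trans h4.symm)).2
      rw [Metric.continuousAt_iff]
      intro ε hε
      set C : Set E := P i '' (J i ∩ {t | ε / 2 ≤ |t - T s| ∧ |t - T s| ≤ ε}) with hC
      have hCc : IsClosed C := by
        apply IsCompact.isClosed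
        apply IsCompact.image _ (cont i)
        apply IsCompact.of_isClosed_subset (isCompact_Icc (a := T s - ε) (b := T s + ε))
        · apply (hclosed i).inter
          have hc : Continuous fun t : ℝ => |t - T s| := by fun_prop
          exact (isClosed_le continuous_const hc).inter (isClosed_le hc continuous_const)
        · rintro t ⟨-, ht⟩
          have h1 := abs_le.mp ht.2
          exact ⟨by linarith [h1.1], by linarith [h1.2]⟩
      have hqC : q s ∉ C := by
        rintro ⟨t, ⟨ht1, ht2⟩, ht3⟩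
        have h4 := hP s
        rw [(hV s hs hsF).1] at h4
        have h5 := (inj i i t (T s) ht1 (by
            have := hT s
            rwa [(hV s hs hsF).1] at this) (ht3.trans h4.symm)).2
        have ht2' : ε / 2 ≤ |t - T s| := ht2.1
        rw [h5, sub_self, abs_zero] at ht2'
        linarith
      have ev1 : ∀ᶠ x in 𝓝 s, q x ∉ C := hq.continuousAt.eventually (hCc.isOpen_compl.mem_nhds hqC)
      have ev2 : ∀ᶠ x in 𝓝 s, x ∈ Oᶜ → |T x - T s| < ε / 2 := by
        have h1 := (Metric.tendsto_nhds.mp hT1) (ε / 2) (by linarith)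
        rw [eventually_nhdsWithin_iff] at h1
        filter_upwards [h1] with x hx hx2
        have := hx hx2
        rwa [Real.dist_eq] at this
      have ev3 : ∀ᶠ x in 𝓝 s, x ∈ Ioo a b := Ioo_mem_nhds hs.1 hs.2
      obtain ⟨δ, hδ, hball⟩ := Metric.eventually_nhds_iff.mp (ev1.and (ev2.and ev3))
      refine ⟨δ, hδ, ?_⟩
      intro x hx
      by_cases hxF : x ∈ Oᶜ
      · rw [Real.dist_eq]
        have := (hball hx).2.1 hxF
        linarith
      · by_contra hcon
        rw [Real.dist_eq, not_lt] at hcon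
        rw [Real.dist_eq] at hx
        -- a point where the distance is ε
        have key : ∃ y, |y - s| < δ ∧ |T y - T s| = ε := by
          rcases lt_trichotomy s x with h | h | h
          · obtain ⟨c, hc1, hc2, hc3, -, hc5⟩ := last_point hJ cont inj top bot hq hT hP hFc hO1
              hsF h hxF
            have hx' : |x - s| < δ := hx
            have hcδ : |c - s| < δ := by
              rw [abs_of_pos (by linarith)] at hx'
              rw [abs_of_nonneg (by linarith)]
              linarith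
            have h1 := (hball (y := c) (by rw [Real.dist_eq]; exact hcδ)).2.1 hc1
            have hcn : ContinuousOn (fun y => |T y - T s|) (Icc c x) :=
              (hc5.sub continuousOn_const).abs
            obtain ⟨y, hy, hy2⟩ := intermediate_value_Icc hc3.le hcn
              (⟨by linarith, hcon⟩ : ε ∈ Icc (|T c - T s|) (|T x - T s|))
            refine ⟨y, ?_, hy2⟩
            rw [abs_of_pos (by linarith)] at hx'
            rw [abs_of_nonneg (by linarith [hy.1])]
            linarith [hy.2]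
          · exact absurd (h ▸ hsF) hxF
          · obtain ⟨c, hc1, hc2, hc3, -, hc5⟩ := first_point hJ cont inj top bot hq hT hP hFc hO1
              hsF h hxF
            have hx' : |x - s| < δ := hx
            have hcδ : |c - s| < δ := by
              rw [abs_of_neg (by linarith)] at hx'
              rw [abs_of_nonpos (by linarith)]
              linarith
            have h1 := (hball (y := c) (by rw [Real.dist_eq]; exact hcδ)).2.1 hc1
            have hcn : ContinuousOn (fun y => |T y - T s|) (Icc x c) :=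
              (hc5.sub continuousOn_const).abs
            obtain ⟨y, hy, hy2⟩ := intermediate_value_Icc' hc2.le hcn
              (⟨by linarith, hcon⟩ : ε ∈ Icc (|T c - T s|) (|T x - T s|))
            refine ⟨y, ?_, hy2⟩
            rw [abs_of_neg (by linarith)] at hx'
            rw [abs_of_nonpos (by linarith [hy.2])]
            linarith [hy.1]
        obtain ⟨y, hy1, hy2⟩ := key
        have hb := hball (y := y) (by rw [Real.dist_eq]; exact hy1)
        apply hb.1
        have h4 := hP y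
        have h5 := hT y
        rw [hidx y hb.2.2] at h4 h5
        refine ⟨T y, ⟨h5, ?_, ?_⟩, h4⟩
        · rw [hy2]; linarith
        · rw [hy2]
    -- contradiction
    apply hx₀F
    change ∀ᶠ s' in 𝓝 (x₀ : ℝ), idx s' = idx x₀ ∧ ContinuousAt T s'
    filter_upwards [Ioo_mem_nhds hab.1 hab.2] with s hs
    refine ⟨?_, ?_⟩
    · rw [hidx s hs, hidx x₀ hab]
    · by_cases hsF : s ∈ Oᶜ
      · exact hcontF s hs hsF
      · exact (hO1 s hsF).2

end Pool.Agent.Lib.MP_a9a15f_gt
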