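import Pool.Agent.Lib.MP_a9a15f_gt.Defs
import Pool.Agent.Lib.MP_a9a15f_gt.Lift

/-!
# The fixed point property of the model continuum
-/

set_option autoImplicit false

open Set Topology Filter
open scoped Real

namespace Pool.Agent.Lib.MP_a9a15f_gt

namespace Fpp

theorem cluster_mem {E : Type*} [TopologicalSpace E] {F : Filter ℝ} {u : ℝ → E} {x : E}
    {C : Set E} (hC : IsClosed C) (h : MapClusterPt x F u) (hu : ∀ᶠ t in F, u t ∈ C) : x ∈ C := by
  by_contra hx
  have h1 := (mapClusterPt_iff_frequently.mp h) Cᶜ (hC.isOpen_compl.mem_nhds hx)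
  obtain ⟨t, ht1, ht2⟩ := (h1.and_eventually hu).exists
  exact ht1 ht2

theorem cluster_congr {E : Type*} [TopologicalSpace E] {F : Filter ℝ} {u v : ℝ → E} {x : E}
    (h : MapClusterPt x F u) (huv : ∀ᶠ t in F, u t = v t) : MapClusterPt x F v := by
  rw [mapClusterPt_iff_frequently] at h ⊢
  intro s hs
  apply ((h s hs).and_eventually huv).mono
  rintro t ⟨h1, h2⟩
  rwa [← h2]

theorem cluster_map {E : Type*} [TopologicalSpace E] {F : Filter ℝ} {u : ℝ → E} {x : E}
    {K : Set E} {g : E → E} (hg : ContinuousOn g K) (hx : x ∈ K)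
    (h : MapClusterPt x F u) (hu : ∀ᶠ t in F, u t ∈ K) :
    MapClusterPt (g x) F (fun t => g (u t)) := by
  rw [mapClusterPt_iff_frequently] at h ⊢
  intro s hs
  have h1 : g ⁻¹' s ∈ 𝓝[K] x := hg x hx hs
  obtain ⟨U, hU, hU2⟩ := mem_nhdsWithin_iff_exists_mem_nhds_inter.mp h1
  apply ((h U hU).and_eventually hu).mono
  rintro t ⟨h2, h3⟩
  exact hU2 ⟨h2, h3⟩

theorem cluster_unique {E : Type*} [TopologicalSpace E] [T2Space E] {F : Filter ℝ} {u : ℝ → E}
    {x y : E} (h : MapClusterPt x F u) (hy : Tendsto u F (𝓝 y)) : x = y := by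
  have h1 : ClusterPt x (𝓝 y) := ClusterPt.mono h hy
  have : NeBot (𝓝 x ⊓ 𝓝 y) := h1
  exact eq_of_nhds_neBot this

/-- A closure point of a ray. -/
theorem closure_ray {E : Type*} [TopologicalSpace E] [T2Space E] {p : ℝ → E} (hp : Continuous p)
    {x : E} (hx : x ∈ closure (p '' Ici 0)) : x ∈ p '' Ici 0 ∨ MapClusterPt x atTop p := by
  by_cases hc : MapClusterPt x atTop p
  · exact Or.inr hc
  · left
    rw [mapClusterPt_iff_frequently] at hc
    push Not at hc
    obtain ⟨s, hs, hs2⟩ := hc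
    obtain ⟨T, hT⟩ := eventually_atTop.mp hs2
    have hcl : IsClosed (p '' Icc 0 T) := (isCompact_Icc.image hp).isClosed
    by_contra hcon
    have h1 : x ∉ p '' Icc 0 T := fun h => hcon (image_mono Icc_subset_Ici_self h)
    have h2 : s ∩ (p '' Icc 0 T)ᶜ ∈ 𝓝 x := inter_mem hs (hcl.isOpen_compl.mem_nhds h1)
    obtain ⟨y, ⟨hy1, hy2⟩, t, ht, rfl⟩ := mem_closure_iff_nhds.mp hx _ h2
    rcases le_total T t with h | h
    · exact hT t h hy1
    · exact hy2 ⟨t, ⟨ht, h⟩, rfl⟩

/-- A closure point of a line. -/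
theorem closure_line {E : Type*} [TopologicalSpace E] [T2Space E] {p : ℝ → E} (hp : Continuous p)
    {x : E} (hx : x ∈ closure (p '' univ)) :
    x ∈ p '' univ ∨ MapClusterPt x atTop p ∨ MapClusterPt x atBot p := by
  by_cases hc : MapClusterPt x atTop p
  · exact Or.inr (Or.inl hc)
  · by_cases hc' : MapClusterPt x atBot p
    · exact Or.inr (Or.inr hc')
    · left
      rw [mapClusterPt_iff_frequently] at hc hc'
      push Not at hc hc'
      obtain ⟨s, hs, hs2⟩ := hc
      obtain ⟨s', hs', hs2'⟩ := hc'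
      obtain ⟨T, hT⟩ := eventually_atTop.mp hs2
      obtain ⟨T', hT'⟩ := eventually_atBot.mp hs2'
      have hcl : IsClosed (p '' Icc T' T) := (isCompact_Icc.image hp).isClosed
      by_contra hcon
      have h1 : x ∉ p '' Icc T' T := fun h => hcon (image_mono (subset_univ _) h)
      have h2 : (s ∩ s') ∩ (p '' Icc T' T)ᶜ ∈ 𝓝 x :=
        inter_mem (inter_mem hs hs') (hcl.isOpen_compl.mem_nhds h1)
      obtain ⟨y, ⟨⟨hy1, hy1'⟩, hy2⟩, t, -, rfl⟩ := mem_closure_iff_nhds.mp hx _ h2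
      rcases le_total T t with h | h
      · exact hT t h hy1
      · rcases le_total t T' with h' | h'
        · exact hT' t h' hy1'
        · exact hy2 ⟨t, ⟨h', h⟩, rfl⟩

/-- A continuous function on a half line avoiding the even integers. -/
theorem exists_band {f : ℝ → ℝ} (hf : Continuous f) {T : ℝ}
    (h : ∀ t, T ≤ t → ∀ c : ℤ, f t ≠ 2 * c) :
    ∃ c : ℤ, ∀ t, T ≤ t → 2 * (c : ℝ) < f t ∧ f t < 2 * (c : ℝ) + 2 := by
  refine ⟨⌊f T / 2⌋, ?_⟩
  have hfl := Int.floor_le (f T / 2)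
  have hfl' := Int.lt_floor_add_one (f T / 2)
  set c : ℤ := ⌊f T / 2⌋ with hc
  intro t ht
  have hconn : IsPreconnected (Ici T) := isPreconnected_Ici
  have hT : T ∈ Ici T := self_mem_Ici
  constructor
  · by_contra hcon
    rw [not_lt] at hcon
    obtain ⟨s, hs, hs2⟩ := hconn.intermediate_value (show t ∈ Ici T from ht) hT hf.continuousOn
      (⟨hcon, by linarith⟩ : (2 * (c : ℝ)) ∈ Icc (f t) (f T))
    exact h s hs c hs2
  · by_contra hcon
    rw [not_lt] at hcon
    obtain ⟨s, hs, hs2⟩ := hconn.intermediate_value hT (show t ∈ Ici T from ht) hf.continuousOn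
      (⟨by linarith, hcon⟩ : (2 * (c : ℝ) + 2) ∈ Icc (f T) (f t))
    apply h s hs (c + 1)
    rw [hs2]
    push_cast
    ring

theorem hJ (i : Comp) : Jset i = Ici 0 ∨ Jset i = univ := by
  cases i <;> simp [Jset]

theorem mem_J {i : Comp} {t : ℝ} (ht : 0 ≤ t) : t ∈ Jset i := by
  cases i <;> simp [Jset, ht]

section

variable {E : Type*} [MetricSpace E] {P : Comp → ℝ → E} {ang : Comp → ℝ → ℝ}
    {Θ : E → ℂ} {e b1 b1' b2 b2' : ℝ} (hM : Model P ang Θ e b1 b1' b2 b2')

include hM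

theorem mem_im {i j : Comp} {s : ℝ} {A : Set ℝ} (hs : s ∈ Jset i) (hA : A ⊆ Jset j)
    (h : P i s ∈ P j '' A) : i = j ∧ s ∈ A := by
  obtain ⟨t, ht, hts⟩ := h
  obtain ⟨h1, h2⟩ := hM.inj i j s t hs (hA ht) hts.symm
  exact ⟨h1, h2 ▸ ht⟩

theorem top (i : Comp) (x : E) : ¬ Tendsto (P i) atTop (𝓝 x) := by
  intro hx
  have key : ∀ (j : Comp) (s t : ℝ), s ∈ Jset j → t ∈ Jset j → s ≠ t →
      MapClusterPt (P j s) atTop (P i) → MapClusterPt (P j t) atTop (P i) → False := by
    intro j s t hs ht hst h1 h2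
    have h3 := (cluster_unique h1 hx).trans (cluster_unique h2 hx).symm
    exact hst (hM.inj j j s t hs ht h3).2
  have he := hM.he
  cases i with
  | c1 =>
    exact key .c2 0 e (mem_J le_rfl) (mem_J he.le) he.ne
      ((hM.clT_c1 _).mpr ⟨0, left_mem_Icc.mpr he.le, rfl⟩)
      ((hM.clT_c1 _).mpr ⟨e, right_mem_Icc.mpr he.le, rfl⟩)
  | c2 =>
    exact key .c1 0 e (mem_J le_rfl) (mem_J he.le) he.ne
      ((hM.clT_c2 _).mpr ⟨0, left_mem_Icc.mpr he.le, rfl⟩)
      ((hM.clT_c2 _).mpr ⟨e, right_mem_Icc.mpr he.le, rfl⟩)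
  | h =>
    exact key .c1 0 e (mem_J le_rfl) (mem_J he.le) he.ne
      ((hM.clT_h _).mpr (Or.inl ⟨0, self_mem_Ici, rfl⟩))
      ((hM.clT_h _).mpr (Or.inl ⟨e, he.le, rfl⟩))
  | l1 =>
    exact key .c1 0 e (mem_J le_rfl) (mem_J he.le) he.ne
      ((hM.clT_l1 _).mpr (Or.inl ⟨0, self_mem_Ici, rfl⟩))
      ((hM.clT_l1 _).mpr (Or.inl ⟨e, he.le, rfl⟩))
  | l2 =>
    exact key .c1 0 e (mem_J le_rfl) (mem_J he.le) he.ne
      ((hM.clT_l2 _).mpr (Or.inl ⟨0, self_mem_Ici, rfl⟩))
      ((hM.clT_l2 _).mpr (Or.inl ⟨e, he.le, rfl⟩))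

theorem b_nonneg : 0 ≤ b1 ∧ 0 ≤ b1' ∧ 0 ≤ b2 ∧ 0 ≤ b2' := by
  have h1 := hM.hb2
  have h2 := hM.hb22
  have h3 := hM.hb21
  have h4 := hM.hb11
  exact ⟨by linarith, by linarith, by linarith, by linarith⟩

theorem bot (i : Comp) (hi : Jset i = univ) (x : E) : ¬ Tendsto (P i) atBot (𝓝 x) := by
  intro hx
  have key : ∀ (j : Comp) (s t : ℝ), s ∈ Jset j → t ∈ Jset j → s ≠ t →
      MapClusterPt (P j s) atBot (P i) → MapClusterPt (P j t) atBot (P i) → False := by
    intro j s t hs ht hst h1 h2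
    have h3 := (cluster_unique h1 hx).trans (cluster_unique h2 hx).symm
    exact hst (hM.inj j j s t hs ht h3).2
  have hno : (Ici (0 : ℝ)) ≠ univ := by
    intro h
    have : (-1 : ℝ) ∈ Ici (0 : ℝ) := by rw [h]; exact mem_univ _
    rw [mem_Ici] at this
    linarith
  obtain ⟨n1, n2, n3, n4⟩ := b_nonneg hM
  have h2 := hM.hb22
  have h4 := hM.hb11
  cases i with
  | c1 => exact hno hi
  | c2 => exact hno hi
  | h => exact hno hi
  | l1 =>
    exact key .h b1 b1' (mem_J n1) (mem_J n2) h4.ne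
      ((hM.clB_l1 _).mpr ⟨b1, left_mem_Icc.mpr h4.le, rfl⟩)
      ((hM.clB_l1 _).mpr ⟨b1', right_mem_Icc.mpr h4.le, rfl⟩)
  | l2 =>
    exact key .h b2 b2' (mem_J n3) (mem_J n4) h2.ne
      ((hM.clB_l2 _).mpr ⟨b2, left_mem_Icc.mpr h2.le, rfl⟩)
      ((hM.clB_l2 _).mpr ⟨b2', right_mem_Icc.mpr h2.le, rfl⟩)

/-- The circle-like part. -/
def Mset (P : Comp → ℝ → E) : Set E := P .c1 '' Ici 0 ∪ P .c2 '' Ici 0

theorem cl_c1 {x : E} (hx : x ∈ closure (P .c1 '' Jset .c1)) :
    x ∈ P .c1 '' Ici 0 ∪ P .c2 '' Icc 0 e := by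
  rcases closure_ray (hM.cont _) hx with h | h
  · exact Or.inl h
  · exact Or.inr ((hM.clT_c1 x).mp h)

theorem cl_c2 {x : E} (hx : x ∈ closure (P .c2 '' Jset .c2)) :
    x ∈ P .c2 '' Ici 0 ∪ P .c1 '' Icc 0 e := by
  rcases closure_ray (hM.cont _) hx with h | h
  · exact Or.inl h
  · exact Or.inr ((hM.clT_c2 x).mp h)

theorem cl_h {x : E} (hx : x ∈ closure (P .h '' Jset .h)) :
    x ∈ P .h '' Ici 0 ∪ Mset P := by
  rcases closure_ray (hM.cont _) hx with h | h
  · exact Or.inl h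
  · exact Or.inr ((hM.clT_h x).mp h)

theorem cl_l1 {x : E} (hx : x ∈ closure (P .l1 '' Jset .l1)) :
    x ∈ P .l1 '' univ ∪ (Mset P ∪ P .h '' Icc b1 b1') := by
  rcases closure_line (hM.cont _) hx with h | h | h
  · exact Or.inl h
  · exact Or.inr (Or.inl ((hM.clT_l1 x).mp h))
  · exact Or.inr (Or.inr ((hM.clB_l1 x).mp h))

theorem cl_l2 {x : E} (hx : x ∈ closure (P .l2 '' Jset .l2)) :
    x ∈ P .l2 '' univ ∪ (Mset P ∪ P .h '' Icc b2 b2') := by
  rcases closure_line (hM.cont _) hx with h | h | h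
  · exact Or.inl h
  · exact Or.inr (Or.inl ((hM.clT_l2 x).mp h))
  · exact Or.inr (Or.inr ((hM.clB_l2 x).mp h))

end

end Fpp

open Fpp in
/-- The model continuum has the fixed point property. -/
theorem fpp_of_model {E : Type*} [MetricSpace E] {P : Comp → ℝ → E} {ang : Comp → ℝ → ℝ}
    {Θ : E → ℂ} {e b1 b1' b2 b2' : ℝ} (hM : Model P ang Θ e b1 b1' b2 b2') (g : E → E)
    (hg : ContinuousOn g (⋃ i, P i '' Jset i))
    (hmaps : MapsTo g (⋃ i, P i '' Jset i) (⋃ i, P i '' Jset i)) :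
    ∃ x ∈ ⋃ i, P i '' Jset i, g x = x := by
  by_contra hno
  push Not at hno
  set K : Set E := ⋃ i, P i '' Jset i with hK
  have hKmem : ∀ i t, t ∈ Jset i → P i t ∈ K := by
    intro i t ht
    rw [hK, mem_iUnion]
    exact ⟨i, t, ht, rfl⟩
  have hKc : IsCompact K := hM.compact
  have hKcl : IsClosed K := hKc.isClosed
  obtain ⟨nb1, nb1', nb2, nb2'⟩ := b_nonneg hM
  -- lifting
  have lift : ∀ i, ∃ j, ∃ τ : ℝ → ℝ, Continuous τ ∧ (∀ s, τ s ∈ Jset j) ∧
      ∀ s ∈ Jset i, g (P i s) = P j (τ s) := by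
    intro i
    have hρ : ∃ ρ : ℝ → ℝ, Continuous ρ ∧ (∀ s, ρ s ∈ Jset i) ∧ ∀ s ∈ Jset i, ρ s = s := by
      rcases Fpp.hJ i with h | h
      · refine ⟨fun s : ℝ => max s 0, by fun_prop, ?_, ?_⟩
        · intro s
          rw [h]
          exact le_max_right s 0
        · intro s hs
          have hs' : (0 : ℝ) ≤ s := by rw [h] at hs; exact hs
          exact max_eq_left hs'
      · refine ⟨fun s => s, continuous_id, ?_, fun s _ => rfl⟩
        intro s
        rw [h]
        exact mem_univ _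
    obtain ⟨ρ, hρ1, hρ2, hρ3⟩ := hρ
    obtain ⟨j, τ, h1, h2, h3⟩ := path_lift P Jset Fpp.hJ hM.cont hM.inj (Fpp.top hM) (Fpp.bot hM)
      (fun s => g (P i (ρ s))) (hg.comp_continuous ((hM.cont i).comp hρ1)
        (fun s => hKmem i _ (hρ2 s))) (by
        intro s
        have := hmaps (hKmem i _ (hρ2 s))
        rw [hK, mem_iUnion] at this
        obtain ⟨j, t, ht, htj⟩ := this
        exact ⟨j, t, ht, htj⟩)
    refine ⟨j, τ, h1, h2, ?_⟩
    intro s hs
    have := h3 s
    rwa [hρ3 s hs] at this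
  choose σ τ hτc hτJ hτ using lift
  -- no fixed parameter
  have hne : ∀ i, σ i = i → ∀ t ∈ Jset i, τ i t ≠ t := by
    intro i hi t ht htt
    apply hno (P i t) (hKmem i t ht)
    rw [hτ i t ht, hi, htt]
  have hray : ∀ i, Jset i = Ici 0 → σ i = i → ∀ t, 0 ≤ t → t < τ i t := by
    intro i hJi hi t ht
    by_contra hcon
    rw [not_lt] at hcon
    have h0 : 0 ≤ τ i 0 := by
      have := hτJ i 0
      rw [hi, hJi] at this
      exact this
    obtain ⟨s, hs, hs2⟩ := (isPreconnected_Ici (a := (0 : ℝ))).intermediate_value₂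
      (f := fun t => τ i t) (g := fun t => t) (show t ∈ Ici (0 : ℝ) from ht)
      (show (0 : ℝ) ∈ Ici (0 : ℝ) from self_mem_Ici) (hτc i).continuousOn continuousOn_id hcon h0
    exact hne i hi s (by rw [hJi]; exact hs) hs2
  have hline : ∀ i, Jset i = univ → σ i = i → (∀ t, t < τ i t) ∨ (∀ t, τ i t < t) := by
    intro i hJi hi
    by_contra hcon
    push Not at hcon
    obtain ⟨⟨t1, h1⟩, t2, h2⟩ := hcon
    obtain ⟨s, hs, hs2⟩ := (isPreconnected_univ (α := ℝ)).intermediate_value₂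
      (f := fun t => τ i t) (g := fun t => t) (mem_univ t1) (mem_univ t2) (hτc i).continuousOn
      continuousOn_id h1 h2
    exact hne i hi s (by rw [hJi]; exact hs) hs2
  -- propagation of cluster points
  have hevT : ∀ i, ∀ᶠ t in atTop, t ∈ Jset i := by
    intro i
    filter_upwards [eventually_ge_atTop (0 : ℝ)] with t ht
    exact mem_J ht
  have hclT : ∀ i x, MapClusterPt x atTop (P i) →
      MapClusterPt (g x) atTop (fun t => P (σ i) (τ i t)) := by
    intro i x hx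
    have hu : ∀ᶠ t in atTop, P i t ∈ K := (hevT i).mono fun t ht => hKmem i t ht
    have h1 := cluster_map hg (cluster_mem hKcl hx hu) hx hu
    apply cluster_congr h1
    filter_upwards [hevT i] with t ht
    exact hτ i t ht
  have hclB : ∀ i, Jset i = univ → ∀ x, MapClusterPt x atBot (P i) →
      MapClusterPt (g x) atBot (fun t => P (σ i) (τ i t)) := by
    intro i hi x hx
    have hJi : ∀ t, t ∈ Jset i := fun t => by rw [hi]; exact mem_univ t
    have hu : ∀ᶠ t in atBot, P i t ∈ K := Eventually.of_forall fun t => hKmem i t (hJi t)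
    have h1 := cluster_map hg (cluster_mem hKcl hx hu) hx hu
    apply cluster_congr h1
    exact Eventually.of_forall fun t => hτ i t (hJi t)
  have hcloT : ∀ i x, MapClusterPt x atTop (P i) → g x ∈ closure (P (σ i) '' Jset (σ i)) := by
    intro i x hx
    exact cluster_mem isClosed_closure (hclT i x hx)
      (Eventually.of_forall fun t => subset_closure ⟨_, hτJ i t, rfl⟩)
  have hcloB : ∀ i, Jset i = univ → ∀ x, MapClusterPt x atBot (P i) →
      g x ∈ closure (P (σ i) '' Jset (σ i)) := by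
    intro i hi x hx
    exact cluster_mem isClosed_closure (hclB i hi x hx)
      (Eventually.of_forall fun t => subset_closure ⟨_, hτJ i t, rfl⟩)
  have hTT : ∀ i x, Tendsto (τ i) atTop atTop → MapClusterPt x atTop (P i) →
      MapClusterPt (g x) atTop (P (σ i)) := by
    intro i x hτi hx
    exact MapClusterPt.of_comp hτi (hclT i x hx)
  have hBB : ∀ i, Jset i = univ → ∀ x, Tendsto (τ i) atBot atBot → MapClusterPt x atBot (P i) →
      MapClusterPt (g x) atBot (P (σ i)) := by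
    intro i hi x hτi hx
    exact MapClusterPt.of_comp hτi (hclB i hi x hx)
  have htend : ∀ i, (∀ t, 0 ≤ t → t < τ i t) → Tendsto (τ i) atTop atTop := by
    intro i h
    apply tendsto_atTop_mono' atTop _ tendsto_id
    filter_upwards [eventually_ge_atTop (0 : ℝ)] with t ht
    exact (h t ht).le
  -- Step 1
  have step1 : ∀ i j, Jset i = Ici 0 → Jset j = Ici 0 →
      (∀ x, MapClusterPt x atTop (P i) ↔ x ∈ P j '' Icc 0 e) → σ i ≠ i := by
    intro i j hi hj hcl hσ
    have h1 := htend i (hray i hi hσ)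
    have h2 : ∀ t ∈ Icc 0 e, g (P j t) ∈ P j '' Icc 0 e := by
      intro t ht
      have h3 := hTT i (P j t) h1 ((hcl _).mpr ⟨t, ht, rfl⟩)
      rw [hσ] at h3
      exact (hcl _).mp h3
    have hsub : Icc 0 e ⊆ Jset j := by rw [hj]; exact Icc_subset_Ici_self
    have he := hM.he
    have h3 := h2 e (right_mem_Icc.mpr he.le)
    rw [hτ j e (mem_J he.le)] at h3
    obtain ⟨h4, h5⟩ := mem_im hM (hτJ j e) hsub h3
    have h6 := hray j hj h4 e he.le
    exact absurd h5.2 (not_le.mpr h6)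
  have s1 : σ .c1 ≠ .c1 := step1 .c1 .c2 rfl rfl hM.clT_c1
  have s2 : σ .c2 ≠ .c2 := step1 .c2 .c1 rfl rfl hM.clT_c2
  -- Step 2
  have hMmem : ∀ i s, s ∈ Jset i → P i s ∈ Mset P → i = .c1 ∨ i = .c2 := by
    intro i s hs h
    rcases h with h | h
    · exact Or.inl (mem_im hM hs (j := .c1) (fun x hx => hx) h).1
    · exact Or.inr (mem_im hM hs (j := .c2) (fun x hx => hx) h).1
  have step2 : (∀ x ∈ Mset P, g x ∈ Mset P) → σ .c1 = .c2 ∧ σ .c2 = .c1 := by
    intro h
    constructor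
    · have h1 := h (P .c1 0) (Or.inl ⟨0, self_mem_Ici, rfl⟩)
      rw [hτ .c1 0 (mem_J le_rfl)] at h1
      rcases hMmem _ _ (hτJ .c1 0) h1 with h2 | h2
      · exact absurd h2 s1
      · exact h2
    · have h1 := h (P .c2 0) (Or.inr ⟨0, self_mem_Ici, rfl⟩)
      rw [hτ .c2 0 (mem_J le_rfl)] at h1
      rcases hMmem _ _ (hτJ .c2 0) h1 with h2 | h2
      · exact h2
      · exact absurd h2 s2
  -- Step 3
  have step3 : ∀ i j, (i = Comp.c1 ∧ j = Comp.c2 ∨ i = Comp.c2 ∧ j = Comp.c1) →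
      (∀ x, MapClusterPt x atTop (P i) ↔ x ∈ P j '' Icc 0 e) →
      (∀ x ∈ closure (P i '' Jset i), x ∈ P i '' Ici 0 ∪ P j '' Icc 0 e) → σ .h ≠ i := by
    intro i j hij hclT' hcl hσ
    have hJi : Jset i = Ici 0 := by rcases hij with ⟨h, _⟩ | ⟨h, _⟩ <;> rw [h] <;> rfl
    have hJj : Jset j = Ici 0 := by rcases hij with ⟨_, h⟩ | ⟨_, h⟩ <;> rw [h] <;> rfl
    have hsub : Icc 0 e ⊆ Jset j := by rw [hJj]; exact Icc_subset_Ici_self
    have hne' : i ≠ j := by rcases hij with ⟨h, h'⟩ | ⟨h, h'⟩ <;> rw [h, h'] <;> decide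
    have hMsub : P i '' Ici 0 ∪ P j '' Icc 0 e ⊆ Mset P := by
      rcases hij with ⟨h, h'⟩ | ⟨h, h'⟩
      · subst h; subst h'
        exact union_subset_union_right _ (image_mono Icc_subset_Ici_self)
      · subst h; subst h'
        rw [union_comm]
        exact union_subset_union_left _ (image_mono Icc_subset_Ici_self)
    have hg1 : ∀ x ∈ Mset P, g x ∈ P i '' Ici 0 ∪ P j '' Icc 0 e := by
      intro x hx
      apply hcl
      have h1 := hcloT .h x ((hM.clT_h x).mpr hx)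
      rwa [hσ] at h1
    have hsw := step2 fun x hx => hMsub (hg1 x hx)
    have hσi : σ i = j := by
      rcases hij with ⟨h, h'⟩ | ⟨h, h'⟩
      · rw [h, h']; exact hsw.1
      · rw [h, h']; exact hsw.2
    have hσj : σ j = i := by
      rcases hij with ⟨h, h'⟩ | ⟨h, h'⟩
      · rw [h, h']; exact hsw.2
      · rw [h, h']; exact hsw.1
    -- the image of the component i lies in a compact arc
    have h2 : ∀ t, 0 ≤ t → P (σ i) (τ i t) ∈ P j '' Icc 0 e := by
      intro t ht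
      have hx : P i t ∈ Mset P := hMsub (Or.inl ⟨t, ht, rfl⟩)
      have h3 := hg1 _ hx
      rw [hτ i t (mem_J ht)] at h3
      rcases h3 with h3 | h3
      · obtain ⟨h4, -⟩ := mem_im hM (hτJ i t) (j := i) (A := Ici 0) (by rw [hJi]) h3
        rw [hσi] at h4
        exact absurd h4.symm hne'
      · exact h3
    have he := hM.he
    have h3 : g (P j 0) ∈ P j '' Icc 0 e := by
      have h4 := hclT i (P j 0) ((hclT' _).mpr ⟨0, left_mem_Icc.mpr he.le, rfl⟩)
      apply cluster_mem ((isCompact_Icc.image (hM.cont j)).isClosed) h4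
      filter_upwards [eventually_ge_atTop (0 : ℝ)] with t ht
      exact h2 t ht
    rw [hτ j 0 (mem_J le_rfl)] at h3
    obtain ⟨h4, -⟩ := mem_im hM (hτJ j 0) hsub h3
    rw [hσj] at h4
    exact hne' h4
  have s3 : σ .h ≠ .c1 := step3 .c1 .c2 (Or.inl ⟨rfl, rfl⟩) hM.clT_c1 fun x hx => cl_c1 hM hx
  have s3' : σ .h ≠ .c2 := step3 .c2 .c1 (Or.inr ⟨rfl, rfl⟩) hM.clT_c2 fun x hx => cl_c2 hM hx
  -- the angular lag
  have lag : (∀ x ∈ Mset P, g x ∈ Mset P) → ∀ i, (i = Comp.h ∨ i = Comp.l1 ∨ i = Comp.l2) →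
      (σ i = Comp.h ∨ σ i = Comp.l1 ∨ σ i = Comp.l2) →
      (∀ x, MapClusterPt x atTop (P i) → x ∈ Mset P) →
      ∃ (T : ℝ) (c : ℤ), ∀ t, T ≤ t → 2 * (c : ℝ) < ang (σ i) (τ i t) - ang i t ∧
        ang (σ i) (τ i t) - ang i t < 2 * (c : ℝ) + 2 := by
    intro hgM i hi hσi hcl
    obtain ⟨hs1, hs2⟩ := step2 hgM
    set Z : Set E := {x ∈ K | Θ (g x) = Θ x} with hZ
    have hZmiss : ∀ x ∈ Mset P, x ∉ Z := by
      rintro x (⟨s, hs, rfl⟩ | ⟨s, hs, rfl⟩) ⟨-, hx⟩
      · rw [hτ .c1 s hs, hs1] at hx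
        have h1 : (0 : ℝ) ≤ τ .c1 s := by
          have := hτJ .c1 s
          rw [hs1] at this
          exact this
        exact hM.Θc s hs _ h1 hx.symm
      · rw [hτ .c2 s hs, hs2] at hx
        have h1 : (0 : ℝ) ≤ τ .c2 s := by
          have := hτJ .c2 s
          rw [hs2] at this
          exact this
        exact hM.Θc _ h1 s hs hx
    have hZc : IsCompact Z := by
      have h1 : ContinuousOn (fun x => Θ (g x) - Θ x) K :=
        (hM.Θcont.comp hg hmaps).sub hM.Θcont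
      have h2 : IsClosed (K ∩ (fun x => Θ (g x) - Θ x) ⁻¹' {0}) :=
        h1.preimage_isClosed_of_isClosed hKcl isClosed_singleton
      have h3 : Z = K ∩ (fun x => Θ (g x) - Θ x) ⁻¹' {0} := by
        ext x
        simp only [hZ, mem_sep_iff, mem_inter_iff, mem_preimage, mem_singleton_iff, sub_eq_zero]
      rw [h3]
      exact hKc.of_isClosed_subset h2 inter_subset_left
    have hev : ∀ᶠ t in atTop, P i t ∉ Z := by
      by_contra hcon
      have hfr : ∃ᶠ t in atTop, P i t ∈ Z := by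
        intro h
        apply hcon
        exact h
      obtain ⟨x, hxZ, hx⟩ := hZc.exists_mapClusterPt_of_frequently hfr
      exact hZmiss x (hcl x hx) hxZ
    obtain ⟨T, hT⟩ := eventually_atTop.mp hev
    obtain ⟨c, hc⟩ := exists_band (f := fun t => ang (σ i) (τ i t) - ang i t)
      (((hM.angcont _).comp (hτc i)).sub (hM.angcont i)) (T := max T 0) (by
        intro t ht c hcc
        have ht0 : 0 ≤ t := (le_max_right _ _).trans ht
        apply hT t ((le_max_left _ _).trans ht)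
        refine ⟨hKmem i t (mem_J ht0), ?_⟩
        rw [hτ i t (mem_J ht0), hM.Θh _ hσi _ (hτJ i t), hM.Θh i hi t (mem_J ht0)]
        rw [Complex.exp_eq_exp_iff_exists_int]
        refine ⟨c, ?_⟩
        have h1 : ang (σ i) (τ i t) = ang i t + 2 * c := by linarith
        rw [h1]
        push_cast
        ring)
    exact ⟨max T 0, c, hc⟩
  -- Step 4
  have hbarh1 : Icc b1 b1' ⊆ Jset .h := fun x hx => mem_J (nb1.trans hx.1)
  have hbarh2 : Icc b2 b2' ⊆ Jset .h := fun x hx => mem_J (nb2.trans hx.1)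
  have closmem : ∀ i s j, s ∈ Jset i → P i s ∈ closure (P j '' Jset j) →
      (i = .l1 → j = .l1) ∧ (i = .l2 → j = .l2) ∧ (i = .h → j ≠ .c1 ∧ j ≠ .c2) ∧
      (i = .h → j = .l1 → s ∈ Icc b1 b1') ∧ (i = .h → j = .l2 → s ∈ Icc b2 b2') := by
    intro i s j hs h
    cases j with
    | c1 =>
      have h1 : i = .c1 ∨ i = .c2 := by
        rcases cl_c1 hM h with h | h
        · exact Or.inl (mem_im hM hs (j := .c1) (fun x hx => hx) h).1
        · exact Or.inr (mem_im hM hs (j := .c2) (fun x hx => hx.1) h).1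
      rcases h1 with rfl | rfl <;> simp
    | c2 =>
      have h1 : i = .c2 ∨ i = .c1 := by
        rcases cl_c2 hM h with h | h
        · exact Or.inl (mem_im hM hs (j := .c2) (fun x hx => hx) h).1
        · exact Or.inr (mem_im hM hs (j := .c1) (fun x hx => hx.1) h).1
      rcases h1 with rfl | rfl <;> simp
    | h =>
      have h1 : i = .h ∨ i = .c1 ∨ i = .c2 := by
        rcases cl_h hM h with h | h
        · exact Or.inl (mem_im hM hs (j := .h) (fun x hx => hx) h).1
        · exact Or.inr (hMmem i s hs h)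
      rcases h1 with rfl | rfl | rfl <;> simp
    | l1 =>
      have h1 : i = .l1 ∨ (i = .c1 ∨ i = .c2) ∨ (i = .h ∧ s ∈ Icc b1 b1') := by
        rcases cl_l1 hM h with h | h | h
        · exact Or.inl (mem_im hM hs (j := .l1) (fun x hx => hx) h).1
        · exact Or.inr (Or.inl (hMmem i s hs h))
        · exact Or.inr (Or.inr (mem_im hM hs hbarh1 h))
      rcases h1 with rfl | (rfl | rfl) | ⟨rfl, h2⟩
      · simp
      · simp
      · simp
      · simpa using h2
    | l2 =>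
      have h1 : i = .l2 ∨ (i = .c1 ∨ i = .c2) ∨ (i = .h ∧ s ∈ Icc b2 b2') := by
        rcases cl_l2 hM h with h | h | h
        · exact Or.inl (mem_im hM hs (j := .l2) (fun x hx => hx) h).1
        · exact Or.inr (Or.inl (hMmem i s hs h))
        · exact Or.inr (Or.inr (mem_im hM hs hbarh2 h))
      rcases h1 with rfl | (rfl | rfl) | ⟨rfl, h2⟩
      · simp
      · simp
      · simp
      · simpa using h2
  have step4 : ∀ i (a a' : ℝ), 0 ≤ a → a ≤ a' → (i = Comp.l1 ∨ i = Comp.l2) →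
      (∀ x, MapClusterPt x atBot (P i) ↔ x ∈ P .h '' Icc a a') →
      (∀ x, MapClusterPt x atTop (P i) ↔ x ∈ Mset P) → NoAhead (ang i) → σ .h ≠ i := by
    intro i a a' ha haa hi hB hT hA hσ
    have hJi : Jset i = univ := by rcases hi with h | h <;> rw [h] <;> rfl
    have hih : i ≠ .h := by rcases hi with h | h <;> rw [h] <;> decide
    have hx := (hB (P .h a)).mpr ⟨a, left_mem_Icc.mpr haa, rfl⟩
    have h1 := hcloB i hJi _ hx
    rw [hτ .h a (mem_J ha), hσ] at h1
    have hJa : τ .h a ∈ Jset i := by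
      have := hτJ .h a
      rwa [hσ] at this
    have h2 := closmem i (τ .h a) (σ i) hJa h1
    have hσi : σ i = i := by
      rcases hi with h | h
      · rw [h2.1 h, h]
      · rw [h2.2.1 h, h]
    rcases hline i hJi hσi with h3 | h3
    · have hgM : ∀ x ∈ Mset P, g x ∈ Mset P := by
        intro x hx
        have h4 := hTT i x (htend i fun t _ => h3 t) ((hT x).mpr hx)
        rw [hσi] at h4
        exact (hT _).mp h4
      have hi' : i = Comp.h ∨ i = Comp.l1 ∨ i = Comp.l2 := Or.inr hi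
      obtain ⟨T, c, hc⟩ := lag hgM i hi' (by rw [hσi]; exact hi') (fun x hx => (hT x).mp hx)
      rw [hσi] at hc
      exact hA (τ i) (hτc i) h3 T c hc
    · have h4 : Tendsto (τ i) atBot atBot :=
        tendsto_atBot_mono (fun t => (h3 t).le) tendsto_id
      have h5 := hBB i hJi _ h4 hx
      rw [hσi, hB, hτ .h a (mem_J ha), hσ] at h5
      exact hih (mem_im hM hJa (j := .h) (fun x hx => mem_J (ha.trans hx.1)) h5).1
  have s4 : σ .h ≠ .l1 := step4 .l1 b1 b1' nb1 hM.hb11.le (Or.inl rfl) hM.clB_l1 hM.clT_l1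
    hM.ahead1
  have s4' : σ .h ≠ .l2 := step4 .l2 b2 b2' nb2 hM.hb22.le (Or.inr rfl) hM.clB_l2 hM.clT_l2
    hM.ahead2
  -- Step 5
  have hσh : σ .h = .h := by
    cases hh : σ .h with
    | c1 => exact absurd hh s3
    | c2 => exact absurd hh s3'
    | h => rfl
    | l1 => exact absurd hh s4
    | l2 => exact absurd hh s4'
  have hτh : ∀ t, 0 ≤ t → t < τ .h t := hray .h rfl hσh
  have hgM : ∀ x ∈ Mset P, g x ∈ Mset P := by
    intro x hx
    have h1 := hTT .h x (htend .h hτh) ((hM.clT_h x).mpr hx)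
    rw [hσh] at h1
    exact (hM.clT_h _).mp h1
  have hbar : ∀ t ∈ Icc b1 b1', P .h (τ .h t) ∈ closure (P (σ .l1) '' Jset (σ .l1)) := by
    intro t ht
    have h1 := hcloB .l1 rfl (P .h t) ((hM.clB_l1 _).mpr ⟨t, ht, rfl⟩)
    rw [hτ .h t (hbarh1 ht), hσh] at h1
    exact h1
  have hJh : ∀ t, τ .h t ∈ Jset .h := by
    intro t
    have := hτJ .h t
    rwa [hσh] at this
  cases hσ1 : σ .l1 with
  | c1 =>
    have h1 := hbar b1 (left_mem_Icc.mpr hM.hb11.le)
    exact (closmem .h _ _ (hJh b1) h1).2.2.1 rfl |>.1 hσ1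
  | c2 =>
    have h1 := hbar b1 (left_mem_Icc.mpr hM.hb11.le)
    exact (closmem .h _ _ (hJh b1) h1).2.2.1 rfl |>.2 hσ1
  | l1 =>
    have h1 := hbar b1' (right_mem_Icc.mpr hM.hb11.le)
    have h2 := (closmem .h _ _ (hJh b1') h1).2.2.2.1 rfl hσ1
    exact absurd h2.2 (not_le.mpr (hτh b1' nb1'))
  | l2 =>
    have h1 := hbar b1 (left_mem_Icc.mpr hM.hb11.le)
    have h2 := (closmem .h _ _ (hJh b1) h1).2.2.2.2 rfl hσ1
    have h3 := hτh b1 nb1
    have h4 := hM.hb21
    linarith [h2.2]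
  | h =>
    -- the parameter goes to infinity
    have hinf : Tendsto (τ .l1) atTop atTop := by
      rw [tendsto_atTop]
      intro N
      by_contra hcon
      have hfr : ∃ᶠ t in atTop, τ .l1 t ∈ Icc 0 N := by
        intro h
        apply hcon
        filter_upwards [h] with t ht
        by_contra h2
        apply ht
        have h3 : (0 : ℝ) ≤ τ .l1 t := by
          have := hτJ .l1 t
          rw [hσ1] at this
          exact this
        exact ⟨h3, (not_le.mp h2).le⟩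
      set F : Filter ℝ := atTop ⊓ 𝓟 {t | τ .l1 t ∈ Icc 0 N} with hF
      have hFne : NeBot F := frequently_iff_neBot.mp hfr
      have hFle : F ≤ atTop := inf_le_left
      obtain ⟨x, hxK, hx⟩ := hKc.exists_mapClusterPt_of_frequently (l := F) (f := P .l1)
        (Eventually.frequently (Eventually.of_forall fun t => hKmem .l1 t (mem_univ t)))
      have hxM : x ∈ Mset P := (hM.clT_l1 x).mp (hx.mono hFle)
      have h1 : MapClusterPt (g x) F (fun t => g (P .l1 t)) :=
        cluster_map hg hxK hx (Eventually.of_forall fun t => hKmem .l1 t (mem_univ t))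
      have h2 : g x ∈ P .h '' Icc 0 N := by
        apply cluster_mem ((isCompact_Icc.image (hM.cont .h)).isClosed) h1
        have h3 : ∀ᶠ t in F, τ .l1 t ∈ Icc 0 N := by
          rw [hF]
          exact eventually_inf_principal.mpr (Eventually.of_forall fun t ht => ht)
        filter_upwards [h3] with t ht
        rw [hτ .l1 t (mem_univ t), hσ1]
        exact ⟨_, ht, rfl⟩
      have h3 := hgM x hxM
      obtain ⟨s, hs, hsx⟩ := h2
      rw [← hsx] at h3
      rcases hMmem .h s (mem_J hs.1) h3 with h4 | h4 <;> simp at h4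
    obtain ⟨T, c, hc⟩ := lag hgM .l1 (Or.inr (Or.inl rfl)) (Or.inl hσ1)
      (fun x hx => (hM.clT_l1 x).mp hx)
    rw [hσ1] at hc
    exact hM.fold (τ .l1) (hτc .l1) hinf T c hc

end Pool.Agent.Lib.MP_a9a15f_gt
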