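import Pool.Agent.Lib.MP_a9a15f_gt.Map

/-!
# The disk meets the continuum in the arc
-/

set_option autoImplicit false

open Set Topology Filter
open scoped Real

namespace Pool.Agent.Lib.MP_a9a15f_gt

theorem five_le_norm {z : ℂ} (hz : z ∈ DD) : 5 ≤ ‖z‖ :=
  hz.1.trans (Complex.re_le_norm z)

theorem Phi_notMem_DD {x s : ℝ} (hs : 1 < s) : Phi x s ∉ DD := by
  intro h
  have h1 := five_le_norm h
  have hs0 : 0 < s := by linarith
  rw [norm_Phi hs0] at h1
  have h2 := rad_le (x := x) hs0
  have h3 := U_strictAnti one_pos hs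
  rw [U_eq (by norm_num : (1:ℝ) / 2 ≤ 1) (by norm_num)] at h3
  linarith

/-- points with angle in `(0, 1]` are not in the disk -/
theorem Phi_notMem_DD' {x s : ℝ} (hs : 0 < s) (h0 : 0 < x) (h1 : x ≤ 1) : Phi x s ∉ DD := by
  intro h
  have hr := rad_pos (x := x) hs
  have e : Phi x s = (rad x s : ℂ) * Complex.exp (((π * x : ℝ) : ℂ) * Complex.I) := by
    unfold Phi
    push_cast
    ring_nf
  rcases h1.eq_or_lt with h1 | h1
  · have h2 : (Phi x s).re = - rad x s := by
      rw [e, Complex.re_ofReal_mul, Complex.exp_ofReal_mul_I_re, h1, mul_one, Real.cos_pi]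
      ring
    have h3 := h.1
    rw [h2] at h3
    linarith
  · have h2 : (Phi x s).im = rad x s * Real.sin (π * x) := by
      rw [e, Complex.im_ofReal_mul, Complex.exp_ofReal_mul_I_im]
    have h3 := h.2.2.2
    have h4 : 0 < Real.sin (π * x) := by
      apply Real.sin_pos_of_pos_of_lt_pi
      · positivity
      · have := Real.pi_pos
        nlinarith
    rw [h2] at h3
    have h5 : 0 < rad x s * Real.sin (π * x) := by positivity
    linarith

theorem al1_ge {t : ℝ} (ht : 0 ≤ t) : 1 ≤ al1 t := by
  rw [al1_of_nonneg ht]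
  have := floor_sq_le_zeta ht
  have h2 : (0:ℝ) ≤ (⌊t⌋ : ℝ) ^ 2 := sq_nonneg _
  linarith

theorem al2_ge {t : ℝ} (ht : 0 ≤ t) : 1 ≤ al2 t := by
  unfold al2
  have := al1_ge ht
  have h2 : 0 ≤ max (min t 1) 0 := le_max_right _ _
  linarith

/-- Piece F, first part. -/
theorem DD_inter_KK : DD ∩ KK = AA := by
  apply Subset.antisymm
  · rintro z ⟨hz, hK⟩
    obtain ⟨i, t, ht, rfl⟩ := mem_iUnion.1 hK
    have hcase : ∀ t : ℝ, t ≤ 0 → 0 < 1 / (1 - t) ∧ 1 / (1 - t) ≤ 1 := by
      intro t ht
      constructor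
      · apply div_pos one_pos
        linarith
      · rw [div_le_one (by linarith)]
        linarith
    cases i
    · exfalso
      have h1 := five_le_norm hz
      have h2 : PP .c1 t = Cc (max t 0) := rfl
      rw [h2, norm_Cc] at h1
      linarith [rc_le (max t 0)]
    · exfalso
      have h1 := five_le_norm hz
      have h2 : PP .c2 t = - Cc (max t 0) := rfl
      rw [h2, norm_neg, norm_Cc] at h1
      linarith [rc_le (max t 0)]
    · rcases le_or_gt t 1 with h1 | h1
      · rw [AA_eq]
        exact ⟨t, ⟨ht, h1⟩, rfl⟩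
      · exfalso
        have h2 : 0 ≤ alh t := by
          unfold alh eta
          rw [max_eq_left (by linarith)]
          linarith [Real.cos_le_one (2 * π * (t - 1))]
        have h3 : 1 < ph t := by
          unfold ph
          rw [max_eq_left (by linarith)]
          have : 1 / (1 + t) < 1 / 2 := by
            apply one_div_lt_one_div_of_lt <;> linarith
          linarith
        exact Phi_notMem_DD (x := alh t) (s := alh t + ph t) (by linarith) hz
    · exfalso
      have hb := pl_bounds (17 / 20) t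
      rcases le_total t 0 with h1 | h1
      · obtain ⟨e1, e2⟩ := hcase t h1
        rw [← al1_of_nonpos h1] at e1 e2
        exact Phi_notMem_DD' (s := al1 t + pl (17 / 20) t) (by linarith) e1 e2 hz
      · have := al1_ge h1
        exact Phi_notMem_DD (x := al1 t) (s := al1 t + pl (17 / 20) t) (by linarith) hz
    · exfalso
      have hb := pl_bounds (3 / 5) t
      rcases le_total t 0 with h1 | h1
      · obtain ⟨e1, e2⟩ := hcase t h1
        rw [← al1_of_nonpos h1, ← al2_of_nonpos h1] at e1 e2
        exact Phi_notMem_DD' (s := al2 t + pl (3 / 5) t) (by linarith) e1 e2 hz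
      · have := al2_ge h1
        exact Phi_notMem_DD (x := al2 t) (s := al2 t + pl (3 / 5) t) (by linarith) hz
  · intro z hz
    refine ⟨⟨hz.1, hz.2.1, by rw [hz.2.2]; norm_num, by rw [hz.2.2]⟩, ?_⟩
    rw [AA_eq] at hz
    obtain ⟨t, ht, rfl⟩ := hz
    exact mem_KK (i := .h) ht.1

end Pool.Agent.Lib.MP_a9a15f_gt
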