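import Pool.Agent.Lib.MP_a9a15f_gt.Polar

/-!
# A fixed-point-free self-map of the union of the disk and the continuum

The map is `z ↦ -z` on the double Warsaw circle, pushes `H` ahead by one parameter unit, exchanges
`L₁` and `L₂`, and is given by an explicit formula on the disk. It is obtained from its graph, which
is compact.
-/

set_option autoImplicit false

open Set Topology Filter
open scoped Real

namespace Pool.Agent.Lib.MP_a9a15f_gt

section General


variable {E : Type*} [TopologicalSpace E]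

theorem closure_image_Ici_subset [T2Space E] {Q : ℝ → E} (hQ : Continuous Q) (a : ℝ) :
    closure (Q '' Ici a) ⊆ Q '' Ici a ∪ {x | MapClusterPt x atTop Q} := by
  intro x hx
  by_cases h : MapClusterPt x atTop Q
  · exact Or.inr h
  left
  rw [mapClusterPt_iff_frequently] at h
  push Not at h
  obtain ⟨s, hs, hns⟩ := h
  obtain ⟨b, hb⟩ := eventually_atTop.1 hns
  have hc : IsCompact (Q '' Icc a b) := isCompact_Icc.image hQ
  have hx' : x ∈ closure (Q '' Icc a b) := by
    rw [mem_closure_iff_nhds] at hx ⊢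
    intro t ht
    obtain ⟨y, ⟨hyt, hys⟩, ⟨u, hu, rfl⟩⟩ := hx (t ∩ s) (inter_mem ht hs)
    refine ⟨Q u, hyt, u, ⟨hu, ?_⟩, rfl⟩
    by_contra hub
    exact hb u (not_le.1 hub).le hys
  rw [hc.isClosed.closure_eq] at hx'
  exact image_mono Icc_subset_Ici_self hx'

theorem closure_range_subset [T2Space E] {Q : ℝ → E} (hQ : Continuous Q) :
    closure (range Q) ⊆ range Q ∪ ({x | MapClusterPt x atTop Q} ∪ {x | MapClusterPt x atBot Q}) := by
  have h1 : range Q = Q '' Ici 0 ∪ (Q ∘ Neg.neg) '' Ici 0 := by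
    ext x
    constructor
    · rintro ⟨t, rfl⟩
      rcases le_total 0 t with h | h
      · exact Or.inl ⟨t, h, rfl⟩
      · exact Or.inr ⟨-t, by simpa using h, by simp⟩
    · rintro (⟨t, _, rfl⟩ | ⟨t, _, rfl⟩)
      · exact ⟨t, rfl⟩
      · exact ⟨-t, rfl⟩
  have h2 : ∀ x, MapClusterPt x atTop (Q ∘ Neg.neg) ↔ MapClusterPt x atBot Q := by
    intro x
    rw [MapClusterPt, MapClusterPt, ← Filter.map_map, Filter.map_neg_atTop]
  rw [h1, closure_union]
  rintro x (hx | hx)
  · rcases closure_image_Ici_subset hQ 0 hx with h | h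
    · exact Or.inl (Or.inl h)
    · exact Or.inr (Or.inl h)
  · rcases closure_image_Ici_subset (hQ.comp continuous_neg) 0 hx with h | h
    · exact Or.inl (Or.inr h)
    · exact Or.inr (Or.inr ((h2 x).1 h))

theorem MapClusterPt.eq_of_tendsto [T2Space E] {α : Type*} {l : Filter α} {u : α → E} {x y : E}
    (h : MapClusterPt x l u) (h' : Tendsto u l (𝓝 y)) : x = y := by
  apply eq_of_nhds_neBot
  exact NeBot.mono h (inf_le_inf_left _ h')

/-- a self-map from a compact graph -/
theorem exists_map_of_graph {F : Type*} [TopologicalSpace F] [T2Space E] [T2Space F] [Nonempty F]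
    {G : Set (E × F)} (hG : IsCompact G)
    (huniq : ∀ z w w', (z, w) ∈ G → (z, w') ∈ G → w = w') :
    ∃ f : E → F, (∀ p ∈ G, f p.1 = p.2) ∧ ContinuousOn f (Prod.fst '' G) := by
  classical
  let f : E → F := fun z => if h : ∃ w, (z, w) ∈ G then h.choose else Classical.arbitrary F
  have hf : ∀ p ∈ G, f p.1 = p.2 := by
    rintro ⟨z, w⟩ hp
    have h : ∃ w, (z, w) ∈ G := ⟨w, hp⟩
    simp only [f, dif_pos h]
    exact huniq z _ _ h.choose_spec hp
  refine ⟨f, hf, ?_⟩
  intro z hz
  obtain ⟨⟨z', w⟩, hp, rfl⟩ := hz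
  have hK : IsCompact (Prod.snd '' G) := hG.image continuous_snd
  refine hK.tendsto_nhds_of_unique_mapClusterPt (l := 𝓝[Prod.fst '' G] z') ?_ ?_
  · filter_upwards [self_mem_nhdsWithin] with x hx
    obtain ⟨⟨x', y⟩, hxy, rfl⟩ := hx
    exact ⟨(x', y), hxy, (hf _ hxy).symm⟩
  · intro y _ hy
    have h1 : MapClusterPt (z', y) (𝓝[Prod.fst '' G] z') (fun x => (x, f x)) := by
      have h0 : Tendsto (fun x : E => x) (𝓝[Prod.fst '' G] z') (𝓝 z') := 
        tendsto_id.mono_left nhdsWithin_le_nhds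
      rw [mapClusterPt_iff_frequently] at hy ⊢
      intro s hs
      rw [nhds_prod_eq, Filter.mem_prod_iff] at hs
      obtain ⟨s1, hs1, s2, hs2, hs⟩ := hs
      refine ((hy s2 hs2).and_eventually (h0 hs1)).mono ?_
      rintro a ⟨h3, h4⟩
      exact hs ⟨h4, h3⟩
    have h2 : (z', y) ∈ G := by
      have : ClusterPt (z', y) (𝓟 G) := by
        refine ClusterPt.mono h1 ?_
        rw [le_principal_iff, mem_map]
        filter_upwards [self_mem_nhdsWithin] with x hx
        obtain ⟨⟨x', y'⟩, hxy, rfl⟩ := hx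
        have := hf _ hxy
        simp only at this
        simp only [mem_preimage, this]
        exact hxy
      exact (mem_closure_iff_clusterPt.2 this |> fun h => by rwa [hG.isClosed.closure_eq] at h)
    rw [hf _ hp]
    exact huniq _ _ _ h2 hp

end General


/-! ### Asymptotics of the components -/

theorem abs_rad_sub_le {x s s' : ℝ} (hs : 3 ≤ s) (h : s ≤ s') (h2 : s' ≤ s + 4) :
    |rad x s - rad x s'| ≤ 9 / s := by
  have h0 : 0 < s := by linarith
  have e1 : U s = 1 / s := by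
    unfold U
    apply max_eq_right
    have : 0 < 1 / s := by positivity
    linarith
  have e2 : U s ≥ U s' := U_anti h0 h
  have e3 : 0 < U s' := U_pos (by linarith)
  have e4 := hh_anti (Int.fract_nonneg x) h
  have e5 := hh_sub_le (y := Int.fract x) h0.le h
  have e6 : 2 * ((s' - s) / (1 + s)) ≤ 8 / s := by
    have : (s' - s) / (1 + s) ≤ 4 / s := by
      apply div_le_div₀ (by norm_num) (by linarith) h0 (by linarith)
    calc 2 * ((s' - s) / (1 + s)) ≤ 2 * (4 / s) := by linarith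
      _ = 8 / s := by ring
  have e7 : (9:ℝ) / s = 1 / s + 8 / s := by ring
  unfold rad
  rw [abs_le]
  constructor
  · have : 0 ≤ 9 / s := by positivity
    linarith
  · linarith

theorem tendsto_Phi_add {α σ σ' : ℝ → ℝ} {l : Filter ℝ} (h1 : Tendsto σ l atTop)
    (h2 : ∀ᶠ t in l, σ t ≤ σ' t ∧ σ' t ≤ σ t + 4) :
    Tendsto (fun t => Phi (α t + 1) (σ' t) + Phi (α t) (σ t)) l (𝓝 0) := by
  rw [tendsto_zero_iff_norm_tendsto_zero]
  have h3 : Tendsto (fun t => 9 / σ t) l (𝓝 0) := h1.const_div_atTop 9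
  refine squeeze_zero' (Eventually.of_forall fun t => norm_nonneg _) ?_ h3
  filter_upwards [h2, h1.eventually_ge_atTop 3] with t ⟨ht1, ht2⟩ ht3
  have : Phi (α t + 1) (σ' t) + Phi (α t) (σ t) =
      ((rad (α t) (σ t) - rad (α t) (σ' t) : ℝ) : ℂ) * Complex.exp (π * α t * Complex.I) := by
    rw [Phi_add_one]
    unfold Phi
    push_cast
    ring
  rw [this, norm_mul, norm_cexp, mul_one, Complex.norm_real, Real.norm_eq_abs]
  exact abs_rad_sub_le ht3 ht1 ht2

theorem zeta_zero : zeta 0 = 0 := by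
  unfold zeta
  simp

theorem floor_sq_le_zeta {t : ℝ} (ht : 0 ≤ t) : (⌊t⌋ : ℝ) ^ 2 ≤ zeta t := by
  unfold zeta
  have h1 : (0:ℝ) ≤ ⌊t⌋ := by exact_mod_cast Int.floor_nonneg.2 ht
  have h2 := Int.fract_nonneg t
  have h3 := Int.fract_lt_one t
  have : 0 ≤ min ((4 * (⌊t⌋ : ℝ) + 6) * Int.fract t) (2 * (⌊t⌋ : ℝ) + 5 - 4 * Int.fract t) := by
    apply le_min
    · positivity
    · linarith
  linarith

theorem tendsto_zeta' : Tendsto zeta atTop atTop := by
  refine tendsto_atTop_mono' atTop (f₁ := fun t => t - 1) ?_ (tendsto_atTop_add_const_right _ _ tendsto_id)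
  filter_upwards [eventually_ge_atTop (1:ℝ)] with t ht
  have h1 := floor_sq_le_zeta (by linarith : 0 ≤ t)
  have h2 : (1:ℝ) ≤ ⌊t⌋ := by
    have : (1:ℤ) ≤ ⌊t⌋ := Int.le_floor.2 (by simpa using ht)
    exact_mod_cast this
  have h3 := Int.sub_one_lt_floor t
  nlinarith

theorem al1_of_nonneg {t : ℝ} (ht : 0 ≤ t) : al1 t = 1 + zeta t := by
  unfold al1
  rw [min_eq_right ht, max_eq_left ht]
  norm_num

theorem al1_of_nonpos {t : ℝ} (ht : t ≤ 0) : al1 t = 1 / (1 - t) := by
  unfold al1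
  rw [min_eq_left ht, max_eq_right ht, zeta_zero, add_zero]

theorem al2_of_one_le {t : ℝ} (ht : 1 ≤ t) : al2 t = al1 t + 1 := by
  unfold al2
  rw [min_eq_right ht, max_eq_left (by norm_num)]

theorem al2_of_nonpos {t : ℝ} (ht : t ≤ 0) : al2 t = al1 t := by
  unfold al2
  rw [min_eq_left (by linarith), max_eq_right ht, add_zero]

theorem tendsto_al1' : Tendsto al1 atTop atTop := by
  refine (tendsto_atTop_add_const_left _ 1 tendsto_zeta').congr' ?_
  filter_upwards [eventually_ge_atTop (0:ℝ)] with t ht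
  rw [al1_of_nonneg ht]

theorem alh_add_one {t : ℝ} (ht : 1 ≤ t) : alh (t + 1) = alh t + 1 := by
  unfold alh eta
  rw [max_eq_left (by linarith), max_eq_left (by linarith)]
  have : 2 * π * (t + 1 - 1) = 2 * π * (t - 1) + 2 * π := by ring
  rw [this, Real.cos_add_two_pi]
  ring

theorem tendsto_alh' : Tendsto alh atTop atTop := by
  refine tendsto_atTop_mono' atTop (f₁ := fun t => t - 1) ?_ (tendsto_atTop_add_const_right _ _ tendsto_id)
  filter_upwards [eventually_ge_atTop (1:ℝ)] with t ht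
  unfold alh eta
  rw [max_eq_left (by linarith)]
  linarith [Real.cos_le_one (2 * π * (t - 1))]

theorem ph_bounds (t : ℝ) : 1 / 2 ≤ ph t ∧ ph t ≤ 3 / 2 := by
  unfold ph
  have h0 : 0 ≤ max t 0 := le_max_right _ _
  have h1 : 0 ≤ 1 / (1 + max t 0) := by positivity
  have h2 : 1 / (1 + max t 0) ≤ 1 := by
    rw [div_le_one (by positivity)]
    linarith
  constructor <;> linarith

theorem pl_sub (t : ℝ) : pl (17 / 20) t - pl (3 / 5) t = 1 / 4 := by
  unfold pl
  ring

theorem pl_bounds (c t : ℝ) : c - 1 / 20 ≤ pl c t ∧ pl c t ≤ c + 1 / 10 := by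
  unfold pl
  have h0 : 0 ≤ max t 0 := le_max_right _ _
  have h1 : 0 ≤ 1 / (1 + max t 0) := by positivity
  have h2 : 1 / (1 + max t 0) ≤ 1 := by
    rw [div_le_one (by positivity)]
    linarith
  have h3 := Real.cos_le_one (min t 0)
  have h4 := Real.neg_one_le_cos (min t 0)
  constructor <;> linarith

theorem tendsto_H : Tendsto (fun t => PP .h (t + 1) + PP .h t) atTop (𝓝 0) := by
  have h1 : Tendsto (fun t => alh t + ph t) atTop atTop :=
    tendsto_atTop_add_right_of_le _ (1 / 2) tendsto_alh' fun t => (ph_bounds t).1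
  have h2 := tendsto_Phi_add (α := alh) (σ := fun t => alh t + ph t)
    (σ' := fun t => alh t + 1 + ph (t + 1)) h1 (by
      refine Eventually.of_forall fun t => ?_
      have := ph_bounds t
      have := ph_bounds (t + 1)
      constructor <;> linarith)
  refine h2.congr' ?_
  filter_upwards [eventually_ge_atTop (1:ℝ)] with t ht
  simp only [PP, alh_add_one ht]

theorem tendsto_L : Tendsto (fun t => PP .l2 t + PP .l1 t) atTop (𝓝 0) := by
  have h1 : Tendsto (fun t => al1 t + pl (17 / 20) t) atTop atTop :=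
    tendsto_atTop_add_right_of_le _ (17 / 20 - 1 / 20) tendsto_al1' fun t => (pl_bounds _ t).1
  have h2 := tendsto_Phi_add (α := al1) (σ := fun t => al1 t + pl (17 / 20) t)
    (σ' := fun t => al1 t + 1 + pl (3 / 5) t) h1 (by
      refine Eventually.of_forall fun t => ?_
      have := pl_sub t
      constructor <;> linarith)
  refine h2.congr' ?_
  filter_upwards [eventually_ge_atTop (1:ℝ)] with t ht
  simp only [PP, al2_of_one_le ht]

theorem tendsto_L_bot : Tendsto (fun t => PP .l2 t - PP .l1 t) atBot (𝓝 (1 / 4)) := by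
  -- the angle tends to zero
  have h0 : Tendsto (fun t : ℝ => 1 / (1 - t)) atBot (𝓝 0) := by
    have : Tendsto (fun t : ℝ => 1 - t) atBot atTop :=
      tendsto_atTop_add_const_left _ 1 tendsto_neg_atBot_atTop
    exact this.const_div_atTop 1
  have h1 : Tendsto (fun t : ℝ => Complex.exp (π * (1 / (1 - t) : ℝ) * Complex.I)) atBot (𝓝 1) := by
    have h := (continuous_cexp.tendsto 0).comp h0
    rw [Complex.ofReal_zero, mul_zero, zero_mul, Complex.exp_zero] at h
    exact h
  have h2 : Tendsto (fun t : ℝ => rad (1 / (1 - t)) (1 / (1 - t) + pl (3 / 5) t) -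
      rad (1 / (1 - t)) (1 / (1 - t) + pl (17 / 20) t)) atBot (𝓝 (1 / 4)) := by
    rw [tendsto_iff_norm_sub_tendsto_zero]
    have h3 : Tendsto (fun t : ℝ => 3 * (1 / (1 - t))) atBot (𝓝 0) := by
      simpa using h0.const_mul 3
    refine squeeze_zero' (Eventually.of_forall fun t => norm_nonneg _) ?_ h3
    filter_upwards [eventually_lt_atBot (0:ℝ)] with t ht
    set x := 1 / (1 - t) with hx
    have hx0 : 0 < x := by rw [hx]; apply div_pos one_pos; linarith
    have hx1 : x < 1 := by rw [hx, div_lt_one (by linarith)]; linarith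
    have hf : Int.fract x = x := Int.fract_eq_self.2 ⟨hx0.le, hx1⟩
    have hp := pl_sub t
    have hb := pl_bounds (3 / 5) t
    have hb' := pl_bounds (17 / 20) t
    unfold rad
    rw [hf, U_eq (by linarith) (by linarith), U_eq (by linarith) (by linarith)]
    have e : (3 - (x + pl (3 / 5) t) + hh x (x + pl (3 / 5) t) -
        (3 - (x + pl (17 / 20) t) + hh x (x + pl (17 / 20) t)) - 1 / 4) =
        hh x (x + pl (3 / 5) t) - hh x (x + pl (17 / 20) t) := by linarith
    rw [e, Real.norm_eq_abs, abs_le]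
    have e1 := le_hh x (x + pl (3 / 5) t)
    have e2 := le_hh x (x + pl (17 / 20) t)
    have e3 := hh_le hx0.le (by linarith : 0 ≤ x + pl (3 / 5) t)
    have e4 := hh_le hx0.le (by linarith : 0 ≤ x + pl (17 / 20) t)
    have e6 : x * (1 + (x + pl (3 / 5) t)) ≤ x * 3 := by
      apply mul_le_mul_of_nonneg_left _ hx0.le
      linarith
    have e7 : x * (1 + (x + pl (17 / 20) t)) ≤ x * 3 := by
      apply mul_le_mul_of_nonneg_left _ hx0.le
      linarith
    constructor <;> linarith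
  have h4 : Tendsto (fun t : ℝ => ((rad (1 / (1 - t)) (1 / (1 - t) + pl (3 / 5) t) -
      rad (1 / (1 - t)) (1 / (1 - t) + pl (17 / 20) t) : ℝ) : ℂ) *
      Complex.exp (π * (1 / (1 - t) : ℝ) * Complex.I)) atBot (𝓝 (1 / 4)) := by
    have h5 := ((Complex.continuous_ofReal.tendsto (1 / 4)).comp h2).mul h1
    simpa using h5
  refine h4.congr' ?_
  filter_upwards [eventually_le_atBot (0:ℝ)] with t ht
  simp only [PP, al2_of_nonpos ht, al1_of_nonpos ht, Phi]
  push_cast
  ring

/-! ### The map on the disk -/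

/-- the two bars -/
def bars : Set ℂ := {z | z.im = 0 ∧ (z.re ∈ Icc (51 / 10 : ℝ) (26 / 5) ∨ z.re ∈ Icc (107 / 20 : ℝ) (109 / 20))}

theorem isClosed_bars : IsClosed bars := by
  have h1 : IsClosed {z : ℂ | z.im = 0} := isClosed_eq Complex.continuous_im continuous_const
  have h2 : IsClosed {z : ℂ | z.re ∈ Icc (51 / 10 : ℝ) (26 / 5)} :=
    isClosed_Icc.preimage Complex.continuous_re
  have h3 : IsClosed {z : ℂ | z.re ∈ Icc (107 / 20 : ℝ) (109 / 20)} :=
    isClosed_Icc.preimage Complex.continuous_re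
  exact h1.inter (h2.union h3)

theorem bars_nonempty : bars.Nonempty :=
  ⟨((51 / 10 : ℝ) : ℂ), Complex.ofReal_im _, Or.inl ⟨le_rfl, by norm_num⟩⟩

theorem abs_im_le_infDist (z : ℂ) : |z.im| ≤ Metric.infDist z bars := by
  rw [Metric.le_infDist bars_nonempty]
  intro y hy
  have h1 : |(z - y).im| ≤ ‖z - y‖ := Complex.abs_im_le_norm _
  rw [Complex.sub_im, hy.1, sub_zero] at h1
  rwa [dist_eq_norm]

theorem re_le_infDist (z : ℂ) : 51 / 10 - z.re ≤ Metric.infDist z bars := by
  rw [Metric.le_infDist bars_nonempty]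
  intro y hy
  have h1 : |(z - y).re| ≤ ‖z - y‖ := Complex.abs_re_le_norm _
  rw [Complex.sub_re] at h1
  rw [dist_eq_norm]
  have h2 := neg_abs_le (z.re - y.re)
  have h3 : 51 / 10 ≤ y.re := by
    rcases hy.2 with h | h
    · exact h.1
    · linarith [h.1]
  linarith

/-- the weight: `1` on the bars, `0` far from them -/
noncomputable def wt (z : ℂ) : ℝ := max 0 (1 - 20 * Metric.infDist z bars)

theorem continuous_wt : Continuous wt := by
  unfold wt
  have := Metric.continuous_infDist_pt bars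
  fun_prop

theorem wt_nonneg (z : ℂ) : 0 ≤ wt z := le_max_left _ _

theorem wt_le_one (z : ℂ) : wt z ≤ 1 := by
  unfold wt
  have := Metric.infDist_nonneg (x := z) (s := bars)
  apply max_le <;> linarith

theorem wt_pos_eq {z : ℂ} (h : 0 < wt z) : Metric.infDist z bars = (1 - wt z) / 20 := by
  have : wt z = 1 - 20 * Metric.infDist z bars := by
    unfold wt at h ⊢
    apply max_eq_right
    by_contra hc
    rw [max_eq_left (by linarith)] at h
    exact lt_irrefl _ h
  rw [this]
  ring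

theorem wt_eq_one {z : ℂ} (h : z ∈ bars) : wt z = 1 := by
  unfold wt
  rw [Metric.infDist_zero_of_mem h]
  norm_num

/-- exchanges the two bars -/
noncomputable def T0 (r : ℝ) : ℝ := r + 1 / 4 - 1 / 2 * min (max ((r - 26 / 5) * (20 / 3)) 0) 1

theorem continuous_T0 : Continuous T0 := by
  unfold T0
  fun_prop

theorem T0_left {r : ℝ} (h : r ≤ 26 / 5) : T0 r = r + 1 / 4 := by
  unfold T0
  rw [max_eq_right (by linarith), min_eq_left (by norm_num)]
  ring

theorem T0_right {r : ℝ} (h : 107 / 20 ≤ r) : T0 r = r - 1 / 4 := by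
  unfold T0
  rw [max_eq_left (by linarith), min_eq_right (by linarith)]
  ring

theorem T0_mem {r : ℝ} (h1 : 5 ≤ r) (h2 : r ≤ 11 / 2) : 5 ≤ T0 r ∧ T0 r ≤ 11 / 2 := by
  rcases le_total r (26 / 5) with h | h
  · rw [T0_left h]
    constructor <;> linarith
  · rcases le_total (107 / 20) r with h' | h'
    · rw [T0_right h']
      constructor <;> linarith
    · unfold T0
      rw [max_eq_left (by linarith), min_eq_left (by linarith)]
      constructor <;> linarith

/-- the path from `H(2)` along `H` to `5`, then to `5 - i/2`, then straight to `y` -/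
noncomputable def gam (w y : ℝ) : ℂ :=
  PP .h (2 - min (3 * w) 1) + ((min (max (3 * w - 1) 0) 1 : ℝ) : ℂ) * (-(Complex.I / 2)) +
    ((max (3 * w - 2) 0 : ℝ) : ℂ) * ((y : ℂ) - (5 - Complex.I / 2))

theorem PP_h_of_le_one {t : ℝ} (h0 : 0 ≤ t) (h1 : t ≤ 1) :
    PP .h t = ((9 / 2 + 1 / (1 + t) : ℝ) : ℂ) := by
  have e1 : alh t = 0 := by
    unfold alh eta
    rw [max_eq_right (by linarith), mul_zero, Real.cos_zero]
    norm_num
  have e2 : ph t = 3 / 2 - 1 / (1 + t) := by
    unfold ph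
    rw [max_eq_left h0]
  have e3 := ph_bounds t
  simp only [PP, e1]
  unfold Phi
  rw [rad_zero, zero_add, U_eq (by linarith) (by linarith), e2, Complex.ofReal_zero, mul_zero,
    zero_mul, Complex.exp_zero, mul_one]
  congr 1
  ring

theorem PP_h_one : PP .h 1 = 5 := by
  rw [PP_h_of_le_one zero_le_one le_rfl]
  norm_num

theorem gam_low {w y : ℝ} (h : w ≤ 1 / 3) : gam w y = PP .h (2 - 3 * w) := by
  unfold gam
  rw [min_eq_left (by linarith), max_eq_right (by linarith), max_eq_right (by linarith),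
    min_eq_left (by norm_num)]
  simp

theorem gam_mid {w y : ℝ} (h1 : 1 / 3 ≤ w) (h2 : w ≤ 2 / 3) :
    gam w y = 5 + ((3 * w - 1 : ℝ) : ℂ) * (-(Complex.I / 2)) := by
  unfold gam
  rw [min_eq_right (by linarith), max_eq_left (by linarith), max_eq_right (by linarith),
    min_eq_left (by linarith)]
  have : (2:ℝ) - 1 = 1 := by norm_num
  rw [this, PP_h_one]
  simp

theorem gam_high {w y : ℝ} (h : 2 / 3 ≤ w) :
    gam w y = (5 - Complex.I / 2) +
      ((3 * w - 2 : ℝ) : ℂ) * ((y : ℂ) - (5 - Complex.I / 2)) := by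
  unfold gam
  rw [min_eq_right (by linarith), max_eq_left (by linarith), max_eq_left (by linarith),
    min_eq_right (by linarith)]
  have : (2:ℝ) - 1 = 1 := by norm_num
  rw [this, PP_h_one]
  push_cast
  ring

theorem gam_mid_re {w y : ℝ} (h1 : 1 / 3 ≤ w) (h2 : w ≤ 2 / 3) :
    (gam w y).re = 5 ∧ (gam w y).im = - (3 * w - 1) / 2 := by
  rw [gam_mid h1 h2]
  constructor
  · simp
  · simp
    ring

theorem gam_high_re {w y : ℝ} (h : 2 / 3 ≤ w) :
    (gam w y).re = 5 + (3 * w - 2) * (y - 5) ∧ (gam w y).im = - (3 * (1 - w)) / 2 := by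
  rw [gam_high h]
  constructor
  · simp
  · simp
    ring

/-- the map on the disk -/
noncomputable def fD (z : ℂ) : ℂ := gam (wt z) (T0 z.re)

theorem continuous_fD (hH : Continuous (PP .h)) : Continuous fD := by
  unfold fD gam
  have h1 := continuous_wt
  have h2 : Continuous fun z : ℂ => T0 z.re := continuous_T0.comp Complex.continuous_re
  fun_prop

theorem fD_of_bar {z : ℂ} (h : z ∈ bars) : fD z = (T0 z.re : ℂ) := by
  unfold fD
  rw [wt_eq_one h, gam_high (by norm_num)]
  norm_num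

theorem fD_mem {z : ℂ} (hz : z ∈ DD) : fD z ∈ DD ∪ KK := by
  obtain ⟨z1, z2, z3, z4⟩ := hz
  have hT := T0_mem z1 z2
  have hw0 := wt_nonneg z
  have hw1 := wt_le_one z
  rcases le_total (wt z) (1 / 3) with h | h
  · right
    unfold fD
    rw [gam_low h]
    exact mem_iUnion.2 ⟨.h, _, by simp only [Jset, mem_Ici]; linarith, rfl⟩
  · left
    rcases le_total (wt z) (2 / 3) with h' | h'
    · obtain ⟨e1, e2⟩ := gam_mid_re (y := T0 z.re) h h'
      refine ⟨?_, ?_, ?_, ?_⟩
      · rw [fD, e1]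
      · rw [fD, e1]; norm_num
      · rw [fD, e2]; linarith
      · rw [fD, e2]; linarith
    · obtain ⟨e1, e2⟩ := gam_high_re (y := T0 z.re) h'
      refine ⟨?_, ?_, ?_, ?_⟩
      · rw [fD, e1]; nlinarith
      · rw [fD, e1]; nlinarith
      · rw [fD, e2]; linarith
      · rw [fD, e2]; linarith

theorem AA_eq : AA = PP .h '' Icc 0 1 := by
  ext z
  constructor
  · rintro ⟨h1, h2, h3⟩
    refine ⟨1 / (z.re - 9 / 2) - 1, ⟨?_, ?_⟩, ?_⟩
    · rw [sub_nonneg, le_div_iff₀ (by linarith)]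
      linarith
    · have : 1 / (z.re - 9 / 2) ≤ 2 := by
        rw [div_le_iff₀ (by linarith)]
        linarith
      linarith
    · rw [PP_h_of_le_one]
      · apply Complex.ext
        · rw [Complex.ofReal_re]
          have e : 1 + (1 / (z.re - 9 / 2) - 1) = 1 / (z.re - 9 / 2) := by ring
          rw [e, one_div_one_div]
          ring
        · rw [Complex.ofReal_im, h3]
      · rw [sub_nonneg, le_div_iff₀ (by linarith)]
        linarith
      · have : 1 / (z.re - 9 / 2) ≤ 2 := by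
          rw [div_le_iff₀ (by linarith)]
          linarith
        linarith
  · rintro ⟨t, ⟨h0, h1⟩, rfl⟩
    rw [PP_h_of_le_one h0 h1]
    refine ⟨?_, ?_, Complex.ofReal_im _⟩
    · rw [Complex.ofReal_re]
      have : 1 / 2 ≤ 1 / (1 + t) := by
        apply one_div_le_one_div_of_le <;> linarith
      linarith
    · rw [Complex.ofReal_re]
      have : 1 / (1 + t) ≤ 1 := by
        rw [div_le_one (by linarith)]
        linarith
      linarith

theorem bar1_mem {x : ℂ} (h : x ∈ PP .h '' Icc (3 / 7) (2 / 3)) :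
    x ∈ bars ∧ x.re ≤ 26 / 5 ∧ x ∈ DD ∧ x.im = 0 := by
  obtain ⟨t, ⟨h1, h2⟩, rfl⟩ := h
  have e1 : 3 / 5 ≤ 1 / (1 + t) := by
    rw [le_div_iff₀ (by linarith)]
    linarith
  have e2 : 1 / (1 + t) ≤ 7 / 10 := by
    rw [div_le_iff₀ (by linarith)]
    linarith
  rw [PP_h_of_le_one (by linarith) (by linarith)]
  refine ⟨⟨Complex.ofReal_im _, Or.inl ⟨?_, ?_⟩⟩, ?_, ⟨?_, ?_, ?_, ?_⟩, Complex.ofReal_im _⟩
  all_goals first | rw [Complex.ofReal_re] | rw [Complex.ofReal_im]
  all_goals linarith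

theorem bar2_mem {x : ℂ} (h : x ∈ PP .h '' Icc (1 / 19) (3 / 17)) :
    x ∈ bars ∧ 107 / 20 ≤ x.re ∧ x ∈ DD ∧ x.im = 0 := by
  obtain ⟨t, ⟨h1, h2⟩, rfl⟩ := h
  have e1 : 17 / 20 ≤ 1 / (1 + t) := by
    rw [le_div_iff₀ (by linarith)]
    linarith
  have e2 : 1 / (1 + t) ≤ 19 / 20 := by
    rw [div_le_iff₀ (by linarith)]
    linarith
  rw [PP_h_of_le_one (by linarith) (by linarith)]
  refine ⟨⟨Complex.ofReal_im _, Or.inr ⟨?_, ?_⟩⟩, ?_, ⟨?_, ?_, ?_, ?_⟩, Complex.ofReal_im _⟩
  all_goals first | rw [Complex.ofReal_re] | rw [Complex.ofReal_im]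
  all_goals linarith

/-! ### The graph -/

theorem isCompact_DD : IsCompact DD := by
  have : DD = Icc (5:ℝ) (11 / 2) ×ℂ Icc (-(1 / 2) : ℝ) 0 := by
    ext z
    simp only [DD, mem_ofPred_eq, Complex.mem_reProdIm, mem_Icc]
    tauto
  rw [this]
  exact isCompact_Icc.reProdIm isCompact_Icc

/-- the image of the point with parameter `t` on the component `i` -/
noncomputable def img : Comp → ℝ → ℂ
  | .c1 => fun t => -PP .c1 t
  | .c2 => fun t => -PP .c2 t
  | .h => fun t => PP .h (t + 1)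
  | .l1 => PP .l2
  | .l2 => PP .l1

/-- parameters outside of the disk (and the point `5`) -/
def J' : Comp → Set ℝ
  | .c1 => Ici 0
  | .c2 => Ici 0
  | .h => Ici 1
  | .l1 => univ
  | .l2 => univ

/-- the graph over the disk -/
def GD : Set (ℂ × ℂ) := (fun z => (z, fD z)) '' DD

/-- the graph over the continuum -/
def GK : Set (ℂ × ℂ) := ⋃ i, (fun t => (PP i t, img i t)) '' J' i

theorem J'_subset (i : Comp) : J' i ⊆ Jset i := by
  cases i
  · exact fun _ h => h
  · exact fun _ h => h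
  · intro t ht
    have : (1:ℝ) ≤ t := ht
    exact zero_le_one.trans this
  · exact fun _ h => h
  · exact fun _ h => h

theorem mem_KK {i : Comp} {t : ℝ} (h : t ∈ Jset i) : PP i t ∈ KK := mem_iUnion.2 ⟨i, t, h, rfl⟩

theorem PP_c2 (t : ℝ) : PP .c2 t = -PP .c1 t := rfl

section Assembly

variable {Θ : ℂ → ℂ} {e b1 b1' b2 b2' : ℝ}

theorem continuous_img (hM : Model PP angK Θ e b1 b1' b2 b2') (i : Comp) : Continuous (img i) := by
  cases i
  · exact (hM.cont .c1).neg
  · exact (hM.cont .c2).neg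
  · exact (hM.cont .h).comp (continuous_add_const 1)
  · exact hM.cont .l2
  · exact hM.cont .l1

theorem img_mem {i : Comp} {t : ℝ} (h : t ∈ J' i) : img i t ∈ KK := by
  cases i
  · have : img .c1 t = PP .c2 t := rfl
    rw [this]
    exact mem_KK (i := .c2) h
  · have : img .c2 t = PP .c1 t := by
      simp only [img, PP_c2, neg_neg]
    rw [this]
    exact mem_KK (i := .c1) h
  · have h' : (1:ℝ) ≤ t := h
    exact mem_KK (i := .h) (show (0:ℝ) ≤ t + 1 by linarith)
  · exact mem_KK (i := .l2) trivial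
  · exact mem_KK (i := .l1) trivial

theorem cluster_pair {P Q : ℝ → ℂ} {l : Filter ℝ} {x y c : ℂ}
    (h : MapClusterPt (x, y) l fun t => (P t, Q t)) (hc : Tendsto (fun t => Q t - P t) l (𝓝 c)) :
    MapClusterPt x l P ∧ y = x + c := by
  refine ⟨h.continuousAt_comp continuous_fst.continuousAt, ?_⟩
  have h1 : Continuous fun p : ℂ × ℂ => p.2 - p.1 := by fun_prop
  have h2 : MapClusterPt (y - x) l fun t => Q t - P t :=
    h.continuousAt_comp (f := fun p : ℂ × ℂ => p.2 - p.1) h1.continuousAt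
  rw [← MapClusterPt.eq_of_tendsto h2 hc]
  ring

theorem cluster_pair' {P Q : ℝ → ℂ} {l : Filter ℝ} {x y : ℂ}
    (h : MapClusterPt (x, y) l fun t => (P t, Q t)) (hc : Tendsto (fun t => Q t + P t) l (𝓝 0)) :
    MapClusterPt x l P ∧ y = -x := by
  refine ⟨h.continuousAt_comp continuous_fst.continuousAt, ?_⟩
  have h1 : Continuous fun p : ℂ × ℂ => p.2 + p.1 := by fun_prop
  have h2 : MapClusterPt (y + x) l fun t => Q t + P t :=
    h.continuousAt_comp (f := fun p : ℂ × ℂ => p.2 + p.1) h1.continuousAt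
  exact eq_neg_of_add_eq_zero_left (MapClusterPt.eq_of_tendsto h2 hc)

theorem mem_GK_of_M {x : ℂ} (h : x ∈ PP .c1 '' Ici 0 ∪ PP .c2 '' Ici 0) : (x, -x) ∈ GK := by
  rcases h with ⟨t, ht, rfl⟩ | ⟨t, ht, rfl⟩
  · exact mem_iUnion.2 ⟨.c1, t, ht, rfl⟩
  · exact mem_iUnion.2 ⟨.c2, t, ht, rfl⟩

theorem isClosed_graph (hM : Model PP angK Θ (1 / 2) (3 / 7) (2 / 3) (1 / 19) (3 / 17)) :
    IsClosed (GD ∪ GK) := by
  have hGD : IsClosed GD :=
    (isCompact_DD.image (continuous_id.prodMk (continuous_fD (hM.cont .h)))).isClosed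
  rw [← closure_subset_iff_isClosed, closure_union, hGD.closure_eq]
  refine union_subset subset_union_left ?_
  unfold GK
  rw [closure_iUnion_of_finite]
  refine iUnion_subset fun i => ?_
  have hc : Continuous fun t => (PP i t, img i t) := (hM.cont i).prodMk (continuous_img hM i)
  have hin : (fun t => (PP i t, img i t)) '' J' i ⊆ GD ∪ GK :=
    fun p hp => Or.inr (mem_iUnion.2 ⟨i, hp⟩)
  cases i
  · rintro ⟨x, y⟩ hp
    rcases closure_image_Ici_subset hc 0 hp with h | h
    · exact hin h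
    · right
      obtain ⟨h1, rfl⟩ := cluster_pair' h (by simp [img])
      rw [hM.clT_c1] at h1
      exact mem_GK_of_M (Or.inr (image_mono Icc_subset_Ici_self h1))
  · rintro ⟨x, y⟩ hp
    rcases closure_image_Ici_subset hc 0 hp with h | h
    · exact hin h
    · right
      obtain ⟨h1, rfl⟩ := cluster_pair' h (by simp [img])
      rw [hM.clT_c2] at h1
      exact mem_GK_of_M (Or.inl (image_mono Icc_subset_Ici_self h1))
  · rintro ⟨x, y⟩ hp
    rcases closure_image_Ici_subset hc 1 hp with h | h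
    · exact hin h
    · right
      obtain ⟨h1, rfl⟩ := cluster_pair' h tendsto_H
      rw [hM.clT_h] at h1
      exact mem_GK_of_M h1
  · rintro ⟨x, y⟩ hp
    have e0 : (fun t => (PP .l1 t, img .l1 t)) '' J' .l1 = range fun t => (PP .l1 t, img .l1 t) :=
      image_univ
    rw [e0] at hp hin
    rcases closure_range_subset hc hp with h | h | h
    · exact hin h
    · right
      obtain ⟨h1, rfl⟩ := cluster_pair' h tendsto_L
      rw [hM.clT_l1] at h1
      exact mem_GK_of_M h1
    · left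
      obtain ⟨h1, rfl⟩ := cluster_pair h tendsto_L_bot
      rw [hM.clB_l1] at h1
      obtain ⟨e1, e2, e3, e4⟩ := bar1_mem h1
      refine ⟨x, e3, Prod.ext rfl ?_⟩
      simp only
      rw [fD_of_bar e1, T0_left e2]
      apply Complex.ext <;> simp [e4]
  · rintro ⟨x, y⟩ hp
    have e0 : (fun t => (PP .l2 t, img .l2 t)) '' J' .l2 = range fun t => (PP .l2 t, img .l2 t) :=
      image_univ
    rw [e0] at hp hin
    rcases closure_range_subset hc hp with h | h | h
    · exact hin h
    · right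
      obtain ⟨h1, rfl⟩ := cluster_pair' h
        (tendsto_L.congr fun t => (add_comm _ _ : PP .l2 t + PP .l1 t = PP .l1 t + PP .l2 t))
      rw [hM.clT_l2] at h1
      exact mem_GK_of_M h1
    · left
      have h0 : Tendsto (fun t => PP .l1 t - PP .l2 t) atBot (𝓝 (-(1 / 4))) :=
        tendsto_L_bot.neg.congr fun t => neg_sub _ _
      obtain ⟨h1, rfl⟩ := cluster_pair h h0
      rw [hM.clB_l2] at h1
      obtain ⟨e1, e2, e3, e4⟩ := bar2_mem h1
      refine ⟨x, e3, Prod.ext rfl ?_⟩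
      simp only
      rw [fD_of_bar e1, T0_right e2]
      apply Complex.ext <;> simp [e4]
      ring

theorem graph_subset : GD ∪ GK ⊆ (DD ∪ KK) ×ˢ (DD ∪ KK) := by
  rintro ⟨x, y⟩ (⟨z, hz, h⟩ | h)
  · obtain ⟨rfl, rfl⟩ := Prod.mk.inj h
    exact ⟨Or.inl hz, fD_mem hz⟩
  · obtain ⟨i, t, ht, h⟩ := mem_iUnion.1 h
    obtain ⟨rfl, rfl⟩ := Prod.mk.inj h
    exact ⟨Or.inr (mem_KK (J'_subset i ht)), Or.inr (img_mem ht)⟩

theorem isCompact_graph (hM : Model PP angK Θ (1 / 2) (3 / 7) (2 / 3) (1 / 19) (3 / 17)) :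
    IsCompact (GD ∪ GK) := by
  have hX : IsCompact (DD ∪ KK) := isCompact_DD.union hM.compact
  exact (hX.prod hX).of_isClosed_subset (isClosed_graph hM) graph_subset

theorem fst_graph : Prod.fst '' (GD ∪ GK) = DD ∪ KK := by
  apply Subset.antisymm
  · rintro _ ⟨p, hp, rfl⟩
    exact (graph_subset hp).1
  · rintro z (hz | hz)
    · exact ⟨(z, fD z), Or.inl ⟨z, hz, rfl⟩, rfl⟩
    · obtain ⟨i, t, ht, rfl⟩ := mem_iUnion.1 hz
      by_cases h : t ∈ J' i
      · exact ⟨(PP i t, img i t), Or.inr (mem_iUnion.2 ⟨i, t, h, rfl⟩), rfl⟩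
      · have hi : i = .h := by
          cases i
          · exact absurd ht h
          · exact absurd ht h
          · rfl
          · exact absurd ht h
          · exact absurd ht h
        subst hi
        have h1 : t < 1 := not_le.1 h
        have h0 : (0:ℝ) ≤ t := ht
        have h2 : PP .h t ∈ AA := by
          rw [AA_eq]
          exact ⟨t, ⟨h0, h1.le⟩, rfl⟩
        have h3 : PP .h t ∈ DD := ⟨h2.1, h2.2.1, by rw [h2.2.2]; norm_num, by rw [h2.2.2]⟩
        exact ⟨(PP .h t, fD (PP .h t)), Or.inl ⟨_, h3, rfl⟩, rfl⟩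

/-- a point of the continuum in the disk has its parameter in `[0,1]` -/
theorem param_of_mem (hM : Model PP angK Θ e b1 b1' b2 b2') (hK : DD ∩ KK = AA) {i : Comp} {t : ℝ}
    (ht : t ∈ Jset i) (h : PP i t ∈ DD) : i = .h ∧ t ≤ 1 := by
  have h1 : PP i t ∈ AA := by
    rw [← hK]
    exact ⟨h, mem_KK ht⟩
  rw [AA_eq] at h1
  obtain ⟨s, ⟨hs0, hs1⟩, hs⟩ := h1
  obtain ⟨e1, e2⟩ := hM.inj .h i s t hs0 ht hs
  exact ⟨e1.symm, e2 ▸ hs1⟩

theorem wt_five : wt 5 = 0 := by
  by_contra h
  have h1 : 0 < wt 5 := lt_of_le_of_ne (wt_nonneg 5) (Ne.symm h)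
  have h2 := wt_pos_eq h1
  have h3 := re_le_infDist 5
  have h4 : (5:ℂ).re = 5 := rfl
  rw [h4, h2] at h3
  linarith

theorem fD_five : fD 5 = PP .h 2 := by
  unfold fD
  rw [wt_five, gam_low (by norm_num)]
  norm_num

theorem graph_unique (hM : Model PP angK Θ (1 / 2) (3 / 7) (2 / 3) (1 / 19) (3 / 17))
    (hK : DD ∩ KK = AA) (z w w' : ℂ) (h : (z, w) ∈ GD ∪ GK) (h' : (z, w') ∈ GD ∪ GK) : w = w' := by
  have key : ∀ w w', (z, w) ∈ GD → (z, w') ∈ GK → w = w' := by
    intro w w' h h'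
    obtain ⟨z0, hz0, h⟩ := h
    obtain ⟨rfl, rfl⟩ := Prod.mk.inj h
    obtain ⟨i, t, ht, h'⟩ := mem_iUnion.1 h'
    obtain ⟨h1, rfl⟩ := Prod.mk.inj h'
    obtain ⟨rfl, h2⟩ := param_of_mem hM hK (J'_subset i ht) (h1 ▸ hz0)
    have h3 : t = 1 := le_antisymm h2 ht
    subst h3
    rw [← h1, PP_h_one, fD_five]
    simp only [img]
    norm_num
  rcases h with h | h <;> rcases h' with h' | h'
  · obtain ⟨z0, hz0, h⟩ := h
    obtain ⟨rfl, rfl⟩ := Prod.mk.inj h
    obtain ⟨z1, hz1, h'⟩ := h'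
    obtain ⟨rfl, rfl⟩ := Prod.mk.inj h'
    rfl
  · exact key w w' h h'
  · exact (key w' w h' h).symm
  · obtain ⟨i, t, ht, h⟩ := mem_iUnion.1 h
    obtain ⟨rfl, rfl⟩ := Prod.mk.inj h
    obtain ⟨j, s, hs, h'⟩ := mem_iUnion.1 h'
    obtain ⟨h1, rfl⟩ := Prod.mk.inj h'
    obtain ⟨rfl, rfl⟩ := hM.inj j i s t (J'_subset j hs) (J'_subset i ht) h1
    rfl

theorem fD_ne (hM : Model PP angK Θ (1 / 2) (3 / 7) (2 / 3) (1 / 19) (3 / 17))
    (hK : DD ∩ KK = AA) {z : ℂ} (hz : z ∈ DD) : fD z ≠ z := by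
  intro h
  have hw0 := wt_nonneg z
  have hw1 := wt_le_one z
  have hre := re_le_infDist z
  rcases le_total (wt z) (1 / 3) with h1 | h1
  · have h2 : fD z = PP .h (2 - 3 * wt z) := by
      unfold fD
      rw [gam_low h1]
    have h3 : (2 - 3 * wt z) ∈ Jset .h := by
      simp only [Jset, mem_Ici]
      linarith
    obtain ⟨-, h4⟩ := param_of_mem hM hK h3 (h2 ▸ h.symm ▸ hz)
    have h5 : wt z = 1 / 3 := by linarith
    have h6 : z = 5 := by
      rw [← h, h2, h5]
      have : (2 - 3 * (1 / 3) : ℝ) = 1 := by norm_num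
      rw [this, PP_h_one]
    rw [h6, wt_five] at h5
    norm_num at h5
  · have h2 := wt_pos_eq (z := z) (by linarith)
    rcases le_total (wt z) (2 / 3) with h3 | h3
    · obtain ⟨e1, -⟩ := gam_mid_re (y := T0 z.re) h1 h3
      have e3 : z.re = 5 := by
        have := congrArg Complex.re h
        rw [← this]
        exact e1
      rw [h2] at hre
      linarith
    · obtain ⟨-, e2⟩ := gam_high_re (y := T0 z.re) h3
      have e3 : z.im = - (3 * (1 - wt z)) / 2 := by
        have := congrArg Complex.im h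
        rw [← this]
        exact e2
      have e4 := abs_im_le_infDist z
      rw [h2, e3] at e4
      have e5 := neg_abs_le (- (3 * (1 - wt z)) / 2)
      have e6 : wt z = 1 := by linarith
      rw [e6] at h2
      have e7 : z ∈ bars := by
        rw [isClosed_bars.mem_iff_infDist_zero bars_nonempty, h2]
        norm_num
      rw [fD_of_bar e7] at h
      have e8 : T0 z.re = z.re := by
        have := congrArg Complex.re h
        rwa [Complex.ofReal_re] at this
      rcases e7.2 with e9 | e9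
      · rw [T0_left e9.2] at e8
        linarith
      · rw [T0_right e9.1] at e8
        linarith

theorem graph_ne (hM : Model PP angK Θ (1 / 2) (3 / 7) (2 / 3) (1 / 19) (3 / 17))
    (hK : DD ∩ KK = AA) (z w : ℂ) (h : (z, w) ∈ GD ∪ GK) : w ≠ z := by
  have hc : ∀ t, PP .c1 t ≠ 0 := by
    intro t h0
    have h1 := one_le_rc (max t 0)
    rw [← norm_Cc] at h1
    have h2 : PP .c1 t = Cc (max t 0) := rfl
    rw [← h2, h0, norm_zero] at h1
    linarith
  have hneg : ∀ u : ℂ, u ≠ 0 → -u ≠ u := by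
    intro u hu h0
    exact hu (self_eq_neg.1 h0.symm)
  rcases h with ⟨z0, hz0, h⟩ | h
  · obtain ⟨rfl, rfl⟩ := Prod.mk.inj h
    exact fD_ne hM hK hz0
  · obtain ⟨i, t, ht, h⟩ := mem_iUnion.1 h
    obtain ⟨rfl, rfl⟩ := Prod.mk.inj h
    cases i
    · exact hneg _ (hc t)
    · exact hneg _ (neg_ne_zero.2 (hc t))
    · intro h0
      have h1 : (1:ℝ) ≤ t := ht
      have := (hM.inj .h .h (t + 1) t (show (0:ℝ) ≤ t + 1 by linarith)
        (show (0:ℝ) ≤ t by linarith) h0).2
      linarith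
    · intro h0
      exact absurd (hM.inj .l2 .l1 t t trivial trivial h0).1 (by decide)
    · intro h0
      exact absurd (hM.inj .l1 .l2 t t trivial trivial h0).1 (by decide)

/-- **Piece E.** The union of the disk and the continuum has a fixed-point-free self-map. -/
theorem exists_map_of (hM : Model PP angK Θ (1 / 2) (3 / 7) (2 / 3) (1 / 19) (3 / 17))
    (hK : DD ∩ KK = AA) : ∃ f : ℂ → ℂ, ContinuousOn f (DD ∪ KK) ∧ MapsTo f (DD ∪ KK) (DD ∪ KK) ∧
      ∀ z ∈ DD ∪ KK, f z ≠ z := by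
  obtain ⟨f, hf, hc⟩ := exists_map_of_graph (isCompact_graph hM) (graph_unique hM hK)
  rw [fst_graph] at hc
  have hgr : ∀ z ∈ DD ∪ KK, (z, f z) ∈ GD ∪ GK := by
    intro z hz
    rw [← fst_graph] at hz
    obtain ⟨⟨z', w⟩, hp, rfl⟩ := hz
    rw [hf _ hp]
    exact hp
  exact ⟨f, hc, fun z hz => (graph_subset (hgr z hz)).2, fun z hz =>
    graph_ne hM hK z (f z) (hgr z hz)⟩

end Assembly

end Pool.Agent.Lib.MP_a9a15f_gt
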