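import Pool.Agent.Lib.MP_a9a15f_gt.Defs

/-! # The coordinate map `Phi` and the rays of `M` -/

set_option autoImplicit false

open Set Topology Filter
open scoped Real

namespace Pool.Agent.Lib.MP_a9a15f_gt

noncomputable section

/-! ### the offset `U` -/

lemma U_eq {s : ℝ} (h1 : 1 / 2 ≤ s) (h2 : s ≤ 5 / 2) : U s = 3 - s := by
  unfold U
  apply max_eq_left
  rw [div_le_iff₀ (by linarith)]
  nlinarith

lemma U_pos {s : ℝ} (h : 0 < s) : 0 < U s := lt_of_lt_of_le (by positivity) (le_max_right _ _)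

lemma U_strictAnti {s t : ℝ} (hs : 0 < s) (hst : s < t) : U t < U s := by
  unfold U
  apply max_lt
  · exact lt_of_lt_of_le (by linarith) (le_max_left _ _)
  · exact lt_of_lt_of_le (one_div_lt_one_div_of_lt hs hst) (le_max_right _ _)

lemma U_anti {s t : ℝ} (hs : 0 < s) (hst : s ≤ t) : U t ≤ U s := by
  rcases hst.eq_or_lt with h | h
  · rw [h]
  · exact (U_strictAnti hs h).le

lemma U_le {s : ℝ} (h : 1 / 2 ≤ s) : U s ≤ 5 / 2 := by
  have := U_anti (by norm_num : (0:ℝ) < 1/2) h
  rw [U_eq le_rfl (by norm_num)] at this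
  linarith

lemma U_continuousOn : ContinuousOn U (Ioi 0) := by
  unfold U
  refine ContinuousOn.sup (by fun_prop) ?_
  exact continuousOn_const.div continuousOn_id fun s hs => ne_of_gt hs

lemma tendsto_U : Tendsto U atTop (𝓝 0) := by
  have h1 : Tendsto (fun s : ℝ => 1 / s) atTop (𝓝 0) := by
    simpa using tendsto_inv_atTop_zero
  refine h1.congr' ?_
  filter_upwards [eventually_ge_atTop (3:ℝ)] with s hs
  unfold U
  rw [max_eq_right]
  have : (0:ℝ) < 1 / s := by positivity
  linarith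

/-! ### the profile `hh` -/

lemma one_le_hh (y s : ℝ) : 1 ≤ hh y s := by
  unfold hh
  refine le_trans ?_ (le_max_left _ _)
  have := Real.neg_one_le_cos (2 * π / y)
  linarith

lemma hh_le {y s : ℝ} (hy : 0 ≤ y) (hs : 0 ≤ s) : hh y s ≤ 3 := by
  unfold hh
  apply max_le
  · have := Real.cos_le_one (2 * π / y)
    linarith
  · have : 0 ≤ y * (1 + s) := by positivity
    linarith

lemma hh_anti {y s t : ℝ} (hy : 0 ≤ y) (hst : s ≤ t) : hh y t ≤ hh y s := by
  unfold hh
  apply max_le_max le_rfl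
  have : y * (1 + s) ≤ y * (1 + t) := by gcongr
  linarith

lemma hh_zero (s : ℝ) : hh 0 s = 3 := by
  unfold hh
  simp
  norm_num

lemma hh_one {s : ℝ} (hs : 0 ≤ s) : hh 1 s = 3 := by
  unfold hh
  rw [div_one, Real.cos_two_pi]
  rw [max_eq_left]
  · norm_num
  · linarith

lemma le_hh (y s : ℝ) : 3 - y * (1 + s) ≤ hh y s := le_max_right _ _

lemma hh_sub_le {y s t : ℝ} (hs : 0 ≤ s) (hst : s ≤ t) :
    hh y s - hh y t ≤ 2 * ((t - s) / (1 + s)) := by
  unfold hh
  set c := 2 + Real.cos (2 * π / y) with hc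
  have hc1 : 1 ≤ c := by
    have := Real.neg_one_le_cos (2 * π / y)
    rw [hc]; linarith
  have hpos : 0 ≤ 2 * ((t - s) / (1 + s)) := by
    have : 0 ≤ t - s := by linarith
    positivity
  rw [sub_le_iff_le_add]
  apply max_le
  · linarith [le_max_left c (3 - y * (1 + t))]
  · by_cases h : 3 - y * (1 + s) ≤ c
    · linarith [le_max_left c (3 - y * (1 + t))]
    · push Not at h
      have h1 : y * (1 + s) ≤ 2 := by linarith
      have h2 : y * (t - s) ≤ 2 * ((t - s) / (1 + s)) := by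
        rw [mul_div_assoc', le_div_iff₀ (by linarith)]
        nlinarith
      have h3 : 3 - y * (1 + s) = (3 - y * (1 + t)) + y * (t - s) := by ring
      rw [h3]
      linarith [le_max_right c (3 - y * (1 + t))]

lemma hh_continuousOn : ContinuousOn (fun q : ℝ × ℝ => hh q.2 q.1) (Ici 0 ×ˢ Icc 0 1) := by
  rintro ⟨s, y⟩ ⟨hs, hy0, hy1⟩
  simp only at hs hy0 hy1
  rcases hy0.eq_or_lt with h | h
  · subst h
    -- squeeze
    have h1 : Tendsto (fun q : ℝ × ℝ => 3 - q.2 * (1 + q.1)) (𝓝[Ici 0 ×ˢ Icc 0 1] (s, 0)) (𝓝 3) := by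
      have : ContinuousAt (fun q : ℝ × ℝ => 3 - q.2 * (1 + q.1)) (s, 0) := by fun_prop
      have h2 := this.tendsto
      simp only [zero_mul, sub_zero] at h2
      exact h2.mono_left nhdsWithin_le_nhds
    unfold ContinuousWithinAt
    simp only [hh_zero]
    refine tendsto_of_tendsto_of_tendsto_of_le_of_le' h1 tendsto_const_nhds ?_ ?_
    · exact Eventually.of_forall fun q => le_hh _ _
    · filter_upwards [self_mem_nhdsWithin] with q hq
      exact hh_le hq.2.1 hq.1
  · refine ContinuousAt.continuousWithinAt ?_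
    unfold hh
    have hy : y ≠ 0 := h.ne'
    have h1 : ContinuousAt (fun q : ℝ × ℝ => 2 * π / q.2) (s, y) :=
      continuousAt_const.div continuousAt_snd hy
    have h2 : ContinuousAt (fun q : ℝ × ℝ => 2 + Real.cos (2 * π / q.2)) (s, y) :=
      continuousAt_const.add (Real.continuous_cos.continuousAt.comp h1)
    exact h2.sup (by fun_prop)

/-! ### the radius -/

lemma rad_pos {x s : ℝ} (hs : 0 < s) : 1 < rad x s := by
  unfold rad
  have := U_pos hs
  have := one_le_hh (Int.fract x) s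
  linarith

lemma rad_le {x s : ℝ} (hs : 0 < s) : rad x s ≤ U s + 3 := by
  unfold rad
  have := hh_le (Int.fract_nonneg x) hs.le
  linarith

lemma rad_strictAnti {x s t : ℝ} (hs : 0 < s) (hst : s < t) : rad x t < rad x s := by
  unfold rad
  have := U_strictAnti hs hst
  have := hh_anti (Int.fract_nonneg x) hst.le
  linarith

lemma rad_add_one (x s : ℝ) : rad (x + 1) s = rad x s := by
  unfold rad
  rw [Int.fract_add_one]

lemma rad_add_int (x s : ℝ) (n : ℤ) : rad (x + n) s = rad x s := by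
  unfold rad
  rw [Int.fract_add_intCast]

lemma rad_zero (s : ℝ) : rad 0 s = U s + 3 := by
  unfold rad
  rw [Int.fract_zero, hh_zero]

lemma rad_continuousOn : ContinuousOn (fun q : ℝ × ℝ => rad q.1 q.2) (univ ×ˢ Ioi 0) := by
  have h1 : Continuous fun q : ℝ × ℝ => hh (Int.fract q.2) (max q.1 0) := by
    refine ContinuousOn.comp_fract' (f := fun (s : ℝ) (y : ℝ) => hh y (max s 0)) ?_ ?_
    · have h2 : ContinuousOn (fun q : ℝ × ℝ => (max q.1 0, q.2)) (univ ×ˢ Icc 0 1) := by
        fun_prop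
      exact hh_continuousOn.comp h2 fun q hq => ⟨mem_Ici.2 (le_max_right q.1 0), hq.2⟩
    · intro s
      rw [hh_zero, hh_one (le_max_right _ _)]
  unfold rad
  refine ContinuousOn.add ?_ ?_
  · exact U_continuousOn.comp continuousOn_snd fun q hq => hq.2
  · have h3 : ContinuousOn (fun q : ℝ × ℝ => hh (Int.fract q.1) (max q.2 0)) (univ ×ˢ Ioi 0) :=
      (h1.comp continuous_swap).continuousOn
    refine h3.congr fun q hq => ?_
    simp only
    rw [max_eq_left (le_of_lt hq.2)]

/-! ### the coordinate map -/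

lemma norm_cexp (x : ℝ) : ‖Complex.exp (π * x * Complex.I)‖ = 1 := by
  have : (π * x * Complex.I : ℂ) = ((π * x : ℝ) : ℂ) * Complex.I := by push_cast; ring
  rw [this, Complex.norm_exp_ofReal_mul_I]

lemma norm_Phi {x s : ℝ} (hs : 0 < s) : ‖Phi x s‖ = rad x s := by
  unfold Phi
  rw [norm_mul, norm_cexp, mul_one, Complex.norm_real, Real.norm_eq_abs,
    abs_of_pos (by linarith [rad_pos (x := x) hs])]

lemma cexp_add_one (x : ℝ) : Complex.exp (π * (x + 1 : ℝ) * Complex.I) =
    - Complex.exp (π * x * Complex.I) := by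
  have : (π * (x + 1 : ℝ) * Complex.I : ℂ) = π * x * Complex.I + π * Complex.I := by push_cast; ring
  rw [this, Complex.exp_add, Complex.exp_pi_mul_I]
  ring

lemma Phi_add_one (x s : ℝ) : Phi (x + 1) s = - Phi x s := by
  unfold Phi
  rw [rad_add_one, cexp_add_one]
  ring

lemma cexp_eq_iff (x y : ℝ) : Complex.exp (π * x * Complex.I) = Complex.exp (π * y * Complex.I) ↔
    ∃ n : ℤ, x - y = 2 * n := by
  rw [Complex.exp_eq_exp_iff_exists_int]
  constructor
  · rintro ⟨n, hn⟩
    refine ⟨n, ?_⟩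
    have h1 : ((π * (x - y - 2 * n) : ℝ) : ℂ) * Complex.I = 0 := by
      push_cast
      linear_combination hn
    have h2 : ((π * (x - y - 2 * n) : ℝ) : ℂ) = 0 := by
      rcases mul_eq_zero.1 h1 with h | h
      · exact h
      · exact absurd h Complex.I_ne_zero
    have h3 : π * (x - y - 2 * n) = 0 := by exact_mod_cast h2
    rcases mul_eq_zero.1 h3 with h | h
    · exact absurd h Real.pi_ne_zero
    · linarith
  · rintro ⟨n, hn⟩
    refine ⟨n, ?_⟩
    have : x = y + 2 * n := by linarith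
    rw [this]
    push_cast
    ring

/-- uniqueness of polar coordinates -/
lemma polar_unique {r r' x y : ℝ} (hr : 0 < r) (hr' : 0 < r')
    (h : (r : ℂ) * Complex.exp (π * x * Complex.I) = (r' : ℂ) * Complex.exp (π * y * Complex.I)) :
    r = r' ∧ ∃ n : ℤ, x - y = 2 * n := by
  have h1 := congrArg norm h
  rw [norm_mul, norm_mul, norm_cexp, norm_cexp, mul_one, mul_one, Complex.norm_real,
    Complex.norm_real, Real.norm_eq_abs, Real.norm_eq_abs, abs_of_pos hr, abs_of_pos hr'] at h1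
  refine ⟨h1, (cexp_eq_iff x y).1 ?_⟩
  rw [h1] at h
  exact mul_left_cancel₀ (by exact_mod_cast hr'.ne') h

lemma Phi_inj {x s y t : ℝ} (hs : 0 < s) (ht : 0 < t) (h : Phi x s = Phi y t) :
    s = t ∧ ∃ n : ℤ, x - y = 2 * n := by
  have hr1 := rad_pos (x := x) hs
  have hr2 := rad_pos (x := y) ht
  obtain ⟨h1, n, hn⟩ := polar_unique (by linarith) (by linarith) h
  refine ⟨?_, n, hn⟩
  have h2 : rad x s = rad y s := by
    have : x = y + (2 * n : ℤ) := by push_cast; linarith
    rw [this, rad_add_int]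
  rw [h2] at h1
  rcases lt_trichotomy s t with h3 | h3 | h3
  · exact absurd h1 (rad_strictAnti hs h3).ne'
  · exact h3
  · exact absurd h1 (rad_strictAnti ht h3).ne

lemma continuous_cexp : Continuous fun x : ℝ => Complex.exp (π * x * Complex.I) := by
  fun_prop

lemma Phi_continuousOn : ContinuousOn (fun q : ℝ × ℝ => Phi q.1 q.2) (univ ×ˢ Ioi 0) := by
  unfold Phi
  refine ContinuousOn.mul ?_ ?_
  · exact Complex.continuous_ofReal.comp_continuousOn rad_continuousOn
  · exact (continuous_cexp.comp continuous_fst).continuousOn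

/-- continuity of a curve given in coordinates -/
lemma continuous_Phi_comp {α s : ℝ → ℝ} (hα : Continuous α) (hs : Continuous s)
    (h0 : ∀ t, 0 < s t) : Continuous fun t => Phi (α t) (s t) := by
  have := Phi_continuousOn.comp_continuous (hα.prodMk hs) fun t => ⟨trivial, h0 t⟩
  exact this

/-! ### the rays of `M` -/

lemma ac_eq_one {t : ℝ} (h0 : 0 ≤ t) (h : t ≤ 1 / 2) : ac t = 1 := by
  unfold ac
  apply min_eq_left
  rw [le_div_iff₀ (by linarith)]
  linarith

lemma ac_eq {t : ℝ} (h : 1 / 2 ≤ t) : ac t = 1 / (t + 1 / 2) := by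
  unfold ac
  apply min_eq_right
  rw [div_le_iff₀ (by linarith)]
  linarith

lemma ac_pos {t : ℝ} (h0 : 0 ≤ t) : 0 < ac t := by
  unfold ac
  apply lt_min one_pos
  positivity

lemma ac_le_one (t : ℝ) : ac t ≤ 1 := min_le_left _ _

lemma ac_lt_one {t : ℝ} (h : 1 / 2 < t) : ac t < 1 := by
  rw [ac_eq h.le, div_lt_one (by linarith)]
  linarith

lemma continuous_ac_max : Continuous fun t : ℝ => ac (max t 0) := by
  unfold ac
  refine continuous_const.min (continuous_const.div (by fun_prop) fun t => ?_)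
  have : 0 ≤ max t 0 := le_max_right _ _
  positivity

/-- radius on the rays -/
def rc (t : ℝ) : ℝ := 2 - Real.cos (2 * π * t)

lemma Cc_eq (t : ℝ) : Cc t = (rc t : ℂ) * Complex.exp (π * ac t * Complex.I) := rfl

lemma neg_Cc_eq (t : ℝ) : - Cc t = (rc t : ℂ) * Complex.exp (π * (ac t + 1 : ℝ) * Complex.I) := by
  rw [Cc_eq, cexp_add_one]
  ring

lemma one_le_rc (t : ℝ) : 1 ≤ rc t := by
  unfold rc
  linarith [Real.cos_le_one (2 * π * t)]

lemma rc_le (t : ℝ) : rc t ≤ 3 := by
  unfold rc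
  linarith [Real.neg_one_le_cos (2 * π * t)]

lemma norm_Cc (t : ℝ) : ‖Cc t‖ = rc t := by
  rw [Cc_eq, norm_mul, norm_cexp, mul_one, Complex.norm_real, Real.norm_eq_abs,
    abs_of_pos (by linarith [one_le_rc t])]

lemma continuous_Cc_max : Continuous fun t : ℝ => Cc (max t 0) := by
  unfold Cc
  refine Continuous.mul ?_ ?_
  · fun_prop
  · exact continuous_cexp.comp continuous_ac_max

/-- on the bar the radius is injective -/
lemma rc_inj {s t : ℝ} (hs : s ∈ Icc (0:ℝ) (1 / 2)) (ht : t ∈ Icc (0:ℝ) (1 / 2))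
    (h : rc s = rc t) : s = t := by
  unfold rc at h
  have h1 : Real.cos (2 * π * s) = Real.cos (2 * π * t) := by linarith
  have hpi := Real.pi_pos
  have h2 : 2 * π * s = 2 * π * t := Real.injOn_cos
    ⟨by have := hs.1; positivity, by nlinarith [hs.2]⟩
    ⟨by have := ht.1; positivity, by nlinarith [ht.2]⟩ h1
  have h3 : 2 * π ≠ 0 := by positivity
  exact mul_left_cancel₀ h3 h2

/-- every radius in `[1,3]` occurs on the bar -/
lemma exists_rc {r : ℝ} (h1 : 1 ≤ r) (h3 : r ≤ 3) : ∃ t ∈ Icc (0:ℝ) (1 / 2), rc t = r := by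
  have hc : ContinuousOn rc (Icc 0 (1 / 2)) := by unfold rc; fun_prop
  have h := intermediate_value_Icc (by norm_num : (0:ℝ) ≤ 1 / 2) hc
  have e0 : rc 0 = 1 := by unfold rc; simp; norm_num
  have e1 : rc (1 / 2) = 3 := by
    unfold rc
    have : 2 * π * (1 / 2) = π := by ring
    rw [this, Real.cos_pi]
    norm_num
  rw [e0, e1] at h
  obtain ⟨t, ht, e⟩ := h ⟨h1, h3⟩
  exact ⟨t, ht, e⟩

lemma one_div_eq_one_div_iff_aux (a b : ℝ) (h : 1 / a = 1 / b) : a = b := by
  rw [one_div, one_div] at h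
  exact inv_injective h

lemma Cc_inj {s t : ℝ} (hs : 0 ≤ s) (ht : 0 ≤ t) (h : Cc s = Cc t) : s = t := by
  rw [Cc_eq, Cc_eq] at h
  obtain ⟨h1, n, hn⟩ := polar_unique (by linarith [one_le_rc s]) (by linarith [one_le_rc t]) h
  have hn0 : n = 0 := by
    have a1 := ac_pos hs
    have a2 := ac_pos ht
    have a3 := ac_le_one s
    have a4 := ac_le_one t
    have h5 : (-1 : ℝ) < 2 * n := by linarith
    have h6 : (2 * n : ℝ) < 1 := by linarith
    have h7 : (-1 : ℤ) < 2 * n := by exact_mod_cast h5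
    have h8 : 2 * n < (1 : ℤ) := by exact_mod_cast h6
    omega
  rw [hn0] at hn
  have hac : ac s = ac t := by push_cast at hn; linarith
  rcases le_or_gt s (1 / 2) with h2 | h2
  · rcases le_or_gt t (1 / 2) with h3 | h3
    · exact rc_inj ⟨hs, h2⟩ ⟨ht, h3⟩ h1
    · rw [ac_eq_one hs h2] at hac
      exact absurd hac.symm (ac_lt_one h3).ne
  · rcases le_or_gt t (1 / 2) with h3 | h3
    · rw [ac_eq_one ht h3] at hac
      exact absurd hac (ac_lt_one h2).ne
    · rw [ac_eq h2.le, ac_eq h3.le] at hac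
      have h4 := (one_div_eq_one_div_iff_aux (s + 1 / 2) (t + 1 / 2) hac)
      linarith

lemma Cc_ne_neg {s t : ℝ} (hs : 0 ≤ s) (ht : 0 ≤ t) : Cc s ≠ - Cc t := by
  intro h
  rw [neg_Cc_eq, Cc_eq] at h
  obtain ⟨-, n, hn⟩ := polar_unique (by linarith [one_le_rc s]) (by linarith [one_le_rc t]) h
  have a1 := ac_pos hs
  have a2 := ac_pos ht
  have a3 := ac_le_one s
  have a4 := ac_le_one t
  have h5 : (-2 : ℝ) < 2 * n := by linarith
  have h6 : (2 * n : ℝ) < 0 := by linarith
  have h7 : (-2 : ℤ) < 2 * n := by exact_mod_cast h5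
  have h8 : 2 * n < (0 : ℤ) := by exact_mod_cast h6
  omega

/-- the circle-like continuum -/
def MM : Set ℂ := PP .c1 '' Ici 0 ∪ PP .c2 '' Ici 0

lemma mem_MM_iff (z : ℂ) : z ∈ MM ↔ ∃ t, 0 ≤ t ∧ (z = Cc t ∨ z = - Cc t) := by
  unfold MM PP
  constructor
  · rintro (⟨t, ht, rfl⟩ | ⟨t, ht, rfl⟩)
    · exact ⟨t, ht, Or.inl (by simp only; rw [max_eq_left ht])⟩
    · exact ⟨t, ht, Or.inr (by simp only; rw [max_eq_left ht])⟩
  · rintro ⟨t, ht, rfl | rfl⟩
    · exact Or.inl ⟨t, ht, by simp only; rw [max_eq_left ht]⟩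
    · exact Or.inr ⟨t, ht, by simp only; rw [max_eq_left ht]⟩

lemma neg_mem_MM {z : ℂ} (h : z ∈ MM) : - z ∈ MM := by
  rw [mem_MM_iff] at h ⊢
  obtain ⟨t, ht, rfl | rfl⟩ := h
  · exact ⟨t, ht, Or.inr rfl⟩
  · exact ⟨t, ht, Or.inl (neg_neg _)⟩

/-- the limit of the radius: `2 + cos (2π / y)` for the representative `y ∈ (0,1]` -/
lemma rad_gt {x s t : ℝ} {n : ℤ} (hs : 0 < s) (ht : 0 ≤ t) (h : x - ac t = n) :
    rc t < rad x s := by
  have hU := U_pos hs
  have hx : rad x s = rad (ac t) s := by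
    have : x = ac t + n := by linarith
    rw [this, rad_add_int]
  rw [hx]
  unfold rad
  rcases le_or_gt t (1 / 2) with h2 | h2
  · rw [ac_eq_one ht h2]
    have : Int.fract (1:ℝ) = 0 := Int.fract_one
    rw [this, hh_zero]
    linarith [rc_le t]
  · have h3 : Int.fract (ac t) = ac t := Int.fract_eq_self.2 ⟨(ac_pos ht).le, ac_lt_one h2⟩
    rw [h3]
    have h4 : rc t ≤ hh (ac t) s := by
      unfold hh rc
      refine le_trans (le_of_eq ?_) (le_max_left _ _)
      rw [ac_eq h2.le]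
      have : 2 * π / (1 / (t + 1 / 2)) = 2 * π * t + π := by
        field_simp
      rw [this, Real.cos_add_pi]
      ring
    linarith

lemma Phi_notMem_MM {x s : ℝ} (hs : 0 < s) : Phi x s ∉ MM := by
  rw [mem_MM_iff]
  rintro ⟨t, ht, h | h⟩
  · rw [Cc_eq] at h
    obtain ⟨h1, n, hn⟩ := polar_unique (by linarith [rad_pos (x := x) hs])
      (by linarith [one_le_rc t]) h
    exact absurd h1 (rad_gt (n := 2 * n) hs ht (by push_cast; exact hn)).ne'
  · rw [neg_Cc_eq] at h
    obtain ⟨h1, n, hn⟩ := polar_unique (by linarith [rad_pos (x := x) hs])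
      (by linarith [one_le_rc t]) h
    exact absurd h1 (rad_gt (n := 2 * n + 1) hs ht (by push_cast; linarith)).ne'

end

end Pool.Agent.Lib.MP_a9a15f_gt
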