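import Pool.Agent.Lib.MP_a9a15f_gt.Cluster

/-! # Curves spiralling onto `M` -/

set_option autoImplicit false

open Set Topology Filter
open scoped Real

namespace Pool.Agent.Lib.MP_a9a15f_gt

noncomputable section

lemma isCompact_bar1 : IsCompact (PP .c1 '' Icc 0 (1 / 2)) := isCompact_Icc.image continuous_PP_c1

lemma isCompact_bar2 : IsCompact (PP .c2 '' Icc 0 (1 / 2)) := isCompact_Icc.image continuous_PP_c2

/-- all cluster points of a function on a proper space: distance to the cluster set tends to `0` -/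
lemma tendsto_infDist_cluster {E : Type*} [MetricSpace E] {F C : Set E} (hC : IsCompact C)
    {l : Filter ℝ} {P : ℝ → E} (hP : ∀ᶠ t in l, P t ∈ C)
    (hF : ∀ x, MapClusterPt x l P → x ∈ F) :
    Tendsto (fun t => Metric.infDist (P t) F) l (𝓝 0) := by
  rw [Metric.tendsto_nhds]
  intro ε hε
  by_contra hcon
  rw [not_eventually] at hcon
  have h1 : ∃ᶠ t in l, P t ∈ C ∩ {x | ε ≤ Metric.infDist x F} := by
    refine (hcon.and_eventually hP).mono fun t ht => ⟨ht.2, ?_⟩
    have h2 := ht.1
    rw [Real.dist_eq, sub_zero, abs_of_nonneg Metric.infDist_nonneg, not_lt] at h2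
    exact h2
  have hcl : IsCompact (C ∩ {x | ε ≤ Metric.infDist x F}) :=
    hC.inter_right (isClosed_le continuous_const (Metric.continuous_infDist_pt F))
  obtain ⟨x, hx, hcx⟩ := hcl.exists_mapClusterPt_of_frequently h1
  have h3 := Metric.infDist_zero_of_mem (hF x hcx)
  have h4 : ε ≤ Metric.infDist x F := hx.2
  linarith

lemma tendsto_infDist_c1 :
    Tendsto (fun t => Metric.infDist (PP .c1 t) (PP .c2 '' Icc 0 (1 / 2))) atTop (𝓝 0) := by
  refine tendsto_infDist_cluster (isCompact_closedBall (0:ℂ) 3) ?_ (fun x hx => (clT_c1 x).1 hx)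
  filter_upwards [eventually_ge_atTop (0:ℝ)] with t ht
  rw [mem_closedBall_zero_iff, PP_c1_of_nonneg ht, norm_Cc]
  exact rc_le t

lemma tendsto_infDist_c2 :
    Tendsto (fun t => Metric.infDist (PP .c2 t) (PP .c1 '' Icc 0 (1 / 2))) atTop (𝓝 0) := by
  refine tendsto_infDist_cluster (isCompact_closedBall (0:ℂ) 3) ?_ (fun x hx => (clT_c2 x).1 hx)
  filter_upwards [eventually_ge_atTop (0:ℝ)] with t ht
  rw [mem_closedBall_zero_iff, PP_c2_of_nonneg ht, norm_neg, norm_Cc]
  exact rc_le t

lemma norm_le_of_mem_MM {z : ℂ} (h : z ∈ MM) : ‖z‖ ≤ 3 := by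
  rw [mem_MM_iff] at h
  obtain ⟨t, -, rfl | rfl⟩ := h
  · rw [norm_Cc]; exact rc_le t
  · rw [norm_neg, norm_Cc]; exact rc_le t

lemma isClosed_MM : IsClosed MM := by
  have h1 := isClosed_union_tail isCompact_bar2.isClosed ⟨_, 0, ⟨le_rfl, by norm_num⟩, rfl⟩
    continuous_PP_c1 tendsto_infDist_c1 0
  have h2 := isClosed_union_tail isCompact_bar1.isClosed ⟨_, 0, ⟨le_rfl, by norm_num⟩, rfl⟩
    continuous_PP_c2 tendsto_infDist_c2 0
  have h3 : MM = (PP .c2 '' Icc 0 (1 / 2) ∪ PP .c1 '' Ici 0) ∪
      (PP .c1 '' Icc 0 (1 / 2) ∪ PP .c2 '' Ici 0) := by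
    apply Subset.antisymm
    · rintro z (hz | hz)
      · exact Or.inl (Or.inr hz)
      · exact Or.inr (Or.inr hz)
    · rintro z ((hz | hz) | (hz | hz))
      · exact Or.inr (image_mono Icc_subset_Ici_self hz)
      · exact Or.inl hz
      · exact Or.inl (image_mono Icc_subset_Ici_self hz)
      · exact Or.inr hz
  rw [h3]
  exact h1.union h2

lemma isCompact_MM : IsCompact MM := by
  refine Metric.isCompact_of_isClosed_isBounded isClosed_MM ?_
  refine (Metric.isBounded_closedBall (x := (0:ℂ)) (r := 3)).subset fun z hz => ?_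
  rw [mem_closedBall_zero_iff]
  exact norm_le_of_mem_MM hz

lemma nonempty_MM : MM.Nonempty := ⟨Cc 0, (mem_MM_iff _).2 ⟨0, le_rfl, Or.inl rfl⟩⟩

/-- the limit of the radius at the angle of a point of the ray -/
lemma tendsto_rad {t : ℝ} (ht : 1 / 2 ≤ t) : Tendsto (fun s => rad (ac t) s) atTop (𝓝 (rc t)) := by
  have hU := tendsto_U
  unfold rad
  have h1 : Tendsto (fun s => hh (Int.fract (ac t)) s) atTop (𝓝 (rc t)) := by
    rcases ht.eq_or_lt with h | h
    · rw [ac_eq_one (by linarith) h.symm.le, Int.fract_one]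
      have e1 : rc t = 3 := by
        unfold rc
        have : 2 * π * t = π := by rw [← h]; ring
        rw [this, Real.cos_pi]
        norm_num
      rw [e1]
      simp only [hh_zero]
      exact tendsto_const_nhds
    · have hpos : 0 < ac t := ac_pos (by linarith)
      have h3 : Int.fract (ac t) = ac t := Int.fract_eq_self.2 ⟨hpos.le, ac_lt_one h⟩
      rw [h3]
      refine tendsto_const_nhds.congr' ?_
      filter_upwards [eventually_ge_atTop (2 / ac t)] with s hs
      have e1 : rc t = 2 + Real.cos (2 * π / ac t) := by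
        unfold rc
        rw [ac_eq ht]
        have : 2 * π / (1 / (t + 1 / 2)) = 2 * π * t + π := by
          field_simp
        rw [this, Real.cos_add_pi]
        ring
      rw [e1]
      unfold hh
      rw [max_eq_left]
      have h4 : 2 ≤ ac t * s := by
        rw [div_le_iff₀ hpos] at hs
        linarith
      have h5 := Real.neg_one_le_cos (2 * π / ac t)
      nlinarith
  simpa using hU.add h1

/-- The cluster set of a spiral is `M`. -/
lemma clT_spiral {α s : ℝ → ℝ} {P : ℝ → ℂ} (hα : Continuous α) (hαt : Tendsto α atTop atTop)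
    (hst : Tendsto s atTop atTop) (hP : ∀ᶠ t in atTop, P t = Phi (α t) (s t)) (x : ℂ) :
    MapClusterPt x atTop P ↔ x ∈ MM := by
  constructor
  · intro h
    refine mem_of_clusterPt_infDist isClosed_MM nonempty_MM ?_ h
    refine tendsto_infDist_of_dist (b := fun t => U (s t) + 6 * π / (1 + s t)) ?_ ?_
    · have h1 := tendsto_U.comp hst
      have h2 : Tendsto (fun t => 6 * π / (1 + s t)) atTop (𝓝 0) :=
        Tendsto.div_atTop tendsto_const_nhds (tendsto_atTop_add_const_left _ _ hst)
      simpa using h1.add h2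
    · filter_upwards [hP, hst.eventually (eventually_gt_atTop 0)] with t ht hs
      rw [ht]
      exact near_MM _ hs
  · have hclosed : IsClosed {x | MapClusterPt x atTop P} := isClosed_setOfPred_clusterPt
    -- the points of the rays
    have key : ∀ (n : ℤ) (t : ℝ), 1 / 2 ≤ t → MapClusterPt
        ((rc t : ℂ) * Complex.exp (π * (n + ac t : ℝ) * Complex.I)) atTop P := by
      intro n t ht
      rw [mapClusterPt_iff_frequently]
      intro V hV
      have h1 : Tendsto (fun τ => (rad (ac t) (s τ) : ℂ) *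
          Complex.exp (π * (n + ac t : ℝ) * Complex.I)) atTop
          (𝓝 ((rc t : ℂ) * Complex.exp (π * (n + ac t : ℝ) * Complex.I))) := by
        refine Tendsto.mul_const _ ?_
        exact (Complex.continuous_ofReal.tendsto _).comp ((tendsto_rad ht).comp hst)
      have h2 := h1.eventually hV
      have h3 : ∃ᶠ τ in atTop, ∃ k : ℤ, α τ = (n + ac t) + 2 * k := by
        rw [frequently_atTop]
        intro N
        obtain ⟨k, hk⟩ := exists_int_gt ((α N - (n + ac t)) / 2)
        have hk' : α N ≤ (n + ac t) + 2 * k := by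
          rw [div_lt_iff₀ (by norm_num)] at hk
          linarith
        obtain ⟨N', hN', hN''⟩ := ((hαt.eventually (eventually_ge_atTop ((n + ac t) + 2 * k))).and
          (eventually_ge_atTop N)).exists
        obtain ⟨τ, hτ, hτe⟩ := intermediate_value_Icc hN'' hα.continuousOn ⟨hk', hN'⟩
        exact ⟨τ, hτ.1, k, hτe⟩
      refine ((h3.and_eventually h2).and_eventually hP).mono ?_
      rintro τ ⟨⟨⟨k, hk⟩, hV'⟩, hPτ⟩
      rw [hPτ]
      unfold Phi
      have e1 : rad (α τ) (s τ) = rad (ac t) (s τ) := by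
        have : α τ = ac t + ((n + 2 * k : ℤ) : ℝ) := by rw [hk]; push_cast; ring
        rw [this, rad_add_int]
      have e2 : Complex.exp (π * α τ * Complex.I) =
          Complex.exp (π * (n + ac t : ℝ) * Complex.I) :=
        (cexp_eq_iff _ _).2 ⟨k, by rw [hk]; ring⟩
      rw [e1, e2]
      exact hV'
    have k1 : ∀ t, 1 / 2 ≤ t → MapClusterPt (PP .c1 t) atTop P := by
      intro t ht
      have := key 0 t ht
      rw [PP_c1_of_nonneg (by linarith), Cc_eq]
      simpa using this
    have k2 : ∀ t, 1 / 2 ≤ t → MapClusterPt (PP .c2 t) atTop P := by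
      intro t ht
      have := key 1 t ht
      rw [PP_c2_of_nonneg (by linarith), neg_Cc_eq]
      have e : ((1 : ℤ) + ac t : ℝ) = (ac t + 1 : ℝ) := by push_cast; ring
      rw [e] at this
      exact this
    have c1 : ∀ x, MapClusterPt x atTop (PP .c1) → MapClusterPt x atTop P := fun x hx =>
      hclosed.mem_of_mapClusterPt hx ((eventually_ge_atTop (1 / 2 : ℝ)).mono fun t ht => k1 t ht)
    have c2 : ∀ x, MapClusterPt x atTop (PP .c2) → MapClusterPt x atTop P := fun x hx =>
      hclosed.mem_of_mapClusterPt hx ((eventually_ge_atTop (1 / 2 : ℝ)).mono fun t ht => k2 t ht)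
    rintro (⟨t, ht, rfl⟩ | ⟨t, ht, rfl⟩)
    · rcases le_total t (1 / 2) with h | h
      · exact c2 _ ((clT_c2 _).2 ⟨t, ⟨ht, h⟩, rfl⟩)
      · exact k1 t h
    · rcases le_total t (1 / 2) with h | h
      · exact c1 _ ((clT_c1 _).2 ⟨t, ⟨ht, h⟩, rfl⟩)
      · exact k2 t h

end

end Pool.Agent.Lib.MP_a9a15f_gt
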